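import Pool.Agent.Lib_helper39.FAN.Res

namespace Pool.Agent.Lib_helper39.FAN

open Finset

set_option linter.unusedSectionVars false

variable {R : Type*} [CommRing R] {ι : Type*} [LinearOrder ι]

lemma smul_isUnit_cancel (f : ι → R) {S T : Finset ι} (h : S ⊆ T) (n : ℕ) {x y : Loc f T}
    (hxy : ((∏ j ∈ S, f j) ^ n) • x = ((∏ j ∈ S, f j) ^ n) • y) : x = y := by
  rw [Algebra.smul_def, Algebra.smul_def, map_pow] at hxy
  exact ((isUnit_algebraMap_Loc f h).pow n).mul_left_cancel hxy

lemma exists_smul_eq (f : ι → R) (S : Finset ι) (x : Loc f S) :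
    ∃ (n : ℕ) (a : R), ((∏ j ∈ S, f j) ^ n) • x = algebraMap R (Loc f S) a := by
  obtain ⟨n, a, h⟩ := IsLocalization.Away.surj (∏ j ∈ S, f j) x
  exact ⟨n, a, by rw [Algebra.smul_def, map_pow, mul_comm, h]⟩

lemma exists_res_eq (f : ι → R) {j : ι} {S : Finset ι} (hj : j ∉ S) (x : Loc f (insert j S)) :
    ∃ N : ℕ, ∀ n ≥ N, ∃ z : Loc f S, res f (subset_insert j S) z = (f j ^ n) • x := by
  obtain ⟨N, a, h⟩ := exists_smul_eq f (insert j S) x
  refine ⟨N, fun n hn => ?_⟩
  obtain ⟨m, rfl⟩ := Nat.exists_eq_add_of_le hn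
  let z : Loc f S := IsLocalization.mk' (Loc f S) (f j ^ m * a)
    (⟨(∏ j ∈ S, f j) ^ N, N, rfl⟩ : Submonoid.powers (∏ j ∈ S, f j))
  have hz : ((∏ j ∈ S, f j) ^ N) • z = algebraMap R (Loc f S) (f j ^ m * a) := by
    rw [Algebra.smul_def]
    exact IsLocalization.mk'_spec' (Loc f S) _ _
  refine ⟨z, smul_isUnit_cancel f (subset_insert j S) N ?_⟩
  rw [← map_smul, hz, AlgHom.commutes, map_mul, ← h, ← Algebra.smul_def,
    smul_smul, smul_smul]
  congr 1
  rw [Finset.prod_insert hj]
  ring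

lemma exists_smul_eq_zero (f : ι → R) {j : ι} {S : Finset ι} (hj : j ∉ S) (z : Loc f S)
    (h : res f (subset_insert j S) z = 0) : ∃ N : ℕ, ∀ n ≥ N, (f j ^ n) • z = 0 := by
  obtain ⟨N, a, ha⟩ := exists_smul_eq f S z
  have h1 : algebraMap R (Loc f (insert j S)) a = 0 := by
    rw [← AlgHom.commutes (res f (subset_insert j S)), ← ha, map_smul, h, smul_zero]
  obtain ⟨m, hm⟩ := IsLocalization.Away.exists_of_eq (S := Loc f (insert j S))
    (∏ k ∈ insert j S, f k) (h1.trans (map_zero _).symm)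
  refine ⟨m, fun n hn => ?_⟩
  obtain ⟨k, rfl⟩ := Nat.exists_eq_add_of_le hn
  apply smul_isUnit_cancel f (le_refl S) (m + N)
  have h2 : (f j ^ m * (∏ k ∈ S, f k) ^ m) * a = 0 := by
    rw [← mul_pow, ← Finset.prod_insert hj, hm, mul_zero]
  calc ((∏ j ∈ S, f j) ^ (m + N)) • (f j ^ (m + k)) • z
      = (f j ^ k) • (f j ^ m * (∏ k ∈ S, f k) ^ m) • ((∏ j ∈ S, f j) ^ N) • z := by
        simp only [smul_smul]; congr 1; ring
    _ = 0 := by
        rw [ha, Algebra.smul_def (f j ^ m * (∏ k ∈ S, f k) ^ m), ← map_mul, h2, map_zero, smul_zero]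
    _ = ((∏ j ∈ S, f j) ^ (m + N)) • (0 : Loc f S) := (smul_zero _).symm

/-- Extracting a uniform exponent from finitely many. -/
lemma exists_uniform {α : Type*} [Finite α] (P : α → ℕ → Prop)
    (h : ∀ a, ∃ N, ∀ n ≥ N, P a n) : ∃ N, ∀ n ≥ N, ∀ a, P a n := by
  classical
  cases nonempty_fintype α
  choose N hN using h
  refine ⟨Finset.univ.sup N, fun n hn a => hN a n (le_trans (Finset.le_sup (Finset.mem_univ a)) hn)⟩

/-- Elements of the ideal generated by the `f_j`, `j ∈ U`, act locally nilpotently on the cohomology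
of the kernel of the restriction from `V` to `U`. -/
theorem local_nilpotent [Finite ι] (f : ι → R) {U V : Finset ι} {j : ι}
    (hjU : j ∈ U) (hUV : U ⊆ V) (b : Cochain f) (hb : ∀ S ⊆ U, b S = 0) (hdb : ∀ S ⊆ V, d f b S = 0) :
    ∃ N : ℕ, ∃ e : Cochain f, (∀ S ⊆ U, e S = 0) ∧ ∀ S ⊆ V, (f j ^ N) • b S = d f e S := by
  classical
  -- lift the contraction
  have h1 : ∀ S : Finset ι, ∃ N : ℕ, ∀ n ≥ N, j ∉ S → ∃ z : Loc f S,
      (S ⊆ U → z = 0) ∧ res f (subset_insert j S) z = (f j ^ n) • b (insert j S) := by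
    intro S
    by_cases hj : j ∉ S
    · by_cases hS : S ⊆ U
      · refine ⟨0, fun n _ _ => ⟨0, fun _ => rfl, ?_⟩⟩
        rw [hb _ (insert_subset hjU hS)]; simp
      · obtain ⟨N, hN⟩ := exists_res_eq f hj (b (insert j S))
        refine ⟨N, fun n hn _ => ?_⟩
        obtain ⟨z, hz⟩ := hN n hn
        exact ⟨z, fun h => absurd h hS, hz⟩
    · exact ⟨0, fun n _ h => absurd h hj⟩
  obtain ⟨N, hN⟩ := exists_uniform _ h1
  have h2 := hN N le_rfl
  choose z hz0 hz using h2
  let e : Cochain f := fun S => if h : j ∉ S then sgn R j (insert j S) • z S h else 0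
  have he0 : ∀ S ⊆ U, e S = 0 := by
    intro S hS
    by_cases h : j ∉ S
    · simp only [e, dif_pos h, hz0 S h hS, smul_zero]
    · simp only [e, dif_neg h]
  have heres : ∀ S (h : j ∉ S) (T : Finset ι) (hST : insert j S ⊆ T),
      res f ((subset_insert j S).trans hST) (e S) =
        sgn R j (insert j S) • (f j ^ N) • res f hST (b (insert j S)) := by
    intro S h T hST
    rw [← res_res f (subset_insert j S) hST]
    simp only [e, dif_pos h, map_smul, hz S h, map_smul]
  have hej : ∀ S, j ∈ S → e S = 0 := by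
    intro S h
    simp only [e, dif_neg (not_not.2 h)]
  -- case j ∈ T
  have hT1 : ∀ T : Finset ι, j ∈ T → (f j ^ N) • b T = d f e T := by
    intro T hjT
    rw [d_apply, Finset.sum_eq_single_of_mem j hjT]
    · have h3 : insert j (T.erase j) = T := insert_erase hjT
      rw [heres (T.erase j) (notMem_erase j T) T h3.subset, res_eq_self f b h3, h3, smul_smul,
        sgn_mul_self, one_smul]
    · intro k hk hkj
      rw [hej (T.erase k) (mem_erase.2 ⟨Ne.symm hkj, hjT⟩), map_zero, smul_zero]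
  -- case j ∉ T, after restriction
  have hT2 : ∀ T : Finset ι, T ⊆ V → j ∉ T →
      res f (subset_insert j T) ((f j ^ N) • b T - d f e T) = 0 := by
    intro T hTV hjT
    have h4 := hdb (insert j T) (insert_subset (hUV hjU) hTV)
    rw [d_apply, Finset.sum_insert hjT,
      res_congr f b (erase_insert hjT) _ (subset_insert j T)] at h4
    have h5 : res f (subset_insert j T) (b T) =
        - ∑ k ∈ T, (sgn R j (insert j T) * sgn R k (insert j T)) •
          res f (erase_subset k (insert j T)) (b ((insert j T).erase k)) := by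
      have h6 := congrArg (fun x => sgn R j (insert j T) • x) h4
      simp only [smul_add, smul_smul, sgn_mul_self, one_smul, smul_zero, Finset.smul_sum] at h6
      exact eq_neg_of_add_eq_zero_left h6
    rw [map_sub, map_smul, h5, d_apply, map_sum, sub_eq_zero, smul_neg, Finset.smul_sum,
      ← Finset.sum_neg_distrib]
    refine Finset.sum_congr rfl fun k hk => ?_
    have hkj : k ≠ j := fun h => hjT (h ▸ hk)
    have h7 : insert j (T.erase k) = (insert j T).erase k :=
      (erase_insert_of_ne (Ne.symm hkj)).symm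
    have h8 : insert j (T.erase k) ⊆ insert j T := h7 ▸ erase_subset k _
    rw [map_smul, res_res,
      show res f ((erase_subset k T).trans (subset_insert j T)) (e (T.erase k)) =
        sgn R j (insert j (T.erase k)) • (f j ^ N) • res f h8 (b (insert j (T.erase k))) from
        heres (T.erase k) (fun h => hjT (mem_of_mem_erase h)) (insert j T) h8,
      res_congr f b h7 h8 (erase_subset k _), h7]
    have h9 : sgn R j (insert j T) * sgn R k (insert j T) =
        - (sgn R k T * sgn R j ((insert j T).erase k)) := by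
      have h10 := sgn_antisymm (R := R) (T := insert j T) (mem_insert_of_mem hk) (mem_insert_self j T) hkj
      rw [erase_insert hjT] at h10
      -- h10 : sgn R k (insert j T) * sgn R j ((insert j T).erase k) = -(sgn R j (insert j T) * sgn R k T)
      have h11 := sgn_mul_self (R := R) j (insert j T)
      have h14 := sgn_mul_self (R := R) j ((insert j T).erase k)
      linear_combination (sgn R j (insert j T) * sgn R j ((insert j T).erase k)) * h10
        - sgn R j (insert j T) * sgn R k (insert j T) * h14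
        - sgn R k T * sgn R j ((insert j T).erase k) * h11
    rw [h9, smul_smul, smul_smul, smul_smul, ← neg_smul]
    congr 1
    ring
  -- remove the torsion
  have h3 : ∀ T : Finset ι, ∃ M : ℕ, ∀ n ≥ M, T ⊆ V → (f j ^ n) • ((f j ^ N) • b T - d f e T) = 0 := by
    intro T
    by_cases hTV : T ⊆ V
    · by_cases hj : j ∈ T
      · refine ⟨0, fun n _ _ => ?_⟩
        rw [hT1 T hj, sub_self, smul_zero]
      · obtain ⟨M, hM⟩ := exists_smul_eq_zero f hj _ (hT2 T hTV hj)
        exact ⟨M, fun n hn _ => hM n hn⟩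
    · exact ⟨0, fun n _ h => absurd h hTV⟩
  obtain ⟨M, hM⟩ := exists_uniform _ h3
  refine ⟨M + N, (f j ^ M) • e, fun S hS => ?_, fun S hS => ?_⟩
  · rw [Pi.smul_apply, he0 S hS, smul_zero]
  · have := hM M le_rfl S hS
    rw [smul_sub, smul_smul, ← pow_add, sub_eq_zero] at this
    rw [this, map_smul, Pi.smul_apply]

lemma d_congr (f : ι → R) {V : Finset ι} {a b : Cochain f} (h : ∀ S ⊆ V, a S = b S) :
    ∀ S ⊆ V, d f a S = d f b S := by
  intro S hS
  rw [d_apply, d_apply]
  refine Finset.sum_congr rfl fun j _ => ?_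
  rw [h _ ((S.erase_subset j).trans hS)]

lemma isUnit_mem (f : ι → R) {S : Finset ι} {j : ι} (hj : j ∈ S) :
    IsUnit (algebraMap R (Loc f S) (f j)) := by
  have := isUnit_algebraMap_Loc f (singleton_subset_iff.2 hj)
  rwa [Finset.prod_singleton] at this

/-- If `f_h` lies in the radical of the ideal generated by the `f_j`, `j ∈ U`, then the kernel of
the restriction from `insert h U` to `U` is acyclic. -/
theorem acyclic [Finite ι] (f : ι → R) {U V : Finset ι} {h : ι} (hU : U ⊆ V)
    (hV : ∀ S ⊆ V, h ∉ S → S ⊆ U)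
    (hrad : f h ∈ (Ideal.span (f '' (U : Set ι))).radical)
    (b : Cochain f) (hb : ∀ S ⊆ U, b S = 0) (hdb : ∀ S ⊆ V, d f b S = 0) :
    ∃ e : Cochain f, (∀ S ⊆ U, e S = 0) ∧ ∀ S ⊆ V, b S = d f e S := by
  classical
  let I : Ideal R :=
    { carrier := {r | ∃ e : Cochain f, (∀ S ⊆ U, e S = 0) ∧ ∀ S ⊆ V, r • b S = d f e S}
      add_mem' := by
        rintro r r' ⟨e, he, he'⟩ ⟨g, hg, hg'⟩
        refine ⟨e + g, fun S hS => ?_, fun S hS => ?_⟩
        · rw [Pi.add_apply, he S hS, hg S hS, add_zero]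
        · rw [add_smul, he' S hS, hg' S hS, map_add, Pi.add_apply]
      zero_mem' := ⟨0, fun S _ => rfl, fun S _ => by rw [zero_smul, map_zero, Pi.zero_apply]⟩
      smul_mem' := by
        rintro r r' ⟨e, he, he'⟩
        refine ⟨r • e, fun S hS => ?_, fun S hS => ?_⟩
        · rw [Pi.smul_apply, he S hS, smul_zero]
        · rw [smul_eq_mul, mul_smul, he' S hS, map_smul, Pi.smul_apply] }
  have h1 : Ideal.span (f '' (U : Set ι)) ≤ I.radical := by
    rw [Ideal.span_le]
    rintro _ ⟨j, hj, rfl⟩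
    obtain ⟨N, e, he, he'⟩ := local_nilpotent f (Finset.mem_coe.1 hj) hU b hb hdb
    exact ⟨N, e, he, he'⟩
  have h2 : f h ∈ I.radical := (Ideal.radical_le_radical_iff.2 h1) hrad
  obtain ⟨k, e, he, he'⟩ := h2
  have h3 : ∀ S : Finset ι, h ∈ S → ∃ z : Loc f S, (f h ^ k) • z = e S := by
    intro S hS
    obtain ⟨u, hu⟩ := (isUnit_mem f hS).pow k
    refine ⟨↑u⁻¹ * e S, ?_⟩
    rw [Algebra.smul_def, map_pow, ← hu, ← mul_assoc, Units.mul_inv, one_mul]
  choose z hz using h3
  let e' : Cochain f := fun S => if hS : h ∈ S then z S hS else 0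
  have h4 : ∀ S ⊆ V, ((f h ^ k) • e') S = e S := by
    intro S hS
    rw [Pi.smul_apply]
    by_cases hS' : h ∈ S
    · simp only [e', dif_pos hS', hz S hS']
    · simp only [e', dif_neg hS', smul_zero]
      exact (he S (hV S hS hS')).symm
  refine ⟨e', fun S hS => ?_, fun S hS => ?_⟩
  · by_cases hS' : h ∈ S
    · -- here `e S = 0`, and `f h` is invertible
      simp only [e', dif_pos hS']
      have h5 := hz S hS'
      rw [he S hS, Algebra.smul_def, map_pow] at h5
      exact ((isUnit_mem f hS').pow k).mul_right_eq_zero.1 h5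
    · simp only [e', dif_neg hS']
  · have h6 : (f h ^ k) • d f e' S = (f h ^ k) • b S := by
      rw [he' S hS, ← Pi.smul_apply, ← map_smul]
      exact d_congr f h4 S hS
    by_cases hS' : h ∈ S
    · rw [Algebra.smul_def, Algebra.smul_def, map_pow] at h6
      exact (((isUnit_mem f hS').pow k).mul_left_cancel h6).symm
    · rw [hb S (hV S hS hS'), d_apply]
      symm
      refine Finset.sum_eq_zero fun j _ => ?_
      have h7 : h ∉ S.erase j := fun h8 => hS' (mem_of_mem_erase h8)
      simp only [e', dif_neg h7, map_zero, smul_zero]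

/-- Closedness on the subsets of `U`. -/
def ClosedOn (f : ι → R) (U : Finset ι) (c : Cochain f) : Prop := ∀ S ⊆ U, d f c S = 0

/-- Exactness on the subsets of `U`. -/
def ExactOn (f : ι → R) (U : Finset ι) (c : Cochain f) : Prop :=
  ∃ e : Cochain f, ∀ S ⊆ U, c S = d f e S

theorem exact_step [Finite ι] (f : ι → R) {U V : Finset ι} {h : ι} (hU : U ⊆ V)
    (hV : ∀ S ⊆ V, h ∉ S → S ⊆ U) (hrad : f h ∈ (Ideal.span (f '' (U : Set ι))).radical)
    {c : Cochain f} (hc : ClosedOn f V c) (hc' : ExactOn f U c) : ExactOn f V c := by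
  obtain ⟨e, he⟩ := hc'
  obtain ⟨e', -, he'⟩ := acyclic f hU hV hrad (c - d f e)
    (fun S hS => by rw [Pi.sub_apply, he S hS, sub_self])
    (fun S hS => by rw [map_sub, Pi.sub_apply, hc S hS, d_d, Pi.zero_apply, sub_self])
  refine ⟨e + e', fun S hS => ?_⟩
  rw [map_add, Pi.add_apply, ← he' S hS, Pi.sub_apply]
  ring

theorem closed_step [Finite ι] (f : ι → R) {U V : Finset ι} {h : ι} (hU : U ⊆ V)
    (hV : ∀ S ⊆ V, h ∉ S → S ⊆ U) (hrad : f h ∈ (Ideal.span (f '' (U : Set ι))).radical)
    {c : Cochain f} (hc : ClosedOn f U c) : ∃ c' : Cochain f, ClosedOn f V c' ∧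
      ∀ S ⊆ U, c' S = c S := by
  classical
  obtain ⟨e', h1, h2⟩ := acyclic f hU hV hrad (d f c)
    hc (fun S hS => by rw [d_d, Pi.zero_apply])
  refine ⟨c - e', fun S hS => ?_, fun S hS => ?_⟩
  · rw [map_sub, Pi.sub_apply, h2 S hS, sub_self]
  · rw [Pi.sub_apply, h1 S hS, sub_zero]

end Pool.Agent.Lib_helper39.FAN
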