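import Mathlib

namespace Pool.Agent.Lib_helper39.FAN

/-- The cubic algebra `A[y] / (y³ - t y - q)`, with basis `1, y, y²`. -/
@[ext] structure Cub (A : Type*) (t q : A) where
  c0 : A
  c1 : A
  c2 : A

namespace Cub

variable {A : Type*} [CommRing A] {t q : A}

instance : Zero (Cub A t q) := ⟨⟨0, 0, 0⟩⟩
instance : One (Cub A t q) := ⟨⟨1, 0, 0⟩⟩
instance : Add (Cub A t q) := ⟨fun x y => ⟨x.c0 + y.c0, x.c1 + y.c1, x.c2 + y.c2⟩⟩
instance : Neg (Cub A t q) := ⟨fun x => ⟨-x.c0, -x.c1, -x.c2⟩⟩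
instance : Sub (Cub A t q) := ⟨fun x y => ⟨x.c0 - y.c0, x.c1 - y.c1, x.c2 - y.c2⟩⟩
instance : Mul (Cub A t q) := ⟨fun x y =>
  ⟨x.c0 * y.c0 + q * (x.c1 * y.c2 + x.c2 * y.c1),
   x.c0 * y.c1 + x.c1 * y.c0 + t * (x.c1 * y.c2 + x.c2 * y.c1) + q * (x.c2 * y.c2),
   x.c0 * y.c2 + x.c1 * y.c1 + x.c2 * y.c0 + t * (x.c2 * y.c2)⟩⟩

@[simp] lemma zero_c0 : (0 : Cub A t q).c0 = 0 := rfl
@[simp] lemma zero_c1 : (0 : Cub A t q).c1 = 0 := rfl
@[simp] lemma zero_c2 : (0 : Cub A t q).c2 = 0 := rfl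
@[simp] lemma one_c0 : (1 : Cub A t q).c0 = 1 := rfl
@[simp] lemma one_c1 : (1 : Cub A t q).c1 = 0 := rfl
@[simp] lemma one_c2 : (1 : Cub A t q).c2 = 0 := rfl
@[simp] lemma add_c0 (x y : Cub A t q) : (x + y).c0 = x.c0 + y.c0 := rfl
@[simp] lemma add_c1 (x y : Cub A t q) : (x + y).c1 = x.c1 + y.c1 := rfl
@[simp] lemma add_c2 (x y : Cub A t q) : (x + y).c2 = x.c2 + y.c2 := rfl
@[simp] lemma neg_c0 (x : Cub A t q) : (-x).c0 = -x.c0 := rfl
@[simp] lemma neg_c1 (x : Cub A t q) : (-x).c1 = -x.c1 := rfl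
@[simp] lemma neg_c2 (x : Cub A t q) : (-x).c2 = -x.c2 := rfl
@[simp] lemma sub_c0 (x y : Cub A t q) : (x - y).c0 = x.c0 - y.c0 := rfl
@[simp] lemma sub_c1 (x y : Cub A t q) : (x - y).c1 = x.c1 - y.c1 := rfl
@[simp] lemma sub_c2 (x y : Cub A t q) : (x - y).c2 = x.c2 - y.c2 := rfl
@[simp] lemma mul_c0 (x y : Cub A t q) :
    (x * y).c0 = x.c0 * y.c0 + q * (x.c1 * y.c2 + x.c2 * y.c1) := rfl
@[simp] lemma mul_c1 (x y : Cub A t q) :
    (x * y).c1 = x.c0 * y.c1 + x.c1 * y.c0 + t * (x.c1 * y.c2 + x.c2 * y.c1) +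
      q * (x.c2 * y.c2) := rfl
@[simp] lemma mul_c2 (x y : Cub A t q) :
    (x * y).c2 = x.c0 * y.c2 + x.c1 * y.c1 + x.c2 * y.c0 + t * (x.c2 * y.c2) := rfl

instance : SMul ℕ (Cub A t q) := ⟨fun n x => ⟨n • x.c0, n • x.c1, n • x.c2⟩⟩
instance : SMul ℤ (Cub A t q) := ⟨fun n x => ⟨n • x.c0, n • x.c1, n • x.c2⟩⟩
@[simp] lemma nsmul_c0 (n : ℕ) (x : Cub A t q) : (n • x).c0 = n • x.c0 := rfl
@[simp] lemma nsmul_c1 (n : ℕ) (x : Cub A t q) : (n • x).c1 = n • x.c1 := rfl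
@[simp] lemma nsmul_c2 (n : ℕ) (x : Cub A t q) : (n • x).c2 = n • x.c2 := rfl
@[simp] lemma zsmul_c0 (n : ℤ) (x : Cub A t q) : (n • x).c0 = n • x.c0 := rfl
@[simp] lemma zsmul_c1 (n : ℤ) (x : Cub A t q) : (n • x).c1 = n • x.c1 := rfl
@[simp] lemma zsmul_c2 (n : ℤ) (x : Cub A t q) : (n • x).c2 = n • x.c2 := rfl

instance : AddCommGroup (Cub A t q) where
  add_assoc x y z := by ext <;> simp [add_assoc]
  zero_add x := by ext <;> simp
  add_zero x := by ext <;> simp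
  add_comm x y := by ext <;> simp [add_comm]
  neg_add_cancel x := by ext <;> simp
  sub_eq_add_neg x y := by ext <;> simp [sub_eq_add_neg]
  nsmul n x := n • x
  nsmul_zero x := by ext <;> simp
  nsmul_succ n x := by ext <;> simp [add_mul]
  zsmul n x := n • x
  zsmul_zero' x := by ext <;> simp
  zsmul_succ' n x := by ext <;> simp [add_mul]
  zsmul_neg' n x := by ext <;> simp [Int.negSucc_eq, add_mul]

instance : CommRing (Cub A t q) :=
  { (inferInstance : AddCommGroup (Cub A t q)) with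
    mul_assoc := fun x y z => by ext <;> simp <;> ring
    one_mul := fun x => by ext <;> simp
    mul_one := fun x => by ext <;> simp
    mul_comm := fun x y => by ext <;> simp <;> ring
    left_distrib := fun x y z => by ext <;> simp <;> ring
    right_distrib := fun x y z => by ext <;> simp <;> ring
    zero_mul := fun x => by ext <;> simp
    mul_zero := fun x => by ext <;> simp }

/-- the structure map -/
@[simps] def of (t q : A) : A →+* Cub A t q where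
  toFun a := ⟨a, 0, 0⟩
  map_zero' := rfl
  map_one' := rfl
  map_add' a b := by ext <;> simp
  map_mul' a b := by ext <;> simp

/-- the generator `y` -/
def y (t q : A) : Cub A t q := ⟨0, 1, 0⟩

/-- the universal property -/
def lift {B : Type*} [CommRing B] (φ : A →+* B) (ρ : B) (h : ρ ^ 3 = φ t * ρ + φ q) :
    Cub A t q →+* B where
  toFun z := φ z.c0 + φ z.c1 * ρ + φ z.c2 * ρ ^ 2
  map_zero' := by simp
  map_one' := by simp
  map_add' a b := by simp; ring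
  map_mul' a b := by
    simp only [mul_c0, mul_c1, mul_c2, map_add, map_mul]
    linear_combination (-(φ a.c1 * φ b.c2 + φ a.c2 * φ b.c1) - φ a.c2 * φ b.c2 * ρ) * h

lemma lift_apply {B : Type*} [CommRing B] (φ : A →+* B) (ρ : B) (h : ρ ^ 3 = φ t * ρ + φ q)
    (z : Cub A t q) : lift φ ρ h z = φ z.c0 + φ z.c1 * ρ + φ z.c2 * ρ ^ 2 := rfl

/-- functoriality -/
def map {B : Type*} [CommRing B] (φ : A →+* B) : Cub A t q →+* Cub B (φ t) (φ q) where
  toFun z := ⟨φ z.c0, φ z.c1, φ z.c2⟩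
  map_zero' := by ext <;> simp
  map_one' := by ext <;> simp
  map_add' a b := by ext <;> simp
  map_mul' a b := by ext <;> simp

lemma map_injective {B : Type*} [CommRing B] (φ : A →+* B) (hφ : Function.Injective φ) :
    Function.Injective (map φ : Cub A t q →+* Cub B (φ t) (φ q)) := by
  intro a b h
  have h0 := congrArg Cub.c0 h
  have h1 := congrArg Cub.c1 h
  have h2 := congrArg Cub.c2 h
  ext
  · exact hφ h0
  · exact hφ h1
  · exact hφ h2

lemma eq_of_y (z : Cub A t q) : z = of t q z.c0 + of t q z.c1 * y t q + of t q z.c2 * y t q ^ 2 := by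
  ext <;> simp [y, pow_two]

lemma y_cube : y t q ^ 3 = of t q t * y t q + of t q q := by
  rw [pow_succ, pow_two]
  ext <;> simp [y]

end Cub

end Pool.Agent.Lib_helper39.FAN
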