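import Mathlib

/-!
# Čech local cohomology with its Frobenius action, and (F-)anti-nilpotency

For a commutative ring `R`, a finite linearly ordered index type `ι` and a family `f : ι → R`, the
Čech complex of `R` on `f` is
`0 → R → ∏_j R_{f_j} → ∏_{j<k} R_{f_j f_k} → ⋯ → R_{f_1 ⋯ f_n} → 0`.
We write it as one graded object: a cochain is a family `(c_S)` indexed by the finite subsets `S` of
`ι`, with `c_S` in the localization `R_{f_S}` of `R` at `f_S = ∏_{j ∈ S} f_j`; the component `c_S` has
degree `#S`. If `R` is Noetherian, the cohomology in degree `i` is the local cohomology module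
`H^i_I(R)` with support in any ideal `I` with the same radical as `(f_j)_j`.
-/

namespace Pool.Agent.Lib_helper39.FAN

open Finset

set_option linter.unusedSectionVars false

section Cech

variable {R : Type*} [CommRing R] {ι : Type*} [LinearOrder ι]

/-- `R_{f_S}`: the localization of `R` at (the powers of) `f_S = ∏_{j ∈ S} f_j`. -/
abbrev Loc (f : ι → R) (S : Finset ι) : Type _ :=
  Localization.Away (∏ j ∈ S, f j)

lemma isUnit_algebraMap_Loc (f : ι → R) {S T : Finset ι} (h : S ⊆ T) :
    IsUnit (algebraMap R (Loc f T) (∏ j ∈ S, f j)) := by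
  have h1 : IsUnit (algebraMap R (Loc f T) (∏ j ∈ T, f j)) :=
    IsLocalization.Away.algebraMap_isUnit _
  exact isUnit_of_dvd_unit (map_dvd _ (Finset.prod_dvd_prod_of_subset S T f h)) h1

/-- The canonical map `R_{f_S} → R_{f_T}` for `S ⊆ T`. -/
noncomputable def res (f : ι → R) {S T : Finset ι} (h : S ⊆ T) : Loc f S →ₐ[R] Loc f T :=
  IsLocalization.Away.liftAlgHom (∏ j ∈ S, f j) (f := Algebra.ofId R (Loc f T))
    (isUnit_algebraMap_Loc f h)

/-- Čech cochains on `f`, all degrees together: families `(c_S)_S` with `c_S ∈ R_{f_S}`. -/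
abbrev Cochain (f : ι → R) : Type _ := (S : Finset ι) → Loc f S

/-- The Čech differential `(d c)_T = ∑_{j ∈ T} (-1)^{#{k ∈ T : k < j}} c_{T \ {j}}|_{R_{f_T}}`. -/
noncomputable def d (f : ι → R) : Cochain f →ₗ[R] Cochain f where
  toFun c T := ∑ j ∈ T, (-1 : R) ^ #{k ∈ T | k < j} • res f (T.erase_subset j) (c (T.erase j))
  map_add' a b := by
    funext T
    simp only [Pi.add_apply, map_add, smul_add, Finset.sum_add_distrib]
  map_smul' r a := by
    funext T
    simp only [Pi.smul_apply, map_smul, RingHom.id_apply, Finset.smul_sum]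
    exact Finset.sum_congr rfl fun j _ => smul_comm _ _ _

/-- The cochains of degree `i`: those whose components `c_S` vanish unless `#S = i`. -/
def deg (f : ι → R) (i : ℕ) : Submodule R (Cochain f) where
  carrier := {c | ∀ S : Finset ι, #S ≠ i → c S = 0}
  add_mem' {a b} ha hb S hS := by rw [Pi.add_apply, ha S hS, hb S hS, add_zero]
  zero_mem' S _ := rfl
  smul_mem' r a ha S hS := by rw [Pi.smul_apply, ha S hS, smul_zero]

/-- The Čech cocycles of degree `i`. -/
noncomputable def cocycles (f : ι → R) (i : ℕ) : Submodule R (Cochain f) :=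
  deg f i ⊓ LinearMap.ker (d f)

/-- The Čech coboundaries of degree `i`: the cochains of degree `i` of the form `d e`. As `d` raises
degrees by one, `e` can be taken of degree `i - 1` (lemma `coboundaries_succ`), and `0` is the only
coboundary of degree `0` (lemma `coboundaries_zero`). -/
noncomputable def coboundaries (f : ι → R) (i : ℕ) : Submodule R (Cochain f) :=
  deg f i ⊓ LinearMap.range (d f)

/-- The `i`-th Čech cohomology module of `R` on the family `f`. -/
abbrev cohomology (f : ι → R) (i : ℕ) : Type _ :=
  ↥(cocycles f i) ⧸ (coboundaries f i).submoduleOf (cocycles f i)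

variable (p : ℕ) [Fact p.Prime] [CharP R p]

lemma add_pow_p {A : Type*} [CommRing A] [Algebra R A] (a b : A) :
    (a + b) ^ p = a ^ p + b ^ p := by
  rcases subsingleton_or_nontrivial A with h | h
  · exact Subsingleton.elim _ _
  · have hp0 : (p : A) = 0 := by
      rw [← map_natCast (algebraMap R A) p, CharP.cast_eq_zero, map_zero]
    have : CharP A p := (CharP.charP_iff_prime_eq_zero Fact.out).2 hp0
    exact add_pow_char a b p

/-- The Frobenius action on Čech cochains: the `p`-th power map of each ring `R_{f_S}`. -/
noncomputable def frobCochain (f : ι → R) : Cochain f →ₛₗ[frobenius R p] Cochain f where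
  toFun c S := c S ^ p
  map_add' a b := by
    funext S
    exact add_pow_p (R := R) p (a S) (b S)
  map_smul' r a := by
    funext S
    simp only [Pi.smul_apply, Algebra.smul_def, mul_pow, frobenius_def, map_pow]

lemma frobCochain_apply (f : ι → R) (c : Cochain f) (S : Finset ι) :
    frobCochain p f c S = c S ^ p := rfl

lemma d_frobCochain (f : ι → R) (c : Cochain f) :
    d f (frobCochain p f c) = frobCochain p f (d f c) := by
  funext T
  simp only [d, LinearMap.coe_mk, AddHom.coe_mk, frobCochain_apply, map_pow]
  let φ : Loc f T →+ Loc f T :=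
    { toFun := fun x => x ^ p
      map_zero' := zero_pow (Fact.out : p.Prime).ne_zero
      map_add' := fun a b => add_pow_p (R := R) p a b }
  change _ = φ _
  rw [map_sum]
  refine Finset.sum_congr rfl fun j _ => ?_
  have h : ((-1 : R) ^ #{k ∈ T | k < j}) ^ p = (-1 : R) ^ #{k ∈ T | k < j} := by
    rw [← frobenius_def, map_pow, map_neg, map_one]
  change _ = (((-1 : R) ^ #{k ∈ T | k < j}) • res f (T.erase_subset j) (c (T.erase j))) ^ p
  rw [Algebra.smul_def, Algebra.smul_def, mul_pow, ← map_pow (algebraMap R (Loc f T)), h]

lemma frobCochain_mem_deg (f : ι → R) (i : ℕ) {c : Cochain f} (hc : c ∈ deg f i) :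
    frobCochain p f c ∈ deg f i := fun S hS => by
  rw [frobCochain_apply, hc S hS, zero_pow (Fact.out : p.Prime).ne_zero]

lemma frobCochain_mem_cocycles (f : ι → R) (i : ℕ) {c : Cochain f} (hc : c ∈ cocycles f i) :
    frobCochain p f c ∈ cocycles f i := by
  refine ⟨frobCochain_mem_deg p f i hc.1, ?_⟩
  show d f (frobCochain p f c) = 0
  rw [d_frobCochain, show d f c = 0 from hc.2, map_zero]

lemma frobCochain_mem_coboundaries (f : ι → R) (i : ℕ) {c : Cochain f}
    (hc : c ∈ coboundaries f i) : frobCochain p f c ∈ coboundaries f i := by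
  obtain ⟨h1, e, rfl⟩ := hc
  exact ⟨frobCochain_mem_deg p f i h1, frobCochain p f e, d_frobCochain p f e⟩

/-- The Frobenius action on Čech cocycles. -/
noncomputable def frobCocycles (f : ι → R) (i : ℕ) :
    ↥(cocycles f i) →ₛₗ[frobenius R p] ↥(cocycles f i) where
  toFun c := ⟨frobCochain p f c.1, frobCochain_mem_cocycles p f i c.2⟩
  map_add' a b := Subtype.ext (map_add (frobCochain p f) a.1 b.1)
  map_smul' r a := Subtype.ext (map_smulₛₗ (frobCochain p f) r a.1)

/-- The natural Frobenius action on the Čech cohomology module `H^i(f; R)`. -/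
noncomputable def frobCohomology (f : ι → R) (i : ℕ) :
    cohomology f i →ₛₗ[frobenius R p] cohomology f i :=
  Submodule.mapQ _ _ (frobCocycles p f i) fun c hc =>
    frobCochain_mem_coboundaries p f i (c := c.1) hc

/-- A Frobenius action `F` on an `R`-module `M` (an additive map with `F (r • x) = r ^ p • F x`) is
anti-nilpotent when for every `F`-stable submodule `N` of `M` the map induced by `F` on `M ⧸ N` is
injective. -/
def IsAntiNilpotent {M : Type*} [AddCommGroup M] [Module R M]
    (F : M →ₛₗ[frobenius R p] M) : Prop :=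
  ∀ (N : Submodule R M) (hN : N ≤ N.comap F), Function.Injective (N.mapQ N F hN)

end Cech

/-- A local ring `R` of prime characteristic `p` is `F`-anti-nilpotent when the local cohomology
modules `H^i_𝔪(R)`, with their natural Frobenius actions, are all anti-nilpotent. Local cohomology is
computed by the Čech complex on a finite family `f` with `√(f) = 𝔪`; it does not depend on `f` (for
anti-nilpotency this is proved in `isFAntiNilpotent_iff`), and we ask for all such families. -/
def IsFAntiNilpotent (p : ℕ) [Fact p.Prime] (R : Type*) [CommRing R] [IsLocalRing R]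
    [CharP R p] : Prop :=
  ∀ (n : ℕ) (f : Fin n → R),
    (Ideal.span (Set.range f)).radical = IsLocalRing.maximalIdeal R →
      ∀ i : ℕ, IsAntiNilpotent p (frobCohomology p f i)

end Pool.Agent.Lib_helper39.FAN
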