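import Pool.Agent.Lib_helper39.FAN.Indep

namespace Pool.Agent.Lib_helper39.FAN

open Finset

set_option linter.unusedSectionVars false

variable {R : Type*} [CommRing R] {ι κ : Type*} [LinearOrder ι] [LinearOrder κ]
  (p : ℕ) [Fact p.Prime] [CharP R p]

/-- Localizations at equal elements are isomorphic. -/
noncomputable def locEquiv (f : ι → R) (g : κ → R) {S : Finset ι} {T : Finset κ}
    (h : ∏ j ∈ S, f j = ∏ j ∈ T, g j) : Loc f S ≃ₐ[R] Loc g T :=
  AlgEquiv.ofAlgHom
    (IsLocalization.Away.liftAlgHom (∏ j ∈ S, f j) (f := Algebra.ofId R (Loc g T))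
      (by
        have : IsUnit (algebraMap R (Loc g T) (∏ j ∈ S, f j)) := by
          rw [h]; exact isUnit_algebraMap_Loc g (le_refl T)
        exact this))
    (IsLocalization.Away.liftAlgHom (∏ j ∈ T, g j) (f := Algebra.ofId R (Loc f S))
      (by
        have : IsUnit (algebraMap R (Loc f S) (∏ j ∈ T, g j)) := by
          rw [← h]; exact isUnit_algebraMap_Loc f (le_refl S)
        exact this))
    (algHom_loc_ext _ _) (algHom_loc_ext _ _)

/-- Restriction of cochains along an order embedding of index types. -/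
noncomputable def pull (f : ι → R) (φ : κ ↪o ι) : Cochain f →ₗ[R] Cochain (f ∘ φ) where
  toFun c S := locEquiv f (f ∘ φ) (by rw [Finset.prod_map]; rfl) (c (S.map φ.toEmbedding))
  map_add' a b := by
    funext S
    simp only [Pi.add_apply, map_add]
  map_smul' r a := by
    funext S
    simp only [Pi.smul_apply, map_smul, RingHom.id_apply]

lemma pull_apply (f : ι → R) (φ : κ ↪o ι) (c : Cochain f) (S : Finset κ) :
    pull f φ c S = locEquiv f (f ∘ φ) (by rw [Finset.prod_map]; rfl) (c (S.map φ.toEmbedding)) := rfl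

lemma locEquiv_res (f : ι → R) (g : κ → R) {S S' : Finset ι} {T T' : Finset κ}
    (h : ∏ j ∈ S, f j = ∏ j ∈ T, g j) (h' : ∏ j ∈ S', f j = ∏ j ∈ T', g j)
    (hS : S ⊆ S') (hT : T ⊆ T') (x : Loc f S) :
    locEquiv f g h' (res f hS x) = res g hT (locEquiv f g h x) := by
  have := algHom_loc_ext ((locEquiv f g h').toAlgHom.comp (res f hS))
    ((res g hT).comp (locEquiv f g h).toAlgHom)
  exact DFunLike.congr_fun this x

lemma sgn_map (φ : κ ↪o ι) (j : κ) (S : Finset κ) :
    sgn R (φ j) (S.map φ.toEmbedding) = sgn R j S := by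
  unfold sgn
  congr 1
  rw [Finset.filter_map, Finset.card_map]
  congr 1
  ext k
  simp

lemma pull_d (f : ι → R) (φ : κ ↪o ι) (c : Cochain f) :
    pull f φ (d f c) = d (f ∘ φ) (pull f φ c) := by
  funext S
  rw [pull_apply, d_apply, d_apply, Finset.sum_map, map_sum]
  refine Finset.sum_congr rfl fun j hj => ?_
  have h1 : (S.map φ.toEmbedding).erase (φ.toEmbedding j) = (S.erase j).map φ.toEmbedding := by
    rw [Finset.map_erase]
  rw [map_smul, pull_apply]
  congr 1
  · exact sgn_map φ j S
  · rw [res_congr f c h1 _ (h1 ▸ erase_subset (φ.toEmbedding j) _),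
      locEquiv_res f (f ∘ φ) (S := (S.erase j).map φ.toEmbedding) (T := S.erase j)
      (by rw [Finset.prod_map]; rfl) _ _ (erase_subset j S)]

lemma pull_frob (f : ι → R) (φ : κ ↪o ι) (c : Cochain f) :
    pull f φ (frobCochain p f c) = frobCochain p (f ∘ φ) (pull f φ c) := by
  funext S
  rw [pull_apply, frobCochain_apply, frobCochain_apply, map_pow, pull_apply]

lemma pull_surjective (f : ι → R) (φ : κ ↪o ι) : Function.Surjective (pull f φ) := by
  classical
  intro c'
  have h : ∀ T : Finset ι, ∃ x : Loc f T, ∀ S : Finset κ, ∀ hS : T = S.map φ.toEmbedding,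
      locEquiv f (f ∘ φ) (by rw [hS, Finset.prod_map]; rfl) x = c' S := by
    intro T
    by_cases hT : ∃ S : Finset κ, T = S.map φ.toEmbedding
    · obtain ⟨S, rfl⟩ := hT
      refine ⟨(locEquiv f (f ∘ φ) (by rw [Finset.prod_map]; rfl)).symm (c' S), ?_⟩
      intro S' hS'
      have := Finset.map_injective _ hS'
      subst this
      exact AlgEquiv.apply_symm_apply _ _
    · exact ⟨0, fun S hS => absurd ⟨S, hS⟩ hT⟩
  choose x hx using h
  exact ⟨x, funext fun S => hx _ S rfl⟩

lemma pull_eq_zero_iff [Fintype κ] (f : ι → R) (φ : κ ↪o ι) (c : Cochain f) :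
    pull f φ c = 0 ↔ ∀ S ⊆ univ.map φ.toEmbedding, c S = 0 := by
  classical
  constructor
  · intro h S hS
    obtain ⟨S', rfl⟩ : ∃ S' : Finset κ, S = S'.map φ.toEmbedding := by
      obtain ⟨S', -, h'⟩ := Finset.subset_map_iff.1 hS
      exact ⟨S', h'⟩
    have := congrFun h S'
    rw [pull_apply, Pi.zero_apply] at this
    exact (map_eq_zero_iff _ (AlgEquiv.injective _)).1 this
  · intro h
    funext S
    rw [pull_apply, h _ (Finset.map_subset_map.2 (subset_univ S)), map_zero, Pi.zero_apply]

lemma pull_mem_deg (f : ι → R) (φ : κ ↪o ι) {i : ℕ} {c : Cochain f} (hc : c ∈ deg f i) :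
    pull f φ c ∈ deg (f ∘ φ) i := by
  intro S hS
  rw [pull_apply, hc _ (by rwa [Finset.card_map]), map_zero]

theorem AN_embed [Fintype κ] (f : ι → R) (φ : κ ↪o ι) (i : ℕ) :
    AN p (frobCochain p f) (ZOn f (univ.map φ.toEmbedding) i) (BOn f (univ.map φ.toEmbedding) i) ↔
      AN p (frobCochain p (f ∘ φ)) (cocycles (f ∘ φ) i) (coboundaries (f ∘ φ) i) := by
  refine AN_iff_of_map p _ _ (pull f φ) (pull_frob p f φ) (BOn_le_ZOn f _ i)
    (coboundaries_le_cocycles _ i) (frob_ZOn p f _ i)
    (fun x hx => frobCochain_mem_coboundaries p _ i hx) ?_ ?_ ?_ ?_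
  · rintro z ⟨h1, h2⟩
    refine ⟨pull_mem_deg f φ h1, ?_⟩
    show d _ (pull f φ z) = 0
    rw [← pull_d]
    exact (pull_eq_zero_iff f φ _).2 h2
  · rintro z' ⟨h1, h2⟩
    obtain ⟨z, rfl⟩ := pull_surjective f φ z'
    have h3 : pull f φ (proj f i z) = pull f φ z := by
      funext S
      rw [pull_apply, pull_apply]
      by_cases hS : #S = i
      · simp only [proj, card_map, if_pos hS]
      · have h4 := h1 S hS
        rw [pull_apply] at h4
        simp only [proj, card_map, if_neg hS, h4, map_zero]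
    have h2' : d (f ∘ φ) (pull f φ z) = 0 := h2
    refine ⟨proj f i z, ⟨proj_mem_deg f i z, ?_⟩, ?_⟩
    · have : pull f φ (d f (proj f i z)) = 0 := by rw [pull_d, h3, h2']
      exact (pull_eq_zero_iff f φ _).1 this
    · rw [h3, sub_self]
      exact (coboundaries _ i).zero_mem
  · rintro z ⟨h1, h2⟩ ⟨-, e', he'⟩
    obtain ⟨e, rfl⟩ := pull_surjective f φ e'
    refine ⟨h1, e, fun S hS => ?_⟩
    have h5 : pull f φ (z - d f e) = 0 := by rw [map_sub, pull_d, he', sub_self]
    have h6 := (pull_eq_zero_iff f φ _).1 h5 S hS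
    rwa [Pi.sub_apply, sub_eq_zero] at h6
  · rintro b ⟨h1, e, he⟩
    refine ⟨pull_mem_deg f φ h1, pull f φ e, ?_⟩
    rw [← pull_d]
    have h5 : pull f φ (b - d f e) = 0 := (pull_eq_zero_iff f φ _).2 fun S hS => by
      rw [Pi.sub_apply, he S hS, sub_self]
    rw [map_sub, sub_eq_zero] at h5
    exact h5.symm

theorem AN_congr_of_le {n m : ℕ} (F : Fin (n + m) → R)
    (h : ∀ k, F (Fin.natAdd n k) ∈ (Ideal.span (Set.range (F ∘ Fin.castAdd m))).radical) (i : ℕ) :
    AN p (frobCochain p F) (cocycles F i) (coboundaries F i) ↔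
      AN p (frobCochain p (F ∘ Fin.castAdd m)) (cocycles (F ∘ Fin.castAdd m) i)
        (coboundaries (F ∘ Fin.castAdd m) i) := by
  let φ : Fin n ↪o Fin (n + m) := Fin.castAddOrderEmb m
  rw [← ZOn_univ, ← BOn_univ, AN_of_subset p F (subset_univ (univ.map φ.toEmbedding)) ?_ i]
  · exact AN_embed p F φ i
  · have h0 : F '' ((univ.map φ.toEmbedding : Finset (Fin (n + m))) : Set (Fin (n + m))) =
        Set.range (F ∘ Fin.castAdd m) := by
      rw [Finset.coe_map, Finset.coe_univ, Set.image_univ, ← Set.range_comp]; rfl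
    rw [h0]
    intro k _
    refine Fin.addCases (fun j => ?_) (fun j => h j) k
    exact Ideal.le_radical (Ideal.subset_span ⟨j, rfl⟩)

theorem AN_congr_of_le' {n m : ℕ} (F : Fin (n + m) → R)
    (h : ∀ k, F (Fin.castAdd m k) ∈ (Ideal.span (Set.range (F ∘ Fin.natAdd n))).radical) (i : ℕ) :
    AN p (frobCochain p F) (cocycles F i) (coboundaries F i) ↔
      AN p (frobCochain p (F ∘ Fin.natAdd n)) (cocycles (F ∘ Fin.natAdd n) i)
        (coboundaries (F ∘ Fin.natAdd n) i) := by
  let φ : Fin m ↪o Fin (n + m) := Fin.natAddOrderEmb n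
  rw [← ZOn_univ, ← BOn_univ, AN_of_subset p F (subset_univ (univ.map φ.toEmbedding)) ?_ i]
  · exact AN_embed p F φ i
  · have h0 : F '' ((univ.map φ.toEmbedding : Finset (Fin (n + m))) : Set (Fin (n + m))) =
        Set.range (F ∘ Fin.natAdd n) := by
      rw [Finset.coe_map, Finset.coe_univ, Set.image_univ, ← Set.range_comp]; rfl
    rw [h0]
    intro k _
    refine Fin.addCases (fun j => h j) (fun j => ?_) k
    exact Ideal.le_radical (Ideal.subset_span ⟨j, rfl⟩)

/-- Anti-nilpotency of Čech cohomology only depends on the radical of the ideal generated. -/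
theorem isAntiNilpotent_congr {n m : ℕ} (f : Fin n → R) (g : Fin m → R)
    (h : (Ideal.span (Set.range f)).radical = (Ideal.span (Set.range g)).radical) (i : ℕ) :
    IsAntiNilpotent p (frobCohomology p f i) ↔ IsAntiNilpotent p (frobCohomology p g i) := by
  rw [isAntiNilpotent_frobCohomology_iff, isAntiNilpotent_frobCohomology_iff]
  have hf : (Fin.append f g) ∘ Fin.castAdd m = f := by
    funext k; simp
  have hg : (Fin.append f g) ∘ Fin.natAdd n = g := by
    funext k; simp
  have h1 := AN_congr_of_le p (Fin.append f g) (n := n) (m := m) (fun k => by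
    rw [hf, h]
    simp only [Fin.append_right]
    exact Ideal.le_radical (Ideal.subset_span ⟨k, rfl⟩)) i
  have h2 := AN_congr_of_le' p (Fin.append f g) (n := n) (m := m) (fun k => by
    rw [hg, ← h]
    simp only [Fin.append_left]
    exact Ideal.le_radical (Ideal.subset_span ⟨k, rfl⟩)) i
  rw [hf] at h1
  rw [hg] at h2
  exact h1.symm.trans h2

/-- `F`-anti-nilpotency may be tested on one family generating the maximal ideal up to radical. -/
theorem isFAntiNilpotent_iff (A : Type*) [CommRing A] [IsLocalRing A] [CharP A p] {n : ℕ}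
    (f : Fin n → A) (hf : (Ideal.span (Set.range f)).radical = IsLocalRing.maximalIdeal A) :
    IsFAntiNilpotent p A ↔ ∀ i, IsAntiNilpotent p (frobCohomology p f i) := by
  constructor
  · intro h i
    exact h n f hf i
  · intro h m g hg i
    exact (isAntiNilpotent_congr p f g (hf.trans hg.symm) i).1 (h i)

end Pool.Agent.Lib_helper39.FAN
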