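import Pool.Agent.Lib_helper39.FAN.Main

namespace Pool.Agent.Lib_helper39.FAN

open Finset

noncomputable section

lemma frobenius_isIntegral (A : Type*) [CommRing A] [CharP A 2] [Fact (Nat.Prime 2)] :
    (frobenius A 2).IsIntegral := by
  rcases subsingleton_or_nontrivial A with h | h
  · intro x
    exact ⟨1, Polynomial.monic_one, Subsingleton.elim _ _⟩
  intro x
  refine ⟨Polynomial.X ^ 2 - Polynomial.C x, Polynomial.monic_X_pow_sub_C x (by norm_num), ?_⟩
  rw [Polynomial.eval₂_sub, Polynomial.eval₂_X_pow, Polynomial.eval₂_C, frobenius_def, sub_self]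

/-- the five generators -/
def gens : Fin 5 → RR := ![ff 0, ff 1, ff 2, hy, hyy]

variable (B : Type*) [CommRing B] [Algebra RR B] [CharP B 2]

/-- the presentation of `R` over the squares -/
def pres : MvPolynomial (Fin 5) B →+* B :=
  MvPolynomial.eval₂Hom (frobenius B 2) (fun i => algebraMap RR B (gens i))

lemma gens_mem (i : Fin 5) : algebraMap RR B (gens i) ∈ (pres B).range :=
  ⟨MvPolynomial.X i, by unfold pres; rw [MvPolynomial.coe_eval₂Hom, MvPolynomial.eval₂_X]⟩

lemma frob_mem (z : B) : frobenius B 2 z ∈ (pres B).range :=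
  ⟨MvPolynomial.C z, by unfold pres; rw [MvPolynomial.coe_eval₂Hom, MvPolynomial.eval₂_C]⟩

lemma inc_mem (a : TT) : algebraMap RR B (inc a) ∈ (pres B).range := by
  induction a using MvPolynomial.induction_on with
  | C c =>
    have h : ∀ c : ZMod 2, algebraMap RR B (inc (MvPolynomial.C c)) =
        frobenius B 2 (algebraMap RR B (inc (MvPolynomial.C c))) := by
      intro c
      rw [← RingHom.map_frobenius, ← RingHom.map_frobenius, ← RingHom.map_frobenius,
        ZMod.frobenius_zmod, RingHom.id_apply]
    rw [h]
    exact frob_mem _ _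
  | add a b ha hb => rw [map_add, map_add]; exact (pres B).range.add_mem ha hb
  | mul_X a i ha =>
    rw [map_mul, map_mul, inc_X]
    refine (pres B).range.mul_mem ha ?_
    fin_cases i
    · exact gens_mem B 0
    · exact gens_mem B 1
    · exact gens_mem B 2

lemma RR_mem (z : RR) : algebraMap RR B z ∈ (pres B).range := by
  obtain ⟨a, b, c, rfl⟩ := eq_combination z
  rw [map_add, map_add, map_mul, map_mul]
  exact (pres B).range.add_mem ((pres B).range.add_mem (inc_mem B a)
    ((pres B).range.mul_mem (inc_mem B b) (gens_mem B 3)))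
    ((pres B).range.mul_mem (inc_mem B c) (gens_mem B 4))

lemma pres_surjective (U : Submonoid RR) [IsLocalization U B] : Function.Surjective (pres B) := by
  intro z
  obtain ⟨a, u, rfl⟩ := IsLocalization.exists_mk'_eq U z
  have h : IsLocalization.mk' B a u =
      frobenius B 2 (IsLocalization.mk' B 1 u) * algebraMap RR B (a * u) := by
    rw [IsLocalization.mk'_eq_mul_mk'_one a u, frobenius_def, map_mul]
    have h1 : IsLocalization.mk' B 1 u * algebraMap RR B (u : RR) = 1 := by
      rw [IsLocalization.mk'_spec, map_one]
    linear_combination (-(algebraMap RR B a * IsLocalization.mk' B 1 u)) * h1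
  have h2 : IsLocalization.mk' B a u ∈ (pres B).range := by
    rw [h]
    exact (pres B).range.mul_mem (frob_mem B _) (RR_mem B _)
  exact h2

/-- Localizations of `R` are `F`-finite. -/
theorem FFinite_of_isLocalization (U : Submonoid RR) [IsLocalization U B] :
    (frobenius B 2).Finite := by
  refine RingHom.IsIntegral.to_finite (frobenius_isIntegral B) ?_
  have h1 : (MvPolynomial.C : B →+* MvPolynomial (Fin 5) B).FiniteType := by
    have h2 : Algebra.FiniteType B (MvPolynomial (Fin 5) B) := inferInstance
    have h5 : (algebraMap B (MvPolynomial (Fin 5) B)).FiniteType :=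
      (RingHom.finiteType_algebraMap).2 h2
    exact h5
  have h3 := h1.comp_surjective (pres_surjective B U)
  have h4 : (pres B).comp MvPolynomial.C = frobenius B 2 := by
    ext z
    unfold pres
    simp
  rwa [h4] at h3

theorem R0_FFinite : (frobenius R0 2).Finite := FFinite_of_isLocalization R0 nn.primeCompl

end

end Pool.Agent.Lib_helper39.FAN
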