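import Pool.Agent.Lib_helper39.FAN.Pub
import Pool.Agent.Lib_helper39.FAN.Embed

namespace Pool.Agent.Lib_helper39.FAN

open Finset

theorem AN_mapQ {R : Type*} [CommRing R] (p : ℕ) [Fact p.Prime] [CharP R p] {M : Type*}
    [AddCommGroup M] [Module R M] (F : M →ₛₗ[frobenius R p] M) (Z B : Submodule R M) (hBZ : B ≤ Z)
    (FZ : ↥Z →ₛₗ[frobenius R p] ↥Z) (hFZ : ∀ z, (FZ z : M) = F z)
    (h : B.submoduleOf Z ≤ (B.submoduleOf Z).comap FZ) :
    IsAntiNilpotent p (Submodule.mapQ (B.submoduleOf Z) (B.submoduleOf Z) FZ h) ↔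
      AN p F Z B := by
  rw [isAntiNilpotent_iff]
  constructor
  · intro hh N hBN hNZ hF x hx hFx
    let N' : Submodule R (↥Z ⧸ B.submoduleOf Z) :=
      (N.submoduleOf Z).map (B.submoduleOf Z).mkQ
    have h1 : ∀ y ∈ N', Submodule.mapQ (B.submoduleOf Z) (B.submoduleOf Z) FZ h y ∈ N' := by
      rintro _ ⟨n, hn, rfl⟩
      refine ⟨FZ n, ?_, rfl⟩
      show (FZ n : M) ∈ N
      rw [hFZ]
      exact hF _ hn
    have h2 : Submodule.mapQ (B.submoduleOf Z) (B.submoduleOf Z) FZ h
        ((B.submoduleOf Z).mkQ ⟨x, hx⟩) ∈ N' := by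
      refine ⟨FZ ⟨x, hx⟩, ?_, rfl⟩
      show (FZ ⟨x, hx⟩ : M) ∈ N
      rw [hFZ]
      exact hFx
    obtain ⟨n, hn, hn'⟩ := hh N' h1 _ h2
    rw [Submodule.mkQ_apply, Submodule.mkQ_apply, Submodule.Quotient.eq] at hn'
    have h3 : n.1 - x ∈ B := hn'
    have h4 : x = n.1 - (n.1 - x) := by abel
    rw [h4]
    exact N.sub_mem hn (hBN h3)
  · intro hh N' hF' y hy
    obtain ⟨x, rfl⟩ := Submodule.mkQ_surjective _ y
    let N : Submodule R M := (N'.comap (B.submoduleOf Z).mkQ).map Z.subtype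
    have h1 : x.1 ∈ N := by
      refine hh N ?_ ?_ ?_ x.1 x.2 ?_
      · intro b hb
        refine ⟨⟨b, hBZ hb⟩, ?_, rfl⟩
        show (B.submoduleOf Z).mkQ _ ∈ N'
        have : (B.submoduleOf Z).mkQ ⟨b, hBZ hb⟩ = 0 := by
          rw [Submodule.mkQ_apply, Submodule.Quotient.mk_eq_zero]; exact hb
        rw [this]; exact N'.zero_mem
      · rintro _ ⟨n, -, rfl⟩
        exact n.2
      · rintro _ ⟨n, hn, rfl⟩
        exact ⟨FZ n, hF' _ hn, hFZ n⟩
      · exact ⟨FZ x, hy, hFZ x⟩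
    obtain ⟨n, hn, hn'⟩ := h1
    have h2 : n = x := Subtype.ext hn'
    subst h2
    exact hn

variable {R : Type*} [CommRing R] {n : ℕ}

/-- the identity map between the two versions of cochains -/
noncomputable def toInt (f : Fin n → R) : Pub.Cochain f →ₗ[R] Cochain f where
  toFun c := c
  map_add' _ _ := rfl
  map_smul' _ _ := rfl

lemma res_eq (f : Fin n → R) {S T : Finset (Fin n)} (h : S ⊆ T) (x : Pub.Loc f S) :
    Pub.res f h x = res f h x := rfl

lemma toInt_d (f : Fin n → R) (c : Pub.Cochain f) : toInt f (Pub.d f c) = d f (toInt f c) := by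
  funext T
  rw [d_apply]
  show Pub.dFun f c T = _
  unfold Pub.dFun
  refine Finset.sum_congr rfl fun j _ => ?_
  rw [Algebra.smul_def]
  unfold sgn
  rw [map_pow, map_neg, map_one]
  rfl

lemma toInt_mem_deg (f : Fin n → R) (i : ℕ) (c : Pub.Cochain f) :
    toInt f c ∈ deg f i ↔ c ∈ Pub.deg f i := Iff.rfl

lemma toInt_mem_cocycles (f : Fin n → R) (i : ℕ) (c : Pub.Cochain f) :
    toInt f c ∈ cocycles f i ↔ c ∈ Pub.cocycles f i := by
  refine and_congr (toInt_mem_deg f i c) ?_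
  show d f (toInt f c) = 0 ↔ Pub.d f c = 0
  rw [← toInt_d]
  exact Iff.rfl

lemma toInt_mem_coboundaries (f : Fin n → R) (i : ℕ) (c : Pub.Cochain f) :
    toInt f c ∈ coboundaries f i ↔ c ∈ Pub.coboundaries f i := by
  refine and_congr (toInt_mem_deg f i c) ?_
  constructor
  · rintro ⟨e, he⟩
    exact ⟨e, (toInt_d f e).trans he⟩
  · rintro ⟨e, rfl⟩
    exact ⟨e, (toInt_d f e).symm⟩

variable (p : ℕ) [Fact p.Prime] [CharP R p]

theorem AN_pub_iff (f : Fin n → R) (i : ℕ) :
    AN p (Pub.frobCochain p f) (Pub.cocycles f i) (Pub.coboundaries f i) ↔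
      AN p (frobCochain p f) (cocycles f i) (coboundaries f i) := by
  have hB : Pub.coboundaries f i ≤ Pub.cocycles f i := by
    intro c hc
    rw [← toInt_mem_cocycles]
    exact coboundaries_le_cocycles f i ((toInt_mem_coboundaries f i c).2 hc)
  refine AN_iff_of_map p _ _ (toInt f) (fun _ => rfl) hB (coboundaries_le_cocycles f i) ?_ ?_
    (fun z hz => (toInt_mem_cocycles f i z).2 hz) ?_
    (fun z _ hz => (toInt_mem_coboundaries f i z).1 hz)
    (fun z hz => (toInt_mem_coboundaries f i z).2 hz)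
  · intro x hx
    rw [← toInt_mem_cocycles] at hx ⊢
    exact frobCochain_mem_cocycles p f i hx
  · intro x hx
    exact frobCochain_mem_coboundaries p f i hx
  · intro z hz
    refine ⟨z, (toInt_mem_cocycles f i z).1 hz, ?_⟩
    have : toInt f z - z = 0 := sub_self (z : Cochain f)
    rw [this]
    exact Submodule.zero_mem _

theorem isAntiNilpotent_pub_iff (f : Fin n → R) (i : ℕ) :
    Pub.IsAntiNilpotent p (Pub.frobCohomology p f i) ↔
      IsAntiNilpotent p (frobCohomology p f i) := by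
  rw [isAntiNilpotent_frobCohomology_iff, ← AN_pub_iff]
  have hB : Pub.coboundaries f i ≤ Pub.cocycles f i := by
    intro c hc
    rw [← toInt_mem_cocycles]
    exact coboundaries_le_cocycles f i ((toInt_mem_coboundaries f i c).2 hc)
  exact AN_mapQ p (Pub.frobCochain p f) (Pub.cocycles f i) (Pub.coboundaries f i) hB
    (Pub.frobCocycles p f i) (fun _ => rfl) (Pub.frob_coboundaries p f i)

theorem isFAntiNilpotent_pub_iff (A : Type*) [CommRing A] [IsLocalRing A] [CharP A p] :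
    Pub.IsFAntiNilpotent p A ↔ IsFAntiNilpotent p A := by
  refine forall_congr' fun n => forall_congr' fun f => forall_congr' fun _ =>
    forall_congr' fun i => isAntiNilpotent_pub_iff p f i

end Pool.Agent.Lib_helper39.FAN
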