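import Pool.Agent.Lib_helper39.FAN.FFin
import Pool.Agent.Lib_helper39.FAN.PubIff

namespace Pool.Agent.Lib_helper39.FAN

theorem final :
    ∃ (R : Type) (_ : CommRing R) (_ : IsLocalRing R) (_ : IsNoetherianRing R) (_ : CharP R 2),
      (frobenius R 2).Finite ∧ Pub.IsFAntiNilpotent 2 R ∧
      ∃ (P : Ideal R) (_ : P.IsPrime) (_ : CharP (Localization.AtPrime P) 2),
        ¬ Pub.IsFAntiNilpotent 2 (Localization.AtPrime P) :=
  ⟨R0, inferInstance, inferInstance, inferInstance, inferInstance, R0_FFinite,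
    (isFAntiNilpotent_pub_iff 2 R0).2 R0_FAN, P0, inferInstance, inferInstance,
    fun h => R1_not_FAN ((isFAntiNilpotent_pub_iff 2 R1).1 h)⟩

end Pool.Agent.Lib_helper39.FAN
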