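import Pool.Agent.Lib_helper39.FAN.Acyclic

namespace Pool.Agent.Lib_helper39.FAN

open Finset

set_option linter.unusedSectionVars false

section AN

variable {R : Type*} [CommRing R] (p : ℕ) [Fact p.Prime] [CharP R p]

/-- Anti-nilpotency of the subquotient `Z / B`, expressed with submodules between `B` and `Z`. -/
def AN {M : Type*} [AddCommGroup M] [Module R M] (F : M →ₛₗ[frobenius R p] M)
    (Z B : Submodule R M) : Prop :=
  ∀ N : Submodule R M, B ≤ N → N ≤ Z → (∀ x ∈ N, F x ∈ N) → ∀ x ∈ Z, F x ∈ N → x ∈ N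

lemma isAntiNilpotent_iff {M : Type*} [AddCommGroup M] [Module R M]
    (F : M →ₛₗ[frobenius R p] M) :
    IsAntiNilpotent p F ↔ ∀ N : Submodule R M, (∀ x ∈ N, F x ∈ N) → ∀ x, F x ∈ N → x ∈ N := by
  constructor
  · intro h N hN x hx
    have h1 := h N hN
    have h2 : N.mapQ N F hN (N.mkQ x) = N.mapQ N F hN 0 := by
      rw [map_zero, Submodule.mkQ_apply, Submodule.mapQ_apply, Submodule.Quotient.mk_eq_zero]
      exact hx
    have h3 := h1 h2
    rwa [Submodule.mkQ_apply, Submodule.Quotient.mk_eq_zero] at h3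
  · intro h N hN
    rw [injective_iff_map_eq_zero]
    intro y hy
    obtain ⟨x, rfl⟩ := N.mkQ_surjective y
    rw [Submodule.mkQ_apply, Submodule.mapQ_apply, Submodule.Quotient.mk_eq_zero] at hy
    rw [Submodule.mkQ_apply, Submodule.Quotient.mk_eq_zero]
    exact h N hN x hy

/-- Transfer of anti-nilpotency along a map inducing an isomorphism of subquotients. -/
theorem AN_iff_of_map {M M' : Type*} [AddCommGroup M] [Module R M] [AddCommGroup M'] [Module R M']
    (F : M →ₛₗ[frobenius R p] M) (F' : M' →ₛₗ[frobenius R p] M') {Z B : Submodule R M}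
    {Z' B' : Submodule R M'} (g : M →ₗ[R] M') (hg : ∀ x, g (F x) = F' (g x))
    (hB : B ≤ Z) (hB' : B' ≤ Z') (hFZ : ∀ x ∈ Z, F x ∈ Z)
    (hFB' : ∀ x ∈ B', F' x ∈ B')
    (h1 : ∀ z ∈ Z, g z ∈ Z') (h2 : ∀ z' ∈ Z', ∃ z ∈ Z, g z - z' ∈ B')
    (h3 : ∀ z ∈ Z, g z ∈ B' → z ∈ B) (h4 : ∀ b ∈ B, g b ∈ B') :
    AN p F Z B ↔ AN p F' Z' B' := by
  constructor
  · intro h N' hBN' hNZ' hF' x' hx' hFx'
    obtain ⟨x, hx, hxx'⟩ := h2 x' hx'
    have h5 : F x ∈ Z ⊓ N'.comap g := by
      refine ⟨hFZ x hx, ?_⟩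
      show g (F x) ∈ N'
      have h6 : g (F x) = F' x' + F' (g x - x') := by
        rw [hg, ← map_add]; congr 1; abel
      rw [h6]
      exact N'.add_mem hFx' (hBN' (hFB' _ hxx'))
    have h7 := h (Z ⊓ N'.comap g) (fun b hb => ⟨hB hb, hBN' (h4 b hb)⟩) inf_le_left
      (fun y hy => ⟨hFZ y hy.1, by
        show g (F y) ∈ N'
        rw [hg]; exact hF' _ hy.2⟩) x hx h5
    have h8 : x' = g x - (g x - x') := by abel
    rw [h8]
    exact N'.sub_mem h7.2 (hBN' hxx')
  · intro h N hBN hNZ hF x hx hFx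
    have h5 := h (N.map g ⊔ B') le_sup_right
      (sup_le (by rintro _ ⟨n, hn, rfl⟩; exact h1 n (hNZ hn)) hB')
      (by
        intro y hy
        obtain ⟨_, ⟨n, hn, rfl⟩, b, hb, rfl⟩ := Submodule.mem_sup.1 hy
        rw [map_add, ← hg]
        exact Submodule.add_mem_sup (Submodule.mem_map_of_mem (hF n hn)) (hFB' b hb))
      (g x) (h1 x hx) (by
        rw [← hg]
        exact Submodule.mem_sup_left (Submodule.mem_map_of_mem hFx))
    obtain ⟨_, ⟨n, hn, rfl⟩, b, hb, hb'⟩ := Submodule.mem_sup.1 h5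
    have h6 : g (x - n) = b := by rw [map_sub, ← hb']; abel
    have h7 : x - n ∈ B := h3 _ (Z.sub_mem hx (hNZ hn)) (h6 ▸ hb)
    have h8 : x = (x - n) + n := by abel
    rw [h8]
    exact N.add_mem (hBN h7) hn

end AN

section Cech

variable {R : Type*} [CommRing R] {ι : Type*} [LinearOrder ι] (p : ℕ) [Fact p.Prime] [CharP R p]

lemma coboundaries_le_cocycles (f : ι → R) (i : ℕ) : coboundaries f i ≤ cocycles f i := by
  rintro c ⟨h1, e, rfl⟩
  exact ⟨h1, d_d f e⟩

lemma isAntiNilpotent_frobCohomology_iff (f : ι → R) (i : ℕ) :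
    IsAntiNilpotent p (frobCohomology p f i) ↔
      AN p (frobCochain p f) (cocycles f i) (coboundaries f i) := by
  rw [isAntiNilpotent_iff]
  constructor
  · intro h N hBN hNZ hF x hx hFx
    let N' : Submodule R (cohomology f i) :=
      (N.submoduleOf (cocycles f i)).map ((coboundaries f i).submoduleOf (cocycles f i)).mkQ
    have h1 : ∀ y ∈ N', frobCohomology p f i y ∈ N' := by
      rintro _ ⟨n, hn, rfl⟩
      exact ⟨frobCocycles p f i n, hF _ hn, rfl⟩
    have h2 : frobCohomology p f i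
        (((coboundaries f i).submoduleOf (cocycles f i)).mkQ ⟨x, hx⟩) ∈ N' :=
      ⟨⟨frobCochain p f x, frobCochain_mem_cocycles p f i hx⟩, hFx, rfl⟩
    obtain ⟨n, hn, hn'⟩ := h N' h1 _ h2
    rw [Submodule.mkQ_apply, Submodule.mkQ_apply, Submodule.Quotient.eq] at hn'
    have h3 : n.1 - x ∈ coboundaries f i := hn'
    have h4 : x = n.1 - (n.1 - x) := by abel
    rw [h4]
    exact N.sub_mem hn (hBN h3)
  · intro h N' hF' y hy
    obtain ⟨x, rfl⟩ := Submodule.mkQ_surjective _ y
    let N : Submodule R (Cochain f) :=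
      (N'.comap ((coboundaries f i).submoduleOf (cocycles f i)).mkQ).map (cocycles f i).subtype
    have h1 : x.1 ∈ N := by
      refine h N ?_ ?_ ?_ x.1 x.2 ?_
      · intro b hb
        refine ⟨⟨b, coboundaries_le_cocycles f i hb⟩, ?_, rfl⟩
        show ((coboundaries f i).submoduleOf (cocycles f i)).mkQ _ ∈ N'
        have : ((coboundaries f i).submoduleOf (cocycles f i)).mkQ
            ⟨b, coboundaries_le_cocycles f i hb⟩ = 0 := by
          rw [Submodule.mkQ_apply, Submodule.Quotient.mk_eq_zero]; exact hb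
        rw [this]; exact N'.zero_mem
      · rintro _ ⟨n, -, rfl⟩
        exact n.2
      · rintro _ ⟨n, hn, rfl⟩
        exact ⟨frobCocycles p f i n, hF' _ hn, rfl⟩
      · exact ⟨frobCocycles p f i x, hy, rfl⟩
    obtain ⟨n, hn, hn'⟩ := h1
    have h2 : n = x := Subtype.ext hn'
    subst h2
    exact hn

/-- Projection to degree `i`. -/
noncomputable def proj (f : ι → R) (i : ℕ) (c : Cochain f) : Cochain f :=
  fun S => if #S = i then c S else 0

lemma proj_mem_deg (f : ι → R) (i : ℕ) (c : Cochain f) : proj f i c ∈ deg f i := by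
  intro S hS
  simp only [proj, if_neg hS]

lemma d_proj (f : ι → R) (i : ℕ) (c : Cochain f) :
    d f (proj f i c) = proj f (i + 1) (d f c) := by
  funext T
  rw [d_apply]
  by_cases hT : #T = i + 1
  · simp only [proj, if_pos hT, d_apply]
    refine Finset.sum_congr rfl fun j hj => ?_
    rw [if_pos]
    rw [card_erase_of_mem hj, hT]; rfl
  · simp only [proj, if_neg hT]
    refine Finset.sum_eq_zero fun j hj => ?_
    rw [if_neg, map_zero, smul_zero]
    intro h
    apply hT
    rw [← h, card_erase_add_one hj]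

/-- The coboundaries of degree `i + 1` are the images of the cochains of degree `i`. -/
lemma coboundaries_succ (f : ι → R) (i : ℕ) : coboundaries f (i + 1) = (deg f i).map (d f) := by
  ext c
  constructor
  · rintro ⟨h, e, rfl⟩
    refine ⟨proj f i e, proj_mem_deg f i e, ?_⟩
    rw [d_proj]
    funext S
    by_cases hS : #S = i + 1
    · simp only [proj, if_pos hS]
    · simp only [proj, if_neg hS]
      exact (h S hS).symm
  · rintro ⟨e, he, rfl⟩
    refine ⟨fun S hS => ?_, e, rfl⟩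
    rw [d_apply]
    refine Finset.sum_eq_zero fun j hj => ?_
    rw [he (S.erase j), map_zero, smul_zero]
    intro h
    apply hS
    rw [← h, card_erase_add_one hj]

/-- There are no nonzero coboundaries of degree `0`. -/
lemma coboundaries_zero (f : ι → R) : coboundaries f 0 = ⊥ := by
  rw [eq_bot_iff]
  rintro c ⟨h, e, rfl⟩
  rw [Submodule.mem_bot]
  funext S
  by_cases hS : #S = 0
  · rw [Finset.card_eq_zero] at hS
    subst hS
    rw [d_apply, Finset.sum_empty]
    rfl
  · exact h S hS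

/-- cocycles of the subfamily on `U` -/
def ZOn (f : ι → R) (U : Finset ι) (i : ℕ) : Submodule R (Cochain f) where
  carrier := {c | c ∈ deg f i ∧ ClosedOn f U c}
  add_mem' := by
    rintro a b ⟨ha, ha'⟩ ⟨hb, hb'⟩
    exact ⟨(deg f i).add_mem ha hb, fun S hS => by
      rw [map_add, Pi.add_apply, ha' S hS, hb' S hS, add_zero]⟩
  zero_mem' := ⟨(deg f i).zero_mem, fun S _ => by rw [map_zero, Pi.zero_apply]⟩
  smul_mem' := by
    rintro r a ⟨ha, ha'⟩
    exact ⟨(deg f i).smul_mem r ha, fun S hS => by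
      rw [map_smul, Pi.smul_apply, ha' S hS, smul_zero]⟩

/-- coboundaries of the subfamily on `U` -/
def BOn (f : ι → R) (U : Finset ι) (i : ℕ) : Submodule R (Cochain f) where
  carrier := {c | c ∈ deg f i ∧ ExactOn f U c}
  add_mem' := by
    rintro a b ⟨ha, e, he⟩ ⟨hb, g, hg⟩
    exact ⟨(deg f i).add_mem ha hb, e + g, fun S hS => by
      rw [map_add, Pi.add_apply, Pi.add_apply, he S hS, hg S hS]⟩
  zero_mem' := ⟨(deg f i).zero_mem, 0, fun S _ => by rw [map_zero]⟩
  smul_mem' := by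
    rintro r a ⟨ha, e, he⟩
    exact ⟨(deg f i).smul_mem r ha, r • e, fun S hS => by
      rw [map_smul, Pi.smul_apply, Pi.smul_apply, he S hS]⟩

lemma ZOn_univ [Fintype ι] (f : ι → R) (i : ℕ) : ZOn f univ i = cocycles f i := by
  ext c
  constructor
  · rintro ⟨h1, h2⟩
    exact ⟨h1, funext fun S => h2 S (subset_univ S)⟩
  · rintro ⟨h1, h2⟩
    exact ⟨h1, fun S _ => congrFun h2 S⟩

lemma BOn_univ [Fintype ι] (f : ι → R) (i : ℕ) : BOn f univ i = coboundaries f i := by
  ext c
  constructor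
  · rintro ⟨h1, e, h2⟩
    exact ⟨h1, e, (funext fun S => h2 S (subset_univ S)).symm⟩
  · rintro ⟨h1, e, h2⟩
    exact ⟨h1, e, fun S _ => (congrFun h2 S).symm⟩

lemma BOn_le_ZOn (f : ι → R) (U : Finset ι) (i : ℕ) : BOn f U i ≤ ZOn f U i := by
  rintro c ⟨h1, e, he⟩
  refine ⟨h1, fun S hS => ?_⟩
  rw [d_congr f he S hS, d_d, Pi.zero_apply]

lemma frob_ZOn (f : ι → R) (U : Finset ι) (i : ℕ) : ∀ x ∈ ZOn f U i, frobCochain p f x ∈ ZOn f U i := by
  rintro x ⟨h1, h2⟩
  refine ⟨frobCochain_mem_deg p f i h1, fun S hS => ?_⟩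
  rw [d_frobCochain, frobCochain_apply, h2 S hS, zero_pow (Fact.out : p.Prime).ne_zero]

lemma frob_BOn (f : ι → R) (U : Finset ι) (i : ℕ) : ∀ x ∈ BOn f U i, frobCochain p f x ∈ BOn f U i := by
  rintro x ⟨h1, e, h2⟩
  refine ⟨frobCochain_mem_deg p f i h1, frobCochain p f e, fun S hS => ?_⟩
  rw [d_frobCochain, frobCochain_apply, frobCochain_apply, h2 S hS]

theorem AN_step [Finite ι] (f : ι → R) {U V : Finset ι} {h : ι} (hU : U ⊆ V)
    (hV : ∀ S ⊆ V, h ∉ S → S ⊆ U) (hrad : f h ∈ (Ideal.span (f '' (U : Set ι))).radical) (i : ℕ) :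
    AN p (frobCochain p f) (ZOn f V i) (BOn f V i) ↔
      AN p (frobCochain p f) (ZOn f U i) (BOn f U i) := by
  refine AN_iff_of_map p _ _ LinearMap.id (fun _ => rfl) (BOn_le_ZOn f V i) (BOn_le_ZOn f U i)
    (frob_ZOn p f V i) (frob_BOn p f U i) ?_ ?_ ?_ ?_
  · rintro z ⟨h1, h2⟩
    exact ⟨h1, fun S hS => h2 S (hS.trans hU)⟩
  · rintro z ⟨h1, h2⟩
    obtain ⟨c, hc, hc'⟩ := closed_step f hU hV hrad h2
    refine ⟨proj f i c, ⟨proj_mem_deg f i c, fun S hS => ?_⟩, ?_, 0, fun S hS => ?_⟩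
    · rw [d_proj]
      simp only [proj, hc S hS, ite_self]
    · exact (deg f i).sub_mem (proj_mem_deg f i c) h1
    · rw [map_zero, Pi.zero_apply, LinearMap.id_apply, Pi.sub_apply, sub_eq_zero]
      by_cases hS' : #S = i
      · simp only [proj, if_pos hS', hc' S hS]
      · simp only [proj, if_neg hS', h1 S hS']
  · rintro z ⟨h1, h2⟩ ⟨_, h3⟩
    exact ⟨h1, exact_step f hU hV hrad h2 h3⟩
  · rintro z ⟨h1, e, he⟩
    exact ⟨h1, e, fun S hS => he S (hS.trans hU)⟩

theorem AN_of_subset [Finite ι] (f : ι → R) {U V : Finset ι} (hU : U ⊆ V)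
    (hrad : ∀ h ∈ V, f h ∈ (Ideal.span (f '' (U : Set ι))).radical) (i : ℕ) :
    AN p (frobCochain p f) (ZOn f V i) (BOn f V i) ↔
      AN p (frobCochain p f) (ZOn f U i) (BOn f U i) := by
  classical
  have key : ∀ W : Finset ι, (∀ h ∈ W, f h ∈ (Ideal.span (f '' (U : Set ι))).radical) →
      (AN p (frobCochain p f) (ZOn f (W ∪ U) i) (BOn f (W ∪ U) i) ↔
      AN p (frobCochain p f) (ZOn f U i) (BOn f U i)) := by
    intro W
    induction W using Finset.induction_on with
    | empty => intro _; rw [empty_union]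
    | insert h W hh ih =>
      intro hW
      rw [← ih (fun k hk => hW k (mem_insert_of_mem hk))]
      refine AN_step p f (h := h) (union_subset_union_left (subset_insert h W)) ?_ ?_ i
      · intro S hS hhS k hk
        have := hS hk
        rw [insert_union, mem_insert] at this
        exact this.resolve_left (fun h' => hhS (h' ▸ hk))
      · refine Ideal.radical_mono (Ideal.span_mono (Set.image_mono ?_)) (hW h (mem_insert_self h W))
        exact Finset.coe_subset.2 subset_union_right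
  have := key V hrad
  rwa [union_eq_left.2 hU] at this

end Cech

end Pool.Agent.Lib_helper39.FAN
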