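import Pool.Agent.Lib_helper39.FAN.Ring

namespace Pool.Agent.Lib_helper39.FAN

open Finset

noncomputable section

/-- Anti-nilpotency of the Čech cohomology over a localization. -/
theorem isAntiNilpotent_localization {A : Type*} [CommRing A] (p : ℕ) [Fact p.Prime] [CharP A p]
    (U : Submonoid A) (B : Type*) [CommRing B] [Algebra A B] [IsLocalization U B] [CharP B p]
    {n : ℕ} (f : Fin n → A) (i : ℕ) :
    IsAntiNilpotent p (frobCohomology p (algebraMap A B ∘ f) i) ↔
      ANU p U (frobCochain p f) (cocycles f i) (coboundaries f i) := by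
  rw [isAntiNilpotent_frobCohomology_iff]
  exact AN_localization U p f i

/-- the local ring `R` -/
abbrev R0 := Localization.AtPrime nn

instance : CharP R0 2 := charP_two R0

instance : IsNoetherianRing R0 :=
  IsLocalization.isNoetherianRing nn.primeCompl R0 inferInstance

theorem R0_FAN : IsFAntiNilpotent 2 R0 := by
  rw [isFAntiNilpotent_iff 2 R0 (algebraMap RR R0 ∘ ff)
    (radical_eq nn R0 ff ff_mem (fun z hz => nn_sq hz))]
  intro i
  rw [isAntiNilpotent_localization 2 nn.primeCompl R0 ff i]
  exact ANU_RR _ i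

/-- the prime ideal `P` of the local ring -/
def P0 : Ideal R0 := PP.map (algebraMap RR R0)

lemma disjoint_PP : Disjoint (nn.primeCompl : Set RR) (PP : Set RR) := by
  rw [Set.disjoint_left]
  intro x hx hxP
  exact hx (PP_le_nn hxP)

instance : P0.IsPrime :=
  IsLocalization.isPrime_of_isPrime_disjoint nn.primeCompl R0 PP inferInstance disjoint_PP

lemma comap_P0 : P0.comap (algebraMap RR R0) = PP :=
  IsLocalization.under_map_of_isPrime_disjoint nn.primeCompl R0 (I := PP) inferInstance disjoint_PP

/-- the localization `R_P` -/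
abbrev R1 := Localization.AtPrime P0

instance : IsLocalization.AtPrime R1 PP := by
  have h := IsLocalization.isLocalization_isLocalization_atPrime_isLocalization
    nn.primeCompl (S := R0) R1 P0
  have h2 : ∀ (I J : Ideal RR) [I.IsPrime] [J.IsPrime], I = J → IsLocalization.AtPrime R1 I →
      IsLocalization.AtPrime R1 J := by
    intro I J _ _ hIJ hI
    subst hIJ
    exact hI
  exact h2 _ _ comap_P0 h

instance : CharP R1 2 := charP_two R1

theorem R1_not_AN {n : ℕ} (g : Fin n → R1)
    (hg : (Ideal.span (Set.range g)).radical = IsLocalRing.maximalIdeal R1) :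
    ¬ IsAntiNilpotent 2 (frobCohomology 2 g 2) := by
  have h1 := radical_eq PP R1 sh sh_mem (fun z hz => PP_sq hz)
  rw [isAntiNilpotent_congr 2 g (algebraMap RR R1 ∘ sh) (hg.trans h1.symm) 2,
    isAntiNilpotent_localization 2 PP.primeCompl R1 sh 2]
  exact not_ANU _ (fun u hu h => hu h)

theorem R1_not_FAN : ¬ IsFAntiNilpotent 2 R1 := by
  intro h
  exact R1_not_AN _ (radical_eq PP R1 sh sh_mem (fun z hz => PP_sq hz))
    (h 2 _ (radical_eq PP R1 sh sh_mem (fun z hz => PP_sq hz)) 2)

end

end Pool.Agent.Lib_helper39.FAN
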