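import Pool.Agent.Lib_helper39.FAN.Over
import Pool.Agent.Lib_helper39.FAN.Cub

namespace Pool.Agent.Lib_helper39.FAN

open Finset

/-- exponents of Laurent monomials in `s, t, h` -/
abbrev GG := Fin 3 → ℤ

/-- Laurent polynomials over `𝔽₂` in `s, t, h` (indices `0, 1, 2`) -/
abbrev LL := AddMonoidAlgebra (ZMod 2) GG

/-- polynomials over `𝔽₂` in `s, t, h` -/
abbrev TT := MvPolynomial (Fin 3) (ZMod 2)

noncomputable section

/-- Laurent monomials -/
def mon (e : GG) : LL := AddMonoidAlgebra.single e 1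

lemma coeff_mon_mul (e g : GG) (x : LL) : (mon e * x).coeff g = x.coeff (g - e) := by
  unfold mon
  rw [AddMonoidAlgebra.coeff_single_mul_eq_mul_coeff (m₂ := g - e), one_mul]
  intro a _
  constructor
  · intro h; rw [← h]; abel
  · intro h; rw [h]; abel

lemma mon_mul_mon (e e' : GG) : mon e * mon e' = mon (e + e') := by
  unfold mon
  rw [AddMonoidAlgebra.single_mul_single, one_mul]

lemma mon_zero : mon 0 = 1 := rfl

/-- exponent vector of a variable -/
def ex (i : Fin 3) : GG := Pi.single i 1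

/-- inclusion of exponents -/
def emb : (Fin 3 →₀ ℕ) →+ GG where
  toFun e i := (e i : ℤ)
  map_zero' := by funext i; simp
  map_add' a b := by funext i; simp

lemma emb_injective : Function.Injective emb := by
  intro a b h
  ext i
  have := congrFun h i
  simpa [emb] using this

/-- polynomials as Laurent polynomials -/
def iT : TT →+* LL := AddMonoidAlgebra.mapDomainRingHom (ZMod 2) emb

lemma iT_injective : Function.Injective iT :=
  AddMonoidAlgebra.mapDomain_injective emb_injective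

lemma iT_X (i : Fin 3) : iT (MvPolynomial.X i) = mon (ex i) := by
  unfold iT MvPolynomial.X mon ex
  rw [← MvPolynomial.single_eq_monomial]
  rw [AddMonoidAlgebra.mapDomainRingHom_apply, AddMonoidAlgebra.mapDomain_single]
  congr 1
  funext j
  by_cases h : j = i
  · subst h; simp [emb]
  · simp [emb, h]

lemma mem_range_iT_iff (x : LL) : (∃ a, iT a = x) ↔ ∀ e, x.coeff e ≠ 0 → ∀ k, 0 ≤ e k := by
  constructor
  · rintro ⟨a, rfl⟩ e he k
    have h1 : e ∈ Set.range emb := by
      by_contra hne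
      apply he
      show (Finsupp.mapDomain emb (AddMonoidAlgebra.coeff a)) e = 0
      exact Finsupp.mapDomain_of_notMem_range _ _ hne
    obtain ⟨d, rfl⟩ := h1
    exact Int.natCast_nonneg _
  · intro h
    refine ⟨AddMonoidAlgebra.comapDomain emb emb_injective x, ?_⟩
    show AddMonoidAlgebra.mapDomain emb _ = x
    apply AddMonoidAlgebra.mapDomain_comapDomain
    intro e he
    rw [Finset.mem_coe, Finsupp.mem_support_iff] at he
    have h2 := h e he
    refine ⟨Finsupp.equivFunOnFinite.symm (fun k => (e k).toNat), ?_⟩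
    funext k
    simp [emb, h2 k]


/-- `S = 𝔽₂[s,t,h][y]/(y³ - t y - (h + s²)) = 𝔽₂[s,t,y]` -/
abbrev SS := Cub TT (MvPolynomial.X 1) (MvPolynomial.X 2 + MvPolynomial.X 0 ^ 2)

/-- the Laurent version of `S` -/
abbrev QQ := Cub LL (iT (MvPolynomial.X 1)) (iT (MvPolynomial.X 2 + MvPolynomial.X 0 ^ 2))

/-- `R = A + h S`, `A = 𝔽₂[s,t]`: the elements of `S` whose `y` and `y²` coordinates are divisible
by `h`. -/
def RR : Subring SS where
  carrier := {z | MvPolynomial.X 2 ∣ z.c1 ∧ MvPolynomial.X 2 ∣ z.c2}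
  mul_mem' := by
    rintro a b ⟨⟨a1, ha1⟩, ⟨a2, ha2⟩⟩ ⟨⟨b1, hb1⟩, ⟨b2, hb2⟩⟩
    constructor
    · simp only [Cub.mul_c1]
      rw [ha1, ha2, hb1, hb2]
      exact ⟨a.c0 * b1 + a1 * b.c0 + MvPolynomial.X 1 * (a1 * (MvPolynomial.X 2 * b2) +
        a2 * (MvPolynomial.X 2 * b1)) + (MvPolynomial.X 2 + MvPolynomial.X 0 ^ 2) *
        (a2 * (MvPolynomial.X 2 * b2)), by ring⟩
    · simp only [Cub.mul_c2]
      rw [ha1, ha2, hb1, hb2]
      exact ⟨a.c0 * b2 + a1 * (MvPolynomial.X 2 * b1) + a2 * b.c0 + MvPolynomial.X 1 *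
        (a2 * (MvPolynomial.X 2 * b2)), by ring⟩
  one_mem' := by simp
  add_mem' := by
    rintro a b ⟨ha1, ha2⟩ ⟨hb1, hb2⟩
    exact ⟨dvd_add ha1 hb1, dvd_add ha2 hb2⟩
  zero_mem' := by simp
  neg_mem' := by
    rintro a ⟨ha1, ha2⟩
    exact ⟨(dvd_neg).2 ha1, (dvd_neg).2 ha2⟩

/-- the map `R → Q` -/
def jj : RR →+* QQ := (Cub.map iT).comp RR.subtype

lemma jj_injective : Function.Injective jj := by
  intro a b h
  exact Subtype.ext (Cub.map_injective iT iT_injective h)

instance : Algebra RR QQ := jj.toAlgebra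

lemma algebraMap_eq_jj : algebraMap RR QQ = jj := rfl

/-- coordinates of an element of `Q` -/
def crd (z : QQ) : Fin 3 → LL := ![z.c0, z.c1, z.c2]

/-- Laurent coefficients of an element of `Q` -/
def cf (z : QQ) (i : Fin 3) (e : GG) : ZMod 2 := (crd z i).coeff e

lemma cf_ext {z w : QQ} (h : ∀ i e, cf z i e = cf w i e) : z = w := by
  have h' : ∀ i, crd z i = crd w i := by
    intro i
    ext e
    exact h i e
  ext1
  · exact h' 0
  · exact h' 1
  · exact h' 2

lemma cf_add (z w : QQ) (i : Fin 3) (e : GG) : cf (z + w) i e = cf z i e + cf w i e := by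
  fin_cases i <;> simp [cf, crd]

lemma cf_zero (i : Fin 3) (e : GG) : cf 0 i e = 0 := by
  fin_cases i <;> simp [cf, crd]

/-- monomials `X^e y^i` in `Q` -/
def MM (i : Fin 3) (e : GG) : QQ :=
  ⟨if i = 0 then mon e else 0, if i = 1 then mon e else 0, if i = 2 then mon e else 0⟩

lemma coeff_mon (e g : GG) : (mon e).coeff g = if e = g then 1 else 0 := by
  unfold mon
  simp [Finsupp.single_apply]

lemma cf_MM (i : Fin 3) (e : GG) (j : Fin 3) (g : GG) :
    cf (MM i e) j g = if i = j ∧ e = g then 1 else 0 := by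
  fin_cases i <;> fin_cases j <;> simp [cf, crd, MM, coeff_mon]

/-- multiplication by a Laurent monomial in `s,t,h` -/
lemma cf_MM0_mul (e : GG) (z : QQ) (i : Fin 3) (g : GG) :
    cf (MM 0 e * z) i g = cf z i (g - e) := by
  fin_cases i <;> simp [cf, crd, MM, coeff_mon_mul]

lemma MM0_mul_MM (e : GG) (i : Fin 3) (g : GG) : MM 0 e * MM i g = MM i (e + g) := by
  fin_cases i <;> (ext1 <;> simp [MM, mon_mul_mon])

lemma MM_zero : MM 0 0 = 1 := by
  ext1 <;> simp [MM, mon_zero]

end

end Pool.Agent.Lib_helper39.FAN
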