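import Pool.Agent.Lib_helper39.FAN.Model

namespace Pool.Agent.Lib_helper39.FAN

open Finset

noncomputable section

/-- thresholds -/
def kap (i k : Fin 3) : ℤ := if i ≠ 0 ∧ k = 2 then 1 else 0

lemma mem_range_jj_iff (z : QQ) :
    (∃ r : RR, jj r = z) ↔ ∀ i e, cf z i e ≠ 0 → ∀ k, kap i k ≤ e k := by
  constructor
  · rintro ⟨⟨r, ⟨a1, h1⟩, ⟨a2, h2⟩⟩, rfl⟩ i e he k
    have key : ∀ a : TT, (iT (MvPolynomial.X 2 * a)).coeff e ≠ 0 →
        (if k = 2 then (1 : ℤ) else 0) ≤ e k := by
      intro a ha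
      rw [map_mul, iT_X, coeff_mon_mul] at ha
      have := (mem_range_iT_iff (iT a)).1 ⟨a, rfl⟩ _ ha k
      rw [Pi.sub_apply] at this
      by_cases hk : k = 2
      · subst hk
        simp only [ex, Pi.single_eq_same] at this
        simp only [if_true]
        omega
      · simp only [ex, Pi.single_eq_of_ne hk] at this
        simp only [if_neg hk]
        omega
    fin_cases i
    · have := (mem_range_iT_iff (iT r.c0)).1 ⟨_, rfl⟩ e he k
      simpa [kap] using this
    · have he' : (iT r.c1).coeff e ≠ 0 := he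
      rw [h1] at he'
      have := key a1 he'
      simpa [kap] using this
    · have he' : (iT r.c2).coeff e ≠ 0 := he
      rw [h2] at he'
      have := key a2 he'
      simpa [kap] using this
  · intro h
    obtain ⟨a0, h0⟩ := (mem_range_iT_iff z.c0).2 (fun e he k => by
      have := h 0 e he k
      simpa [kap] using this)
    have key : ∀ x : LL, (∀ e, x.coeff e ≠ 0 → ∀ k, (if k = 2 then (1 : ℤ) else 0) ≤ e k) →
        ∃ a : TT, iT (MvPolynomial.X 2 * a) = x := by
      intro x hx
      obtain ⟨a, ha⟩ := (mem_range_iT_iff (mon (-ex 2) * x)).2 (fun e he k => by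
        rw [coeff_mon_mul] at he
        have := hx _ he k
        rw [Pi.sub_apply, Pi.neg_apply] at this
        by_cases hk : k = 2
        · subst hk
          simp only [ex, Pi.single_eq_same, if_true] at this
          omega
        · simp only [ex, Pi.single_eq_of_ne hk, if_neg hk] at this
          omega)
      refine ⟨a, ?_⟩
      rw [map_mul, ha, iT_X, ← mul_assoc, mon_mul_mon, add_neg_cancel, mon_zero, one_mul]
    obtain ⟨a1, h1⟩ := key z.c1 (fun e he k => by
      have := h 1 e he k
      simpa [kap] using this)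
    obtain ⟨a2, h2⟩ := key z.c2 (fun e he k => by
      have := h 2 e he k
      simpa [kap] using this)
    refine ⟨⟨⟨a0, MvPolynomial.X 2 * a1, MvPolynomial.X 2 * a2⟩, ⟨a1, rfl⟩, ⟨a2, rfl⟩⟩, ?_⟩
    ext1
    · exact h0
    · exact h1
    · exact h2

/-- the elements `s, t, h` of `R` -/
def ff : Fin 3 → RR := fun k => ⟨Cub.of _ _ (MvPolynomial.X k), by
  constructor
  · exact dvd_zero _
  · exact dvd_zero _⟩

lemma jj_ff (k : Fin 3) : jj (ff k) = MM 0 (ex k) := by
  ext1 <;> simp [jj, ff, MM, Cub.map, iT_X]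

lemma MM0_isUnit (e : GG) : IsUnit (MM 0 e) := by
  refine IsUnit.of_mul_eq_one (MM 0 (-e)) ?_
  rw [MM0_mul_MM, add_neg_cancel, MM_zero]

lemma ff_isUnit (k : Fin 3) : IsUnit (algebraMap RR QQ (ff k)) := by
  rw [algebraMap_eq_jj, jj_ff]
  exact MM0_isUnit _

/-- indicator vector -/
def ind (S : Finset (Fin 3)) : GG := fun k => if k ∈ S then 1 else 0

lemma jj_prod (S : Finset (Fin 3)) : jj (∏ j ∈ S, ff j) = MM 0 (ind S) := by
  induction S using Finset.induction_on with
  | empty => 
    rw [Finset.prod_empty, map_one, ← MM_zero]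
    congr 1
  | insert j S hj ih =>
    rw [Finset.prod_insert hj, map_mul, ih, jj_ff, MM0_mul_MM]
    congr 1
    funext k
    simp only [Pi.add_apply, ex, ind, mem_insert]
    by_cases hk : k = j
    · subst hk; simp [hj]
    · simp [hk]

lemma MM0_pow (e : GG) (n : ℕ) : (MM 0 e) ^ n = MM 0 (n • e) := by
  induction n with
  | zero => rw [pow_zero, zero_smul, MM_zero]
  | succ n ih => rw [pow_succ, ih, MM0_mul_MM, succ_nsmul]

lemma smul_eq_jj (r : RR) (z : QQ) : r • z = jj r * z := rfl

lemma prod_pow_smul (S : Finset (Fin 3)) (n : ℕ) (z : QQ) :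
    ((∏ j ∈ S, ff j) ^ n) • z = MM 0 (n • ind S) * z := by
  rw [smul_eq_jj, map_pow, jj_prod, MM0_pow]

/-- finiteness of the support, as a bound on exponents -/
lemma exists_bound (z : QQ) : ∃ n : ℕ, ∀ i e, cf z i e ≠ 0 → ∀ k, -(n : ℤ) ≤ e k := by
  classical
  let s : Finset (Fin 3 × GG) := univ.biUnion fun i => (crd z i).coeff.support.image fun e => (i, e)
  let n : ℕ := s.sup fun x => univ.sup fun k => (x.2 k).natAbs
  refine ⟨n, fun i e he k => ?_⟩
  have h1 : (i, e) ∈ s := by
    simp only [s, mem_biUnion, mem_univ, true_and, mem_image]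
    exact ⟨i, e, Finsupp.mem_support_iff.2 he, rfl⟩
  have h2 : (e k).natAbs ≤ n :=
    le_trans (Finset.le_sup (f := fun k => (e k).natAbs) (mem_univ k))
      (Finset.le_sup (f := fun x : Fin 3 × GG => univ.sup fun k => (x.2 k).natAbs) h1)
  omega

/-- description of `R_{f_S}` inside `Q` -/
lemma mem_range_toQ_iff (S : Finset (Fin 3)) (z : QQ) :
    z ∈ Set.range (toQ ff ff_isUnit S) ↔ ∀ i e, cf z i e ≠ 0 → ∀ k ∉ S, kap i k ≤ e k := by
  constructor
  · rintro ⟨x, rfl⟩ i e he k hk
    obtain ⟨n, a, h⟩ := exists_smul_toQ ff ff_isUnit S x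
    rw [prod_pow_smul, algebraMap_eq_jj] at h
    have h1 := (mem_range_jj_iff (jj a)).1 ⟨a, rfl⟩ i (e + n • ind S) (by
      rw [← h, cf_MM0_mul, add_sub_cancel_right]
      exact he) k
    simpa [ind, hk] using h1
  · intro h
    obtain ⟨n, hn⟩ := exists_bound z
    obtain ⟨r, hr⟩ := (mem_range_jj_iff (MM 0 ((n + 1) • ind S) * z)).2 (by
      intro i e he k
      rw [cf_MM0_mul] at he
      by_cases hk : k ∈ S
      · have := hn i _ he k
        have h4 : ((n + 1) • ind S) k = (n : ℤ) + 1 := by simp [ind, hk]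
        rw [Pi.sub_apply, h4] at this
        have h3 : kap i k ≤ 1 := by unfold kap; split_ifs <;> norm_num
        omega
      · have := h i _ he k hk
        simpa [ind, hk] using this)
    exact exists_toQ_eq ff ff_isUnit S (n := n + 1) (a := r) (by
      rw [prod_pow_smul, algebraMap_eq_jj, hr])

end

end Pool.Agent.Lib_helper39.FAN
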