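import Pool.Agent.Lib_helper39.FAN.Pos

namespace Pool.Agent.Lib_helper39.FAN

open Finset

noncomputable section

/-- the field `𝔽₂(τ)` -/
abbrev KK := FractionRing (Polynomial (ZMod 2))

/-- the element `τ` -/
def tau : KK := algebraMap (Polynomial (ZMod 2)) KK Polynomial.X

lemma tau_ne_zero : tau ≠ 0 := by
  unfold tau
  rw [Ne, map_eq_zero_iff _ (IsFractionRing.injective (Polynomial (ZMod 2)) KK)]
  exact Polynomial.X_ne_zero

instance : CharP KK 2 :=
  charP_of_injective_ringHom (IsFractionRing.injective (Polynomial (ZMod 2)) KK) 2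

/-- Laurent polynomials in `s, h` over `𝔽₂(τ)` -/
abbrev NN := AddMonoidAlgebra KK (ℤ × ℤ)

instance : CharP NN 2 :=
  charP_of_injective_ringHom
    (f := (AddMonoidAlgebra.singleZeroRingHom : KK →+* NN))
    (RingHom.injective _) 2

/-- scalars -/
def sc (c : KK) : NN := AddMonoidAlgebra.single 0 c

/-- monomials -/
def mo (i j : ℤ) : NN := AddMonoidAlgebra.single (i, j) 1

lemma sc_mul_sc (c c' : KK) : sc c * sc c' = sc (c * c') := by
  unfold sc
  rw [AddMonoidAlgebra.single_mul_single, add_zero]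

lemma sc_one : sc 1 = 1 := rfl

lemma mo_mul_mo (i j i' j' : ℤ) : mo i j * mo i' j' = mo (i + i') (j + j') := by
  unfold mo
  rw [AddMonoidAlgebra.single_mul_single, one_mul]
  rfl

lemma mo_zero : mo 0 0 = 1 := rfl

lemma coeff_mo_mul (i j : ℤ) (x : NN) (e : ℤ × ℤ) :
    (mo i j * x).coeff e = x.coeff (e - (i, j)) := by
  unfold mo
  rw [AddMonoidAlgebra.coeff_single_mul_eq_mul_coeff (m₂ := e - (i, j)), one_mul]
  intro a _
  constructor
  · intro h; rw [← h]; abel
  · intro h; rw [h]; abel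

/-- `x` is supported in `E` -/
def Supp (E : ℤ × ℤ → Prop) (x : NN) : Prop := ∀ e, x.coeff e ≠ 0 → E e

lemma Supp.add {E : ℤ × ℤ → Prop} {x y : NN} (hx : Supp E x) (hy : Supp E y) :
    Supp E (x + y) := by
  intro e he
  by_contra hE
  have h1 : x.coeff e = 0 := by
    by_contra h; exact hE (hx e h)
  have h2 : y.coeff e = 0 := by
    by_contra h; exact hE (hy e h)
  apply he
  rw [AddMonoidAlgebra.coeff_add, Finsupp.add_apply, h1, h2, add_zero]

lemma Supp.zero (E : ℤ × ℤ → Prop) : Supp E 0 := by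
  intro e he
  exact absurd rfl he

lemma Supp.mono {E E' : ℤ × ℤ → Prop} (h : ∀ e, E e → E' e) {x : NN} (hx : Supp E x) :
    Supp E' x := fun e he => h e (hx e he)

lemma Supp.mul {E E' E'' : ℤ × ℤ → Prop} (h : ∀ a b, E a → E' b → E'' (a + b)) {x y : NN}
    (hx : Supp E x) (hy : Supp E' y) : Supp E'' (x * y) := by
  intro e he
  rw [AddMonoidAlgebra.coeff_mul, Finsupp.sum] at he
  obtain ⟨a, _, ha'⟩ := Finset.exists_ne_zero_of_sum_ne_zero he
  rw [Finsupp.sum] at ha'
  obtain ⟨b, _, hb'⟩ := Finset.exists_ne_zero_of_sum_ne_zero ha'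
  by_cases hab : a + b = e
  · rw [if_pos hab] at hb'
    rw [← hab]
    exact h a b (hx a (left_ne_zero_of_mul hb')) (hy b (right_ne_zero_of_mul hb'))
  · rw [if_neg hab] at hb'
    exact absurd rfl hb'

lemma Supp.single {E : ℤ × ℤ → Prop} {a : ℤ × ℤ} (h : E a) (c : KK) :
    Supp E (AddMonoidAlgebra.single a c) := by
  intro e he
  rw [AddMonoidAlgebra.coeff_single, Finsupp.single_apply] at he
  by_cases hae : a = e
  · rw [← hae]; exact h
  · rw [if_neg hae] at he; exact absurd rfl he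

lemma Supp.sum {α : Type*} {E : ℤ × ℤ → Prop} (s : Finset α) (g : α → NN)
    (h : ∀ a ∈ s, Supp E (g a)) : Supp E (∑ a ∈ s, g a) := by
  classical
  induction s using Finset.induction_on with
  | empty => rw [Finset.sum_empty]; exact Supp.zero E
  | insert a s ha ih =>
    rw [Finset.sum_insert ha]
    exact (h a (mem_insert_self _ _)).add (ih fun b hb => h b (mem_insert_of_mem hb))

lemma Supp.sq {E E' : ℤ × ℤ → Prop} (h : ∀ a, E a → E' (a + a)) {x : NN} (hx : Supp E x) :
    Supp E' (x ^ 2) := by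
  have h1 : x = ∑ a ∈ x.coeff.support, AddMonoidAlgebra.single a (x.coeff a) :=
    (AddMonoidAlgebra.sum_coeff_single x).symm
  rw [h1, sum_pow_char 2]
  refine Supp.sum _ _ fun a ha => ?_
  rw [AddMonoidAlgebra.single_pow, two_nsmul]
  exact Supp.single (h a (hx a (Finsupp.mem_support_iff.1 ha))) _

/-- the parameter `α = (s² + h) / τ` -/
def alp : NN := sc tau⁻¹ * (mo 2 0 + mo 0 1)

/-- the parameter `β = τ` -/
def bet : NN := sc tau

/-- the image of `t` -/
def tim : NN := bet + alp ^ 2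

lemma alp_mul_bet : alp * bet = mo 0 1 + mo 2 0 := by
  unfold alp bet
  rw [mul_comm (sc tau⁻¹), mul_assoc, sc_mul_sc, inv_mul_cancel₀ tau_ne_zero, sc_one, mul_one,
    add_comm]

/-- the image of the polynomial ring -/
def phi : TT →+* NN :=
  MvPolynomial.eval₂Hom ((AddMonoidAlgebra.singleZeroRingHom : KK →+* NN).comp
    (algebraMap (ZMod 2) KK)) ![mo 1 0, tim, mo 0 1]

lemma phi_X0 : phi (MvPolynomial.X 0) = mo 1 0 := by
  unfold phi
  rw [MvPolynomial.coe_eval₂Hom, MvPolynomial.eval₂_X]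
  rfl

lemma phi_X1 : phi (MvPolynomial.X 1) = tim := by
  unfold phi
  rw [MvPolynomial.coe_eval₂Hom, MvPolynomial.eval₂_X]
  rfl

lemma phi_X2 : phi (MvPolynomial.X 2) = mo 0 1 := by
  unfold phi
  rw [MvPolynomial.coe_eval₂Hom, MvPolynomial.eval₂_X]
  rfl

/-- the quadratic algebra `Λ'[ω]/(ω² = β + α ω)` -/
abbrev QA := QuadraticAlgebra NN bet alp

/-- the generator `ω` -/
def om : QA := ⟨0, 1⟩

/-- the structure map -/
def co : NN →+* QA where
  toFun a := ⟨a, 0⟩
  map_zero' := rfl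
  map_one' := rfl
  map_add' a b := by ext <;> simp
  map_mul' a b := by ext <;> simp

lemma om_cube : om ^ 3 = (co.comp phi) (MvPolynomial.X 1) * om +
    (co.comp phi) (MvPolynomial.X 2 + MvPolynomial.X 0 ^ 2) := by
  have h2 : phi (MvPolynomial.X 2 + MvPolynomial.X 0 ^ 2) = alp * bet := by
    rw [map_add, map_pow, phi_X0, phi_X2, alp_mul_bet, pow_two, mo_mul_mo]
    rfl
  rw [RingHom.comp_apply, RingHom.comp_apply, h2, phi_X1]
  unfold tim
  refine QuadraticAlgebra.ext ?_ ?_
  · simp [om, co, pow_succ, mul_comm]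
  · simp [om, co, pow_succ]

/-- the map from the cubic algebra -/
def ThS : SS →+* QA := Cub.lift (co.comp phi) om om_cube

/-- the map from `R` -/
def Th : RR →+* QA := ThS.comp RR.subtype

/-- supports: nonnegative exponents -/
def E0 (e : ℤ × ℤ) : Prop := 0 ≤ e.1 ∧ 0 ≤ e.2

/-- supports: nonnegative exponents with positive exponent of `h` -/
def E1 (e : ℤ × ℤ) : Prop := 0 ≤ e.1 ∧ 1 ≤ e.2

/-- supports: at least one exponent is good -/
def D0 (e : ℤ × ℤ) : Prop := 0 ≤ e.1 ∨ 0 ≤ e.2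

/-- supports: at least one exponent is good, in the `ω` component -/
def D1 (e : ℤ × ℤ) : Prop := 0 ≤ e.1 ∨ 1 ≤ e.2

lemma supp_sc (c : KK) : Supp E0 (sc c) := Supp.single (by simp [E0]) c

lemma supp_mo {i j : ℤ} (hi : 0 ≤ i) (hj : 0 ≤ j) : Supp E0 (mo i j) := Supp.single ⟨hi, hj⟩ 1

lemma E0_add (a b : ℤ × ℤ) (ha : E0 a) (hb : E0 b) : E0 (a + b) :=
  ⟨add_nonneg ha.1 hb.1, add_nonneg ha.2 hb.2⟩

lemma supp_alp : Supp E0 alp :=
  Supp.mul E0_add (supp_sc _) ((supp_mo (by norm_num) (by norm_num)).add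
    (supp_mo (by norm_num) (by norm_num)))

lemma supp_bet : Supp E0 bet := supp_sc _

lemma supp_tim : Supp E0 tim := by
  unfold tim
  rw [pow_two]
  exact supp_bet.add (Supp.mul E0_add supp_alp supp_alp)

lemma supp_phi (a : TT) : Supp E0 (phi a) := by
  induction a using MvPolynomial.induction_on with
  | C c =>
    have : phi (MvPolynomial.C c) = sc (algebraMap (ZMod 2) KK c) := by
      unfold phi
      rw [MvPolynomial.coe_eval₂Hom, MvPolynomial.eval₂_C]
      rfl
    rw [this]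
    exact supp_sc _
  | add a b ha hb => rw [map_add]; exact ha.add hb
  | mul_X a i ha =>
    rw [map_mul]
    refine Supp.mul E0_add ha ?_
    fin_cases i
    · show Supp E0 (phi (MvPolynomial.X 0))
      rw [phi_X0]; exact supp_mo (by norm_num) (by norm_num)
    · show Supp E0 (phi (MvPolynomial.X 1))
      rw [phi_X1]; exact supp_tim
    · show Supp E0 (phi (MvPolynomial.X 2))
      rw [phi_X2]; exact supp_mo (by norm_num) (by norm_num)

lemma supp_phi_h {a : TT} (h : MvPolynomial.X 2 ∣ a) : Supp E1 (phi a) := by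
  obtain ⟨b, rfl⟩ := h
  rw [map_mul, phi_X2]
  refine Supp.mul (E := E1) (E' := E0) ?_ (Supp.single (by simp [E1]) _) (supp_phi b)
  intro x y hx hy
  exact ⟨add_nonneg hx.1 hy.1, by have := hx.2; have := hy.2; simp only [Prod.snd_add]; omega⟩

lemma Th_re (r : RR) : (Th r).re = phi r.1.c0 + phi r.1.c2 * bet := by
  simp [Th, ThS, Cub.lift_apply, om, co, pow_two]

lemma Th_im (r : RR) : (Th r).im = phi r.1.c1 + phi r.1.c2 * alp := by
  simp [Th, ThS, Cub.lift_apply, om, co, pow_two]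

lemma E1_E0 (e : ℤ × ℤ) (h : E1 e) : E0 e := ⟨h.1, by have := h.2; omega⟩

lemma E1_add (a b : ℤ × ℤ) (ha : E1 a) (hb : E0 b) : E1 (a + b) :=
  ⟨add_nonneg ha.1 hb.1, by have := ha.2; have := hb.2; simp only [Prod.snd_add]; omega⟩

lemma supp_Th_re (r : RR) : Supp E0 (Th r).re := by
  rw [Th_re]
  exact (supp_phi _).add (Supp.mul E0_add (supp_phi _) supp_bet)

lemma supp_Th_im (r : RR) : Supp E1 (Th r).im := by
  rw [Th_im]
  exact (supp_phi_h r.2.1).add (Supp.mul E1_add (supp_phi_h r.2.2) supp_alp)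

/-- the good part of the overring -/
def GoodN (z : QA) : Prop := Supp D0 z.re ∧ Supp D1 z.im

lemma E0_D0 (a b : ℤ × ℤ) (ha : E0 a) (hb : D0 b) : D0 (a + b) := by
  obtain ⟨h1, h2⟩ := ha
  rcases hb with h | h
  · exact Or.inl (by simp only [Prod.fst_add]; omega)
  · exact Or.inr (by simp only [Prod.snd_add]; omega)

lemma E0_D1 (a b : ℤ × ℤ) (ha : E0 a) (hb : D1 b) : D1 (a + b) := by
  obtain ⟨h1, h2⟩ := ha
  rcases hb with h | h
  · exact Or.inl (by simp only [Prod.fst_add]; omega)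
  · exact Or.inr (by simp only [Prod.snd_add]; omega)

lemma E1_D0 (a b : ℤ × ℤ) (ha : E1 a) (hb : D0 b) : D1 (a + b) := by
  obtain ⟨h1, h2⟩ := ha
  rcases hb with h | h
  · exact Or.inl (by simp only [Prod.fst_add]; omega)
  · exact Or.inr (by simp only [Prod.snd_add]; omega)

lemma D1_D0 (a : ℤ × ℤ) (ha : D1 a) : D0 a := by
  rcases ha with h | h
  · exact Or.inl h
  · exact Or.inr (by omega)

lemma GoodN.add {z w : QA} (hz : GoodN z) (hw : GoodN w) : GoodN (z + w) :=
  ⟨by rw [QuadraticAlgebra.re_add]; exact hz.1.add hw.1,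
    by rw [QuadraticAlgebra.im_add]; exact hz.2.add hw.2⟩

lemma GoodN.smul {z : QA} (r : RR) (hz : GoodN z) : GoodN (Th r * z) := by
  constructor
  · rw [QuadraticAlgebra.re_mul]
    refine (Supp.mul E0_D0 (supp_Th_re r) hz.1).add ?_
    refine Supp.mul E0_D0 (Supp.mul E0_add supp_bet ((supp_Th_im r).mono E1_E0)) (hz.2.mono D1_D0)
  · rw [QuadraticAlgebra.im_mul]
    refine (Supp.add (Supp.mul E0_D1 (supp_Th_re r) hz.2)
      (Supp.mul E1_D0 (supp_Th_im r) hz.1)).add ?_
    exact Supp.mul E0_D1 (Supp.mul E0_add supp_alp ((supp_Th_im r).mono E1_E0)) hz.2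

lemma GoodN.sq {z : QA} (hz : GoodN z) : GoodN (z ^ 2) := by
  rw [pow_two]
  constructor
  · rw [QuadraticAlgebra.re_mul, ← pow_two, mul_assoc, ← pow_two]
    refine Supp.add (Supp.sq ?_ hz.1) (Supp.mul E0_D0 supp_bet (Supp.sq ?_ hz.2))
    · intro a ha
      rcases ha with h | h
      · exact Or.inl (by simp only [Prod.fst_add]; omega)
      · exact Or.inr (by simp only [Prod.snd_add]; omega)
    · intro a ha
      rcases ha with h | h
      · exact Or.inl (by simp only [Prod.fst_add]; omega)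
      · exact Or.inr (by simp only [Prod.snd_add]; omega)
  · rw [QuadraticAlgebra.im_mul, mul_comm z.im z.re, CharTwo.add_self_eq_zero, zero_add, mul_assoc,
      ← pow_two]
    refine Supp.mul E0_D1 supp_alp (Supp.sq ?_ hz.2)
    intro a ha
    rcases ha with h | h
    · exact Or.inl (by simp only [Prod.fst_add]; omega)
    · exact Or.inr (by simp only [Prod.snd_add]; omega)

end

end Pool.Agent.Lib_helper39.FAN
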