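import Pool.Agent.Lib_helper39.FAN.Neg

namespace Pool.Agent.Lib_helper39.FAN

open Finset

noncomputable section

/-- evaluation at `s = 0, t = τ, h = 0` -/
def ev : TT →+* KK := MvPolynomial.eval₂Hom (algebraMap (ZMod 2) KK) ![0, tau, 0]

lemma ev_X0 : ev (MvPolynomial.X 0) = 0 := by
  unfold ev
  rw [MvPolynomial.coe_eval₂Hom, MvPolynomial.eval₂_X]
  rfl

lemma ev_X1 : ev (MvPolynomial.X 1) = tau := by
  unfold ev
  rw [MvPolynomial.coe_eval₂Hom, MvPolynomial.eval₂_X]
  rfl

lemma ev_X2 : ev (MvPolynomial.X 2) = 0 := by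
  unfold ev
  rw [MvPolynomial.coe_eval₂Hom, MvPolynomial.eval₂_X]
  rfl

lemma ev_C (c : ZMod 2) : ev (MvPolynomial.C c) = algebraMap (ZMod 2) KK c := by
  unfold ev
  rw [MvPolynomial.coe_eval₂Hom, MvPolynomial.eval₂_C]

/-- the residue map of `R` at `P` -/
def psi : RR →+* KK :=
  (Cub.lift (t := MvPolynomial.X 1) (q := MvPolynomial.X 2 + MvPolynomial.X 0 ^ 2) ev 0 (by
    rw [map_add, map_pow, ev_X0, ev_X2]; ring)).comp RR.subtype

lemma psi_apply (r : RR) : psi r = ev r.1.c0 := by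
  simp [psi, Cub.lift_apply]

lemma coeff_sc (c : KK) (e : ℤ × ℤ) : (sc c).coeff e = if (0 : ℤ × ℤ) = e then c else 0 := by
  unfold sc
  rw [AddMonoidAlgebra.coeff_single, Finsupp.single_apply]

lemma E0_ne (a b : ℤ × ℤ) (ha : E0 a ∧ a ≠ 0) (hb : E0 b) : a + b ≠ 0 := by
  obtain ⟨⟨h1, h2⟩, h3⟩ := ha
  obtain ⟨h4, h5⟩ := hb
  intro h
  apply h3
  have h6 : a.1 + b.1 = 0 := congrArg Prod.fst h
  have h7 : a.2 + b.2 = 0 := congrArg Prod.snd h
  refine Prod.ext ?_ ?_
  · show a.1 = 0
    omega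
  · show a.2 = 0
    omega

lemma coeff_zero_mul {x y : NN} (hx : Supp E0 x) (hy : Supp E0 y) :
    (x * y).coeff 0 = x.coeff 0 * y.coeff 0 := by
  have h1 : Supp (fun e => E0 e ∧ e ≠ 0) (x - sc (x.coeff 0)) := by
    intro e he
    rw [AddMonoidAlgebra.coeff_sub, Finsupp.sub_apply, coeff_sc] at he
    by_cases h0 : e = 0
    · subst h0
      rw [if_pos rfl, sub_self] at he
      exact absurd rfl he
    · rw [if_neg (Ne.symm h0), sub_zero] at he
      exact ⟨hx e he, h0⟩
  have h2 : x * y = sc (x.coeff 0) * y + (x - sc (x.coeff 0)) * y := by ring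
  have h3 : ((x - sc (x.coeff 0)) * y).coeff 0 = 0 := by
    by_contra hne
    exact Supp.mul (E'' := fun e => e ≠ 0) E0_ne h1 hy 0 hne rfl
  rw [h2, AddMonoidAlgebra.coeff_add, Finsupp.add_apply, h3, add_zero]
  unfold sc
  rw [AddMonoidAlgebra.coeff_single_mul_eq_mul_coeff (m₂ := 0)]
  intro a _
  constructor
  · intro h; rw [zero_add] at h; exact h
  · intro h; rw [zero_add]; exact h

lemma coeff_zero_E1 {x : NN} (hx : Supp E1 x) : x.coeff 0 = 0 := by
  by_contra hne
  exact absurd (hx 0 hne).2 (by simp)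

lemma coeff_mo (i j : ℤ) (e : ℤ × ℤ) : (mo i j).coeff e = if (i, j) = e then 1 else 0 := by
  unfold mo
  rw [AddMonoidAlgebra.coeff_single, Finsupp.single_apply]

lemma coeff_zero_mo {i j : ℤ} (h : i ≠ 0 ∨ j ≠ 0) : (mo i j).coeff 0 = 0 := by
  rw [coeff_mo, if_neg]
  intro h'
  have h1 : i = 0 := congrArg Prod.fst h'
  have h2 : j = 0 := congrArg Prod.snd h'
  rcases h with h | h
  · exact h h1
  · exact h h2

lemma coeff_zero_alp : alp.coeff 0 = 0 := by
  unfold alp
  rw [coeff_zero_mul (supp_sc _) ((supp_mo (by norm_num) (by norm_num)).add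
    (supp_mo (by norm_num) (by norm_num))), AddMonoidAlgebra.coeff_add, Finsupp.add_apply,
    coeff_zero_mo (Or.inl (by norm_num)), coeff_zero_mo (Or.inr (by norm_num)), add_zero, mul_zero]

lemma coeff_zero_bet : bet.coeff 0 = tau := by
  unfold bet
  rw [coeff_sc, if_pos rfl]

lemma coeff_zero_tim : tim.coeff 0 = tau := by
  unfold tim
  rw [pow_two, AddMonoidAlgebra.coeff_add, Finsupp.add_apply, coeff_zero_mul supp_alp supp_alp,
    coeff_zero_alp, mul_zero, add_zero, coeff_zero_bet]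

lemma coeff_zero_phi (a : TT) : (phi a).coeff 0 = ev a := by
  induction a using MvPolynomial.induction_on with
  | C c =>
    have : phi (MvPolynomial.C c) = sc (algebraMap (ZMod 2) KK c) := by
      unfold phi
      rw [MvPolynomial.coe_eval₂Hom, MvPolynomial.eval₂_C]
      rfl
    rw [this, coeff_sc, if_pos rfl, ev_C]
  | add a b ha hb =>
    rw [map_add, map_add, AddMonoidAlgebra.coeff_add, Finsupp.add_apply, ha, hb]
  | mul_X a i ha =>
    rw [map_mul, map_mul]
    fin_cases i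
    · show (phi a * phi (MvPolynomial.X 0)).coeff 0 = ev a * ev (MvPolynomial.X 0)
      rw [coeff_zero_mul (supp_phi _) (supp_phi _), ha, phi_X0, ev_X0,
        coeff_zero_mo (Or.inl (by norm_num))]
    · show (phi a * phi (MvPolynomial.X 1)).coeff 0 = ev a * ev (MvPolynomial.X 1)
      rw [coeff_zero_mul (supp_phi _) (supp_phi _), ha, phi_X1, ev_X1, coeff_zero_tim]
    · show (phi a * phi (MvPolynomial.X 2)).coeff 0 = ev a * ev (MvPolynomial.X 2)
      rw [coeff_zero_mul (supp_phi _) (supp_phi _), ha, phi_X2, ev_X2,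
        coeff_zero_mo (Or.inr (by norm_num))]

/-- the elements `s, h` of `R` -/
def sh : Fin 2 → RR := ![ff 0, ff 2]

instance : Algebra RR QA := Th.toAlgebra

lemma smul_eq_Th (r : RR) (z : QA) : r • z = Th r * z := rfl

lemma Th_ff (k : Fin 3) : Th (ff k) = co (phi (MvPolynomial.X k)) := by
  refine QuadraticAlgebra.ext ?_ ?_
  · rw [Th_re]; simp [ff, co]
  · rw [Th_im]; simp [ff, co]

lemma Th_sh0 : Th (sh 0) = co (mo 1 0) := by
  show Th (ff 0) = _
  rw [Th_ff, phi_X0]

lemma Th_sh1 : Th (sh 1) = co (mo 0 1) := by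
  show Th (ff 2) = _
  rw [Th_ff, phi_X2]

lemma mo_inv (i j : ℤ) : mo i j * mo (-i) (-j) = 1 := by
  rw [mo_mul_mo, add_neg_cancel, add_neg_cancel, mo_zero]

lemma sh_isUnit (k : Fin 2) : IsUnit (algebraMap RR QA (sh k)) := by
  have h : ∀ i j, IsUnit (co (mo i j)) := fun i j =>
    (IsUnit.of_mul_eq_one _ (mo_inv i j)).map co
  fin_cases k
  · show IsUnit (Th (sh 0))
    rw [Th_sh0]; exact h _ _
  · show IsUnit (Th (sh 1))
    rw [Th_sh1]; exact h _ _

lemma mo_pow (i j : ℤ) (n : ℕ) : (mo i j) ^ n = mo (n * i) (n * j) := by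
  unfold mo
  rw [AddMonoidAlgebra.single_pow, one_pow]
  simp

lemma supp_mo_left (i j : ℤ) (hj : j = 0) : Supp (fun e => e.2 = 0) (mo i j) := by
  subst hj
  exact Supp.single (E := fun e : ℤ × ℤ => e.2 = 0) (a := (i, 0)) rfl 1

lemma supp_mo_right (i j : ℤ) (hi : i = 0) : Supp (fun e => e.1 = 0) (mo i j) := by
  subst hi
  exact Supp.single (E := fun e : ℤ × ℤ => e.1 = 0) (a := (0, j)) rfl 1

lemma GoodN_co_mul_left {n : ℤ} {z : QA} (h0 : Supp E0 z.re) (h1 : Supp E1 z.im) :
    GoodN (co (mo n 0) * z) := by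
  constructor
  · rw [QuadraticAlgebra.re_mul]
    simp only [co, RingHom.coe_mk, MonoidHom.coe_mk, OneHom.coe_mk, mul_zero, zero_mul, add_zero]
    refine Supp.mul (E := fun e => e.2 = 0) (E' := E0) ?_ (supp_mo_left _ _ rfl) h0
    intro a b ha hb
    exact Or.inr (by have := hb.2; simp only [Prod.snd_add]; omega)
  · rw [QuadraticAlgebra.im_mul]
    simp only [co, RingHom.coe_mk, MonoidHom.coe_mk, OneHom.coe_mk, mul_zero, zero_mul, add_zero]
    refine Supp.mul (E := fun e => e.2 = 0) (E' := E1) ?_ (supp_mo_left _ _ rfl) h1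
    intro a b ha hb
    exact Or.inr (by have := hb.2; simp only [Prod.snd_add]; omega)

lemma GoodN_co_mul_right {n : ℤ} {z : QA} (h0 : Supp E0 z.re) (h1 : Supp E1 z.im) :
    GoodN (co (mo 0 n) * z) := by
  constructor
  · rw [QuadraticAlgebra.re_mul]
    simp only [co, RingHom.coe_mk, MonoidHom.coe_mk, OneHom.coe_mk, mul_zero, zero_mul, add_zero]
    refine Supp.mul (E := fun e => e.1 = 0) (E' := E0) ?_ (supp_mo_right _ _ rfl) h0
    intro a b ha hb
    exact Or.inl (by have := hb.1; simp only [Prod.fst_add]; omega)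
  · rw [QuadraticAlgebra.im_mul]
    simp only [co, RingHom.coe_mk, MonoidHom.coe_mk, OneHom.coe_mk, mul_zero, zero_mul, add_zero]
    refine Supp.mul (E := fun e => e.1 = 0) (E' := E1) ?_ (supp_mo_right _ _ rfl) h1
    intro a b ha hb
    exact Or.inl (by have := hb.1; simp only [Prod.fst_add]; omega)

lemma GoodN_toQ_erase (j : Fin 2) (x : Loc sh (univ.erase j)) :
    GoodN (toQ sh sh_isUnit (univ.erase j) x) := by
  obtain ⟨n, a, h⟩ := exists_smul_toQ sh sh_isUnit (univ.erase j) x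
  have h' : (algebraMap RR QA) a = Th a := rfl
  rw [smul_eq_Th, h', map_pow] at h
  fin_cases j
  · have he : (univ.erase (0 : Fin 2)) = {1} := by decide
    have hp : Th (∏ k ∈ univ.erase (0 : Fin 2), sh k) = co (mo 0 1) := by
      rw [he, Finset.prod_singleton, Th_sh1]
    simp only [Fin.zero_eta] at h ⊢
    rw [hp, ← map_pow, mo_pow] at h
    have h2 : toQ sh sh_isUnit (univ.erase 0) x = co (mo 0 (-n)) * Th a := by
      rw [← h, ← mul_assoc, ← map_mul, mo_mul_mo]
      have : mo (0 + ↑n * 0) (-↑n + ↑n * 1) = 1 := by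
        rw [mul_zero, add_zero, mul_one, neg_add_cancel, mo_zero]
      rw [this, map_one, one_mul]
    rw [h2]
    exact GoodN_co_mul_right (supp_Th_re a) (supp_Th_im a)
  · have he : (univ.erase (1 : Fin 2)) = {0} := by decide
    have hp : Th (∏ k ∈ univ.erase (1 : Fin 2), sh k) = co (mo 1 0) := by
      rw [he, Finset.prod_singleton, Th_sh0]
    simp only [Fin.mk_one] at h ⊢
    rw [hp, ← map_pow, mo_pow] at h
    have h2 : toQ sh sh_isUnit (univ.erase 1) x = co (mo (-n) 0) * Th a := by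
      rw [← h, ← mul_assoc, ← map_mul, mo_mul_mo]
      have : mo (-↑n + ↑n * 1) (0 + ↑n * 0) = 1 := by
        rw [mul_zero, add_zero, mul_one, neg_add_cancel, mo_zero]
      rw [this, map_one, one_mul]
    rw [h2]
    exact GoodN_co_mul_left (supp_Th_re a) (supp_Th_im a)

/-- the Frobenius stable submodule which is not closed under taking square roots -/
def NB : Submodule RR (Cochain sh) where
  carrier := {c | c ∈ cocycles sh 2 ∧ GoodN (toQ sh sh_isUnit univ (c univ))}
  add_mem' := by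
    rintro a b ⟨ha, ha'⟩ ⟨hb, hb'⟩
    refine ⟨Submodule.add_mem _ ha hb, ?_⟩
    rw [Pi.add_apply, map_add]
    exact ha'.add hb'
  zero_mem' := ⟨Submodule.zero_mem _, by
    rw [Pi.zero_apply, map_zero]
    exact ⟨Supp.zero _, Supp.zero _⟩⟩
  smul_mem' := by
    rintro r b ⟨hb, hb'⟩
    refine ⟨Submodule.smul_mem _ r hb, ?_⟩
    rw [Pi.smul_apply, map_smul, smul_eq_Th]
    exact hb'.smul r

/-- the element `y / s` -/
def xQ : QA := co (mo (-1) 0) * om

lemma xQ_re : xQ.re = 0 := by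
  simp [xQ, co, om]

lemma xQ_im : xQ.im = mo (-1) 0 := by
  simp [xQ, co, om]

/-- the element `h y` of `R` -/
def hy : RR := ⟨⟨0, MvPolynomial.X 2, 0⟩, ⟨dvd_refl _, dvd_zero _⟩⟩

lemma Th_hy : Th hy = ⟨0, mo 0 1⟩ := by
  refine QuadraticAlgebra.ext ?_ ?_
  · rw [Th_re]; simp [hy]
  · rw [Th_im]; simp [hy, phi_X2]

lemma exists_x : ∃ x : Loc sh univ, toQ sh sh_isUnit univ x = xQ := by
  refine exists_toQ_eq sh sh_isUnit univ (n := 1) (a := hy) ?_
  rw [pow_one, smul_eq_Th, Fin.prod_univ_two, map_mul, Th_sh0, Th_sh1]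
  show _ = Th hy
  rw [Th_hy, ← map_mul, mo_mul_mo]
  refine QuadraticAlgebra.ext ?_ ?_
  · rw [QuadraticAlgebra.re_mul, xQ_re]
    simp [co]
  · rw [QuadraticAlgebra.im_mul, xQ_re, xQ_im]
    simp [co, mo_mul_mo]

/-- Anti-nilpotency fails for the Čech cohomology of `R` on `s, h` in degree `2`, localized at the
kernel of `psi`. -/
theorem not_ANU (U : Submonoid RR) (hU : ∀ u ∈ U, psi u ≠ 0) :
    ¬ ANU 2 U (frobCochain 2 sh) (cocycles sh 2) (coboundaries sh 2) := by
  intro h
  obtain ⟨x, hx⟩ := exists_x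
  let c : Cochain sh := Pi.single univ x
  have hc : c ∈ cocycles sh 2 := by
    constructor
    · intro S hS
      refine Pi.single_eq_of_ne (fun h => hS ?_) x
      rw [h]; rfl
    · show d sh c = 0
      funext T
      rw [d_apply]
      refine Finset.sum_eq_zero fun j hj => ?_
      have : c (T.erase j) = 0 := Pi.single_eq_of_ne (fun h => by
        have : j ∈ T.erase j := by rw [h]; exact mem_univ j
        exact notMem_erase j T this) x
      rw [this, map_zero, smul_zero]
  have hcu : c univ = x := Pi.single_eq_same univ x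
  obtain ⟨u, hu, hux⟩ := h NB
    (by
      rintro _ ⟨hb, e, rfl⟩
      refine ⟨⟨hb, d_d sh e⟩, ?_⟩
      rw [d_apply, map_sum, Fin.sum_univ_two]
      refine GoodN.add ?_ ?_
      · rw [map_smul, toQ_res, smul_eq_Th]
        exact (GoodN_toQ_erase 0 _).smul _
      · rw [map_smul, toQ_res, smul_eq_Th]
        exact (GoodN_toQ_erase 1 _).smul _)
    (fun c hc => hc.1)
    (by
      rintro c ⟨hc, hc'⟩
      refine ⟨frobCochain_mem_cocycles 2 sh 2 hc, ?_⟩
      rw [frobCochain_apply, map_pow]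
      exact hc'.sq)
    c hc
    (by
      refine ⟨frobCochain_mem_cocycles 2 sh 2 hc, ?_⟩
      rw [frobCochain_apply, map_pow, hcu, hx, pow_two]
      constructor
      · rw [QuadraticAlgebra.re_mul, xQ_re, xQ_im, mul_zero, zero_add, mul_assoc, mo_mul_mo]
        refine Supp.mul (E' := fun e => e.2 = 0) ?_ supp_bet (supp_mo_left _ _ (by norm_num))
        intro a b ha hb
        exact Or.inr (by have := ha.2; simp only [Prod.snd_add]; omega)
      · rw [QuadraticAlgebra.im_mul, xQ_re, xQ_im, zero_mul, mul_zero, add_zero, zero_add,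
          mul_assoc, mo_mul_mo]
        unfold alp
        rw [mul_assoc, add_mul, mo_mul_mo, mo_mul_mo]
        refine Supp.mul E0_D1 (supp_sc _) (Supp.add (Supp.single ?_ 1) (Supp.single ?_ 1))
        · exact Or.inl (by norm_num)
        · exact Or.inr (by norm_num))
  have h1 := hux.2.2
  rw [Pi.smul_apply, map_smul, hcu, hx, smul_eq_Th, QuadraticAlgebra.im_mul, xQ_re, xQ_im,
    mul_zero, add_zero] at h1
  have h2 : (Th u).re * mo (-1) 0 + alp * (Th u).im * mo (-1) 0 =
      mo (-1) 0 * ((Th u).re + alp * (Th u).im) := by ring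
  rw [h2] at h1
  have h3 : (mo (-1) 0 * ((Th u).re + alp * (Th u).im)).coeff (-1, 0) = 0 := by
    by_contra hne
    rcases h1 _ hne with h | h
    · exact absurd h (by norm_num)
    · exact absurd h (by norm_num)
  rw [coeff_mo_mul, sub_self, AddMonoidAlgebra.coeff_add, Finsupp.add_apply,
    coeff_zero_mul supp_alp ((supp_Th_im u).mono E1_E0), coeff_zero_alp, zero_mul, add_zero,
    Th_re, AddMonoidAlgebra.coeff_add, Finsupp.add_apply,
    coeff_zero_mul (supp_phi _) supp_bet, coeff_zero_E1 (supp_phi_h u.2.2), zero_mul, add_zero,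
    coeff_zero_phi, ← psi_apply] at h3
  exact hU u hu h3

end

end Pool.Agent.Lib_helper39.FAN
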