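import Pool.Agent.Lib_helper39.FAN.Transfer

namespace Pool.Agent.Lib_helper39.FAN

open Finset

set_option linter.unusedSectionVars false

variable {R : Type*} [CommRing R] {Q : Type*} [CommRing Q] [Algebra R Q] {ι : Type*}
  [LinearOrder ι] (p : ℕ) [Fact p.Prime] [CharP R p]

lemma isUnit_prod_of (f : ι → R) (hf : ∀ j, IsUnit (algebraMap R Q (f j))) (S : Finset ι) :
    IsUnit (algebraMap R Q (∏ j ∈ S, f j)) := by
  rw [map_prod]
  exact IsUnit.prod_iff.2 fun j _ => hf j

/-- The map `R_{f_S} → Q` to an overring in which the `f_j` are invertible. -/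
noncomputable def toQ (f : ι → R) (hf : ∀ j, IsUnit (algebraMap R Q (f j))) (S : Finset ι) :
    Loc f S →ₐ[R] Q :=
  IsLocalization.Away.liftAlgHom (∏ j ∈ S, f j) (f := Algebra.ofId R Q) (isUnit_prod_of f hf S)

lemma toQ_res (f : ι → R) (hf : ∀ j, IsUnit (algebraMap R Q (f j))) {S T : Finset ι} (h : S ⊆ T)
    (x : Loc f S) : toQ f hf T (res f h x) = toQ f hf S x := by
  have := algHom_loc_ext ((toQ f hf T).comp (res f h)) (toQ f hf S)
  exact DFunLike.congr_fun this x

lemma toQ_injective (f : ι → R) (hf : ∀ j, IsUnit (algebraMap R Q (f j)))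
    (hinj : Function.Injective (algebraMap R Q)) (S : Finset ι) :
    Function.Injective (toQ f hf S) := by
  rw [injective_iff_map_eq_zero]
  intro x hx
  obtain ⟨n, a, ha⟩ := exists_smul_eq f S x
  have h1 : algebraMap R Q a = 0 := by
    rw [← AlgHom.commutes (toQ f hf S), ← ha, map_smul, hx, smul_zero]
  rw [(map_eq_zero_iff _ hinj).1 h1, map_zero] at ha
  exact smul_isUnit_cancel f (le_refl S) n (by rw [ha, smul_zero])

lemma exists_toQ_eq (f : ι → R) (hf : ∀ j, IsUnit (algebraMap R Q (f j))) (S : Finset ι) {y : Q}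
    {n : ℕ} {a : R} (h : ((∏ j ∈ S, f j) ^ n) • y = algebraMap R Q a) : ∃ x, toQ f hf S x = y := by
  obtain ⟨z, hz⟩ : ∃ z : Loc f S, ((∏ j ∈ S, f j) ^ n) • z = algebraMap R (Loc f S) a :=
    ⟨IsLocalization.mk' (Loc f S) a
      (⟨(∏ j ∈ S, f j) ^ n, n, rfl⟩ : Submonoid.powers (∏ j ∈ S, f j)), by
      rw [Algebra.smul_def]
      exact IsLocalization.mk'_spec' (Loc f S) _ _⟩
  refine ⟨z, ?_⟩
  have h1 : ((∏ j ∈ S, f j) ^ n) • toQ f hf S z = ((∏ j ∈ S, f j) ^ n) • y := by
    rw [← map_smul, hz, AlgHom.commutes, h]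
  rw [Algebra.smul_def, Algebra.smul_def, map_pow] at h1
  exact ((isUnit_prod_of f hf S).pow n).mul_left_cancel h1

lemma exists_smul_toQ (f : ι → R) (hf : ∀ j, IsUnit (algebraMap R Q (f j))) (S : Finset ι)
    (x : Loc f S) : ∃ (n : ℕ) (a : R), ((∏ j ∈ S, f j) ^ n) • toQ f hf S x = algebraMap R Q a := by
  obtain ⟨n, a, ha⟩ := exists_smul_eq f S x
  exact ⟨n, a, by rw [← map_smul, ha, AlgHom.commutes]⟩

lemma map_neg_one_pow_smul {M : Type*} [AddCommGroup M] [Module R M] (φ : M →+ M) (n : ℕ) (x : M) :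
    φ (((-1 : R) ^ n) • x) = ((-1 : R) ^ n) • φ x := by
  rcases neg_one_pow_eq_or R n with h | h
  · rw [h, one_smul, one_smul]
  · rw [h, neg_smul, neg_smul, one_smul, one_smul, map_neg]

lemma map_sgn_smul {M : Type*} [AddCommGroup M] [Module R M] (φ : M →+ M) (j : ι) (T : Finset ι)
    (x : M) : φ (sgn R j T • x) = sgn R j T • φ x :=
  map_neg_one_pow_smul φ _ x

lemma sgn_identity {j k : ι} {T : Finset ι} (hj : j ∉ T) (hk : k ∈ T) :
    sgn R k T * sgn R j ((insert j T).erase k) = - (sgn R j (insert j T) * sgn R k (insert j T)) := by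
  have hkj : k ≠ j := fun h => hj (h ▸ hk)
  have h10 := sgn_antisymm (R := R) (T := insert j T) (mem_insert_of_mem hk)
    (mem_insert_self j T) hkj
  rw [erase_insert hj] at h10
  have h11 := sgn_mul_self (R := R) j (insert j T)
  have h14 := sgn_mul_self (R := R) j ((insert j T).erase k)
  linear_combination (sgn R j (insert j T) * sgn R j ((insert j T).erase k)) * h10
    - sgn R j (insert j T) * sgn R k (insert j T) * h14
    - sgn R k T * sgn R j ((insert j T).erase k) * h11

/-- A contracting homotopy kills the Čech cohomology below the top degree. -/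
theorem mem_coboundaries_of_homotopy [Fintype ι] (f : ι → R)
    (hf : ∀ j, IsUnit (algebraMap R Q (f j))) (hinj : Function.Injective (algebraMap R Q))
    (π : ι → Q →+ Q)
    (ha : ∀ j, ∀ S : Finset ι, j ∉ S → ∀ x ∈ Set.range (toQ f hf (insert j S)),
      π j x ∈ Set.range (toQ f hf S))
    (hb : ∀ S : Finset ι, S ≠ univ → ∀ x ∈ Set.range (toQ f hf S), ∑ j, π j x = x)
    {i : ℕ} (hi : i < Fintype.card ι) {c : Cochain f} (hc : c ∈ cocycles f i) :
    c ∈ coboundaries f i := by
  classical
  refine ⟨hc.1, ?_⟩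
  let K : Finset ι → Q := fun S =>
    ∑ j ∈ univ \ S, sgn R j (insert j S) • π j (toQ f hf (insert j S) (c (insert j S)))
  have hK : ∀ S, ∃ x, toQ f hf S x = K S := by
    intro S
    have h1 : K S ∈ (toQ f hf S).range := by
      refine Subalgebra.sum_mem _ fun j hj => ?_
      refine Subalgebra.smul_mem _ ?_ _
      rw [mem_sdiff] at hj
      exact ha j S hj.2 _ ⟨_, rfl⟩
    exact h1
  choose e he using hK
  refine ⟨e, ?_⟩
  funext T
  apply toQ_injective f hf hinj T
  rw [d_apply, map_sum]
  have h0 : toQ f hf T (c T) = ∑ j, π j (toQ f hf T (c T)) := by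
    by_cases hT : T = univ
    · have : c T = 0 := hc.1 T (by rw [hT, card_univ]; omega)
      rw [this, map_zero]
      simp
    · exact (hb T hT _ ⟨_, rfl⟩).symm
  rw [h0]
  have h1 : ∀ k ∈ T, toQ f hf T (sgn R k T • res f (T.erase_subset k) (e (T.erase k))) =
      π k (toQ f hf T (c T)) - ∑ j ∈ univ \ T, sgn R j (insert j T) • π j
        (sgn R k (insert j T) • toQ f hf _ (c ((insert j T).erase k))) := by
    intro k hk
    rw [map_smul, toQ_res, he]
    have h2 : univ \ T.erase k = insert k (univ \ T) := by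
      ext x; simp only [mem_sdiff, mem_univ, true_and, mem_erase, mem_insert, not_and_or, not_not]
    simp only [K]
    rw [h2, Finset.sum_insert (by simp [hk]), smul_add, smul_smul]
    have h3 : insert k (T.erase k) = T := insert_erase hk
    have h4 : sgn R k T * sgn R k (insert k (T.erase k)) = 1 := by rw [h3, sgn_mul_self]
    rw [h4, one_smul]
    have h5 : toQ f hf (insert k (T.erase k)) (c (insert k (T.erase k))) = toQ f hf T (c T) := by
      rw [h3]
    rw [h5, sub_eq_add_neg, ← Finset.sum_neg_distrib, Finset.smul_sum]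
    congr 1
    refine Finset.sum_congr rfl fun j hj => ?_
    rw [mem_sdiff] at hj
    have hkj : k ≠ j := fun h => hj.2 (h ▸ hk)
    have h6 : insert j (T.erase k) = (insert j T).erase k := (erase_insert_of_ne (Ne.symm hkj)).symm
    rw [h6, map_sgn_smul, smul_smul, smul_smul, ← neg_smul, sgn_identity hj.2 hk]
  rw [Finset.sum_congr rfl h1, Finset.sum_sub_distrib, Finset.sum_comm]
  have h7 : ∀ j ∈ univ \ T, ∑ k ∈ T, sgn R j (insert j T) • π j
      (sgn R k (insert j T) • toQ f hf _ (c ((insert j T).erase k))) =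
      - π j (toQ f hf T (c T)) := by
    intro j hj
    rw [mem_sdiff] at hj
    rw [← Finset.smul_sum, ← map_sum]
    have h8 : d f c (insert j T) = 0 := congrFun hc.2 (insert j T)
    have h9 := congrArg (toQ f hf (insert j T)) h8
    rw [d_apply, Finset.sum_insert hj.2, map_add, map_smul, toQ_res, map_sum, map_zero] at h9
    have h10 : toQ f hf _ (c ((insert j T).erase j)) = toQ f hf T (c T) := by
      rw [erase_insert hj.2]
    rw [h10] at h9
    have h11 : ∑ k ∈ T, sgn R k (insert j T) • toQ f hf _ (c ((insert j T).erase k)) =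
        - (sgn R j (insert j T) • toQ f hf T (c T)) := by
      rw [eq_neg_iff_add_eq_zero, add_comm, ← h9]
      congr 1
      refine Finset.sum_congr rfl fun k _ => ?_
      rw [map_smul, toQ_res]
    rw [h11, map_neg, map_sgn_smul, smul_neg, smul_smul, sgn_mul_self, one_smul]
  rw [Finset.sum_congr rfl h7, Finset.sum_neg_distrib, sub_neg_eq_add]
  rw [← Finset.sum_sdiff (Finset.subset_univ T), add_comm]

/-- The `p`-th power map of an `R`-algebra, as a Frobenius action. -/
noncomputable def frobAlg (Q : Type*) [CommRing Q] [Algebra R Q] : Q →ₛₗ[frobenius R p] Q where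
  toFun x := x ^ p
  map_add' a b := add_pow_p (R := R) p a b
  map_smul' r a := by
    simp only [Algebra.smul_def, mul_pow, frobenius_def, map_pow]

lemma frobAlg_apply (x : Q) : frobAlg (R := R) p Q x = x ^ p := rfl

lemma mem_comap_frobAlg (N : Submodule R Q) (x : Q) :
    x ∈ N.comap (frobAlg (R := R) p Q) ↔ x ^ p ∈ N := Iff.rfl

/-- Top degree anti-nilpotency can be tested in an overring. -/
theorem ANU_top (U : Submonoid R) [Fintype ι] (f : ι → R)
    (hf : ∀ j, IsUnit (algebraMap R Q (f j))) (hinj : Function.Injective (algebraMap R Q))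
    (π : ι → Q →+ Q) (B : Submodule R Q) (hFB : ∀ x ∈ B, x ^ p ∈ B)
    (ha : ∀ j, ∀ x ∈ B, π j x ∈ Set.range (toQ f hf (univ.erase j)))
    (hb : ∀ x ∈ B, ∑ j, π j x = x)
    (h : ANU p U (frobAlg p Q) ⊤ B) :
    ANU p U (frobCochain p f) (cocycles f (Fintype.card ι)) (coboundaries f (Fintype.card ι)) := by
  classical
  let g : Cochain f →ₗ[R] Q :=
    { toFun := fun c => toQ f hf univ (c univ)
      map_add' := fun a b => by rw [Pi.add_apply, map_add]
      map_smul' := fun r a => by rw [Pi.smul_apply, map_smul, RingHom.id_apply] }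
  refine ANU_of_map p U _ (frobAlg p Q) g (fun c => ?_) le_top hFB (fun _ _ => trivial) ?_ h
  · show toQ f hf univ (c univ ^ p) = (toQ f hf univ (c univ)) ^ p
    rw [map_pow]
  · intro z hz hgz
    refine ⟨hz.1, ?_⟩
    have h1 : ∀ S : Finset ι, ∃ x : Loc f S, ∀ j, S = univ.erase j →
        toQ f hf S x = sgn R j univ • π j (toQ f hf univ (z univ)) := by
      intro S
      by_cases hS : ∃ j, S = univ.erase j
      · obtain ⟨j, rfl⟩ := hS
        obtain ⟨x, hx⟩ := ha j _ hgz
        refine ⟨sgn R j univ • x, ?_⟩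
        intro j' hj'
        have : j = j' := by
          by_contra hne
          have h2 : j ∈ univ.erase j' := mem_erase.2 ⟨hne, mem_univ _⟩
          rw [← hj'] at h2
          exact notMem_erase j univ h2
        subst this
        rw [map_smul, hx]
        rfl
      · exact ⟨0, fun j hj => absurd ⟨j, hj⟩ hS⟩
    choose e he using h1
    refine ⟨proj f (Fintype.card ι - 1) e, ?_⟩
    funext T
    by_cases hT : T = univ
    · subst hT
      apply toQ_injective f hf hinj univ
      rw [d_apply, map_sum]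
      have h3 : toQ f hf univ (z univ) = ∑ j, π j (toQ f hf univ (z univ)) := (hb _ hgz).symm
      rw [h3]
      refine Finset.sum_congr rfl fun j _ => ?_
      have h4 : proj f (Fintype.card ι - 1) e (univ.erase j) = e (univ.erase j) := by
        simp only [proj]
        rw [if_pos]
        rw [card_erase_of_mem (mem_univ j), card_univ]
      rw [map_smul, toQ_res, h4, he _ j rfl, smul_smul, sgn_mul_self, one_smul]
    · have h5 : #T ≠ Fintype.card ι := fun h => hT (Finset.card_eq_iff_eq_univ T |>.1 h)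
      rw [hz.1 T h5, d_proj]
      simp only [proj]
      rw [if_neg]
      intro h6
      apply h5
      have h7 : #T ≤ Fintype.card ι := Finset.card_le_univ T
      omega

end Pool.Agent.Lib_helper39.FAN
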