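import Pool.Agent.Lib_helper39.FAN.Top5

namespace Pool.Agent.Lib_helper39.FAN

open Finset

noncomputable section

/-- All the Čech cohomology modules of `R` on `s, t, h` are anti-nilpotent, even after any
localization. -/
theorem ANU_RR (U : Submonoid RR) (i : ℕ) :
    ANU 2 U (frobCochain 2 ff) (cocycles ff i) (coboundaries ff i) := by
  rcases lt_trichotomy i 3 with hi | hi | hi
  · intro N hBN _ _ x hx _
    exact ⟨1, U.one_mem, N.smul_mem 1 (hBN (cocycles_le_coboundaries hi hx))⟩
  · subst hi
    have h := ANU_top (Q := QQ) 2 U ff ff_isUnit jj_injective pj BB (fun x hx => BB_sq x hx)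
      (fun j x _ => Good.pj_mem j) (fun x hx => sum_pj x (fun i e he => Good.exists hx he))
      (by
        intro N hBN _ hF x _ hx
        refine ⟨1, U.one_mem, ?_⟩
        rw [one_smul]
        exact top_AN N hBN (fun y hy => hF y hy) x hx)
    simpa using h
  · intro N _ _ _ x hx _
    have hx0 : x = 0 := by
      funext S
      apply hx.1 S
      have : #S ≤ Fintype.card (Fin 3) := Finset.card_le_univ S
      simp only [Fintype.card_fin] at this
      omega
    exact ⟨1, U.one_mem, by rw [hx0, smul_zero]; exact N.zero_mem⟩

end

end Pool.Agent.Lib_helper39.FAN
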