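import Mathlib

/-!
# Čech local cohomology with its Frobenius action, and (F-)anti-nilpotency

For a family `f = (f_0, …, f_{n-1})` of elements of a commutative ring `R`, the Čech complex is
`0 → R → ∏_j R_{f_j} → ∏_{j<k} R_{f_j f_k} → ⋯ → R_{f_0 ⋯ f_{n-1}} → 0`.
We write it as one graded object: a cochain is a family `(c_S)` indexed by the sets `S` of indices,
with `c_S` in the localization `R_{f_S}` of `R` at `f_S = ∏_{j ∈ S} f_j`; the component `c_S` has
degree `#S`. If `R` is Noetherian, the cohomology in degree `i` is the local cohomology module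
`H^i_I(R)` for any ideal `I` with the same radical as `(f_0, …, f_{n-1})`.
-/

namespace Pool.Agent.Lib_helper39.FAN.Pub

open Finset

section Cech

variable {R : Type*} [CommRing R] {n : ℕ}

/-- `R_{f_S}`: the localization of `R` at `f_S = ∏_{j ∈ S} f_j`. -/
def Loc (f : Fin n → R) (S : Finset (Fin n)) : Type _ :=
  Localization.Away (∏ j ∈ S, f j)

noncomputable instance instCommRingLoc (f : Fin n → R) (S : Finset (Fin n)) :
    CommRing (Loc f S) :=
  (inferInstance : CommRing (Localization.Away (∏ j ∈ S, f j)))

noncomputable instance instAlgebraLoc (f : Fin n → R) (S : Finset (Fin n)) :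
    Algebra R (Loc f S) :=
  (inferInstance : Algebra R (Localization.Away (∏ j ∈ S, f j)))

instance instIsLocalizationLoc (f : Fin n → R) (S : Finset (Fin n)) :
    IsLocalization.Away (∏ j ∈ S, f j) (Loc f S) :=
  (inferInstance : IsLocalization.Away (∏ j ∈ S, f j) (Localization.Away (∏ j ∈ S, f j)))

lemma isUnit_loc (f : Fin n → R) {S T : Finset (Fin n)} (h : S ⊆ T) :
    IsUnit (algebraMap R (Loc f T) (∏ j ∈ S, f j)) :=
  isUnit_of_dvd_unit (map_dvd _ (Finset.prod_dvd_prod_of_subset S T f h))
    (IsLocalization.Away.algebraMap_isUnit _)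

/-- The canonical map `R_{f_S} → R_{f_T}` for `S ⊆ T`. -/
noncomputable def res (f : Fin n → R) {S T : Finset (Fin n)} (h : S ⊆ T) : Loc f S →+* Loc f T :=
  IsLocalization.Away.lift (∏ j ∈ S, f j) (isUnit_loc f h)

/-- Čech cochains on `f`, all degrees together: families `(c_S)` with `c_S ∈ R_{f_S}`. -/
def Cochain (f : Fin n → R) : Type _ := (S : Finset (Fin n)) → Loc f S

noncomputable instance instAddCommGroupCochain (f : Fin n → R) : AddCommGroup (Cochain f) :=
  (inferInstance : AddCommGroup ((S : Finset (Fin n)) → Loc f S))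

noncomputable instance instModuleCochain (f : Fin n → R) : Module R (Cochain f) :=
  (inferInstance : Module R ((S : Finset (Fin n)) → Loc f S))

/-- The Čech differential `(d c)_T = ∑_{j ∈ T} (-1)^{#{k ∈ T : k < j}} c_{T \ {j}}|_{R_{f_T}}`. -/
noncomputable def dFun (f : Fin n → R) (c : Cochain f) : Cochain f := fun T =>
  ∑ j ∈ T, (-1) ^ #{k ∈ T | k < j} * res f (T.erase_subset j) (c (T.erase j))

lemma dFun_add (f : Fin n → R) (a b : Cochain f) : dFun f (a + b) = dFun f a + dFun f b := by
  funext T
  show _ = dFun f a T + dFun f b T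
  unfold dFun
  rw [← Finset.sum_add_distrib]
  refine Finset.sum_congr rfl fun j _ => ?_
  rw [← mul_add, ← map_add]
  rfl

lemma dFun_smul (f : Fin n → R) (r : R) (a : Cochain f) :
    dFun f (r • a) = RingHom.id R r • dFun f a := by
  funext T
  show _ = r • dFun f a T
  unfold dFun
  rw [Finset.smul_sum]
  refine Finset.sum_congr rfl fun j _ => ?_
  have h1 : (r • a) (T.erase j) = algebraMap R _ r * a (T.erase j) :=
    Algebra.smul_def r (a (T.erase j))
  have h2 : res f (T.erase_subset j) (algebraMap R _ r) = algebraMap R _ r :=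
    IsLocalization.Away.lift_eq _ _ _
  rw [h1, map_mul, h2, Algebra.smul_def]
  ring

/-- The Čech differential, as a linear map. -/
noncomputable def d (f : Fin n → R) : Cochain f →ₗ[R] Cochain f where
  toFun := dFun f
  map_add' := dFun_add f
  map_smul' := dFun_smul f

/-- The cochains of degree `i`: those with `c_S = 0` unless `#S = i`. -/
noncomputable def deg (f : Fin n → R) (i : ℕ) : Submodule R (Cochain f) :=
  Submodule.pi {S | #S ≠ i} fun _ => ⊥

/-- The Čech cocycles of degree `i`. -/
noncomputable def cocycles (f : Fin n → R) (i : ℕ) : Submodule R (Cochain f) :=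
  deg f i ⊓ LinearMap.ker (d f)

/-- The Čech coboundaries of degree `i`: the cochains of degree `i` of the form `d e` (as `d` raises
degrees by one, `e` can be taken of degree `i - 1`). -/
noncomputable def coboundaries (f : Fin n → R) (i : ℕ) : Submodule R (Cochain f) :=
  deg f i ⊓ LinearMap.range (d f)

/-- The `i`-th Čech cohomology module of `R` on the family `f`. -/
def Cohomology (f : Fin n → R) (i : ℕ) : Type _ :=
  ↥(cocycles f i) ⧸ (coboundaries f i).submoduleOf (cocycles f i)

noncomputable instance instAddCommGroupCohomology (f : Fin n → R) (i : ℕ) :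
    AddCommGroup (Cohomology f i) :=
  (inferInstance : AddCommGroup (↥(cocycles f i) ⧸ (coboundaries f i).submoduleOf (cocycles f i)))

noncomputable instance instModuleCohomology (f : Fin n → R) (i : ℕ) :
    Module R (Cohomology f i) :=
  (inferInstance : Module R (↥(cocycles f i) ⧸ (coboundaries f i).submoduleOf (cocycles f i)))

variable (p : ℕ)

/-- The `p`-th power map on Čech cochains. -/
noncomputable def frobFun (f : Fin n → R) (c : Cochain f) : Cochain f := fun S => c S ^ p

variable [Fact p.Prime] [CharP R p]

lemma add_pow_p (A : Type*) [CommRing A] [Algebra R A] (a b : A) :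
    (a + b) ^ p = a ^ p + b ^ p := by
  rcases subsingleton_or_nontrivial A with h | h
  · exact Subsingleton.elim _ _
  · have hp0 : (p : A) = 0 := by
      rw [← map_natCast (algebraMap R A) p, CharP.cast_eq_zero, map_zero]
    have : CharP A p := (CharP.charP_iff_prime_eq_zero Fact.out).2 hp0
    exact add_pow_char a b p

lemma frobFun_add (f : Fin n → R) (a b : Cochain f) :
    frobFun p f (a + b) = frobFun p f a + frobFun p f b := by
  funext S
  exact add_pow_p (R := R) p (Loc f S) (a S) (b S)

lemma frobFun_smul (f : Fin n → R) (r : R) (a : Cochain f) :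
    frobFun p f (r • a) = frobenius R p r • frobFun p f a := by
  funext S
  show (r • a S) ^ p = (r ^ p) • (a S) ^ p
  rw [Algebra.smul_def, Algebra.smul_def, mul_pow, map_pow]

/-- The Frobenius action on Čech cochains. -/
noncomputable def frobCochain (f : Fin n → R) : Cochain f →ₛₗ[frobenius R p] Cochain f where
  toFun := frobFun p f
  map_add' := frobFun_add p f
  map_smul' := frobFun_smul p f

lemma dFun_frobFun (f : Fin n → R) (c : Cochain f) :
    dFun f (frobFun p f c) = frobFun p f (dFun f c) := by
  funext T
  let φ : Loc f T →+ Loc f T :=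
    { toFun := fun x => x ^ p
      map_zero' := zero_pow (Fact.out : p.Prime).ne_zero
      map_add' := fun a b => add_pow_p (R := R) p (Loc f T) a b }
  show dFun f (frobFun p f c) T = φ (dFun f c T)
  unfold dFun
  rw [map_sum]
  refine Finset.sum_congr rfl fun j _ => ?_
  have h : ((-1 : R) ^ #{k ∈ T | k < j}) ^ p = (-1 : R) ^ #{k ∈ T | k < j} := by
    rw [← frobenius_def, map_pow, map_neg, map_one]
  have h' : ((-1 : Loc f T) ^ #{k ∈ T | k < j}) ^ p = (-1 : Loc f T) ^ #{k ∈ T | k < j} := by
    have := congrArg (algebraMap R (Loc f T)) h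
    rwa [map_pow, map_pow, map_neg, map_one] at this
  show _ = ((-1 : Loc f T) ^ #{k ∈ T | k < j} * res f (T.erase_subset j) (c (T.erase j))) ^ p
  rw [mul_pow, h', ← map_pow]
  rfl

omit [CharP R p] in
lemma frobFun_mem_deg (f : Fin n → R) (i : ℕ) {c : Cochain f} (hc : c ∈ deg f i) :
    frobFun p f c ∈ deg f i := by
  intro S hS
  have h : c S = 0 := hc S hS
  show c S ^ p = 0
  rw [h, zero_pow (Fact.out : p.Prime).ne_zero]

lemma frob_cocycles (f : Fin n → R) (i : ℕ) (c : ↥(cocycles f i)) :
    (frobCochain p f).domRestrict (cocycles f i) c ∈ cocycles f i := by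
  obtain ⟨c, h1, h2⟩ := c
  refine ⟨frobFun_mem_deg p f i h1, ?_⟩
  have h3 : dFun f c = 0 := h2
  show dFun f (frobFun p f c) = 0
  rw [dFun_frobFun, h3]
  exact map_zero (frobCochain p f)

/-- The Frobenius action on Čech cocycles. -/
noncomputable def frobCocycles (f : Fin n → R) (i : ℕ) :
    ↥(cocycles f i) →ₛₗ[frobenius R p] ↥(cocycles f i) :=
  LinearMap.codRestrict (cocycles f i) ((frobCochain p f).domRestrict (cocycles f i))
    (frob_cocycles p f i)

lemma frob_coboundaries (f : Fin n → R) (i : ℕ) :
    (coboundaries f i).submoduleOf (cocycles f i) ≤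
      ((coboundaries f i).submoduleOf (cocycles f i)).comap (frobCocycles p f i) := by
  rintro ⟨_, hc⟩ ⟨h1, e, rfl⟩
  exact ⟨frobFun_mem_deg p f i h1, frobFun p f e, dFun_frobFun p f e⟩

/-- The natural Frobenius action on the Čech cohomology module `H^i(f; R)`. -/
noncomputable def frobCohomology (f : Fin n → R) (i : ℕ) :
    Cohomology f i →ₛₗ[frobenius R p] Cohomology f i :=
  Submodule.mapQ _ _ (frobCocycles p f i) (frob_coboundaries p f i)

/-- A Frobenius action `F` on an `R`-module `M` (an additive map with `F (r • x) = r ^ p • F x`) is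
anti-nilpotent when for every `F`-stable submodule `N` of `M` the map induced by `F` on `M ⧸ N` is
injective. -/
def IsAntiNilpotent {M : Type*} [AddCommGroup M] [Module R M]
    (F : M →ₛₗ[frobenius R p] M) : Prop :=
  ∀ (N : Submodule R M) (hN : N ≤ N.comap F), Function.Injective (N.mapQ N F hN)

end Cech

/-- A local ring `R` of prime characteristic `p` is `F`-anti-nilpotent when the local cohomology
modules `H^i_𝔪(R)`, with their natural Frobenius actions, are all anti-nilpotent. Local cohomology is
computed by the Čech complex on a finite family `f` with `√(f) = 𝔪`; it does not depend on `f`, and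
we ask for all such families. -/
def IsFAntiNilpotent (p : ℕ) [Fact p.Prime] (R : Type*) [CommRing R] [IsLocalRing R]
    [CharP R p] : Prop :=
  ∀ (n : ℕ) (f : Fin n → R),
    (Ideal.span (Set.range f)).radical = IsLocalRing.maximalIdeal R →
      ∀ i : ℕ, IsAntiNilpotent p (frobCohomology p f i)

end Pool.Agent.Lib_helper39.FAN.Pub
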