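import Pool.Agent.Lib_helper39.FAN.Defs

namespace Pool.Agent.Lib_helper39.FAN

open Finset

set_option linter.unusedSectionVars false

variable {R : Type*} [CommRing R] {ι : Type*} [LinearOrder ι]

lemma algHom_loc_ext {f : ι → R} {S : Finset ι} {A : Type*} [CommRing A] [Algebra R A]
    (φ ψ : Loc f S →ₐ[R] A) : φ = ψ := by
  apply AlgHom.coe_ringHom_injective
  apply IsLocalization.ringHom_ext (Submonoid.powers (∏ j ∈ S, f j))
  ext r
  simp

@[simp] lemma res_res (f : ι → R) {S T U : Finset ι} (h : S ⊆ T) (h' : T ⊆ U) (x : Loc f S) :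
    res f h' (res f h x) = res f (h.trans h') x := by
  have := algHom_loc_ext ((res f h').comp (res f h)) (res f (h.trans h'))
  exact DFunLike.congr_fun this x

@[simp] lemma res_self (f : ι → R) {S : Finset ι} (h : S ⊆ S) (x : Loc f S) :
    res f h x = x := by
  have := algHom_loc_ext (res f h) (AlgHom.id R _)
  exact DFunLike.congr_fun this x

lemma res_congr (f : ι → R) (c : Cochain f) {S S' T : Finset ι} (hSS : S = S') (h : S ⊆ T)
    (h' : S' ⊆ T) : res f h (c S) = res f h' (c S') := by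
  subst hSS
  rfl

lemma res_eq_self (f : ι → R) (c : Cochain f) {S T : Finset ι} (hST : S = T) (h : S ⊆ T) :
    res f h (c S) = c T := by
  subst hST
  exact res_self f _ _

/-- the sign in the Čech differential -/
def sgn (R : Type*) [CommRing R] (j : ι) (T : Finset ι) : R := (-1 : R) ^ #{k ∈ T | k < j}

lemma d_apply (f : ι → R) (c : Cochain f) (T : Finset ι) :
    d f c T = ∑ j ∈ T, sgn R j T • res f (T.erase_subset j) (c (T.erase j)) := rfl

lemma sgn_mul_self (j : ι) (T : Finset ι) : sgn R j T * sgn R j T = 1 := by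
  unfold sgn
  rw [← mul_pow]; simp

lemma sgn_erase_of_lt {j k : ι} {T : Finset ι} (hk : k ∈ T) (h : k < j) :
    sgn R j T = - sgn R j (T.erase k) := by
  unfold sgn
  have : #{l ∈ T | l < j} = #{l ∈ T.erase k | l < j} + 1 := by
    rw [← Finset.card_erase_add_one (a := k) (by simp [hk, h])]
    congr 1
    congr 1
    ext l; simp; tauto
  rw [this, pow_succ]; simp

lemma sgn_erase_of_not_lt {j k : ι} {T : Finset ι} (h : ¬ k < j) :
    sgn R j T = sgn R j (T.erase k) := by
  unfold sgn
  congr 2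
  ext l; simp only [mem_filter, mem_erase]
  constructor
  · rintro ⟨h1, h2⟩
    exact ⟨⟨fun h3 => h (h3 ▸ h2), h1⟩, h2⟩
  · rintro ⟨⟨_, h1⟩, h2⟩; exact ⟨h1, h2⟩

/-- The basic antisymmetry. -/
lemma sgn_antisymm {j k : ι} {T : Finset ι} (hj : j ∈ T) (hk : k ∈ T) (hjk : j ≠ k) :
    sgn R j T * sgn R k (T.erase j) = - (sgn R k T * sgn R j (T.erase k)) := by
  rcases lt_or_gt_of_ne hjk with h | h
  · rw [sgn_erase_of_not_lt (R := R) (j := j) (k := k) (T := T) (not_lt.2 h.le),
      sgn_erase_of_lt (R := R) (j := k) (k := j) (T := T) hj h]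
    ring
  · rw [sgn_erase_of_not_lt (R := R) (j := k) (k := j) (T := T) (not_lt.2 h.le),
      sgn_erase_of_lt (R := R) (j := j) (k := k) (T := T) hk h]
    ring

theorem d_d (f : ι → R) (c : Cochain f) : d f (d f c) = 0 := by
  funext T
  rw [d_apply]
  simp only [d_apply, map_sum, map_smul, res_res, Finset.smul_sum, smul_smul]
  rw [Finset.sum_sigma']
  apply Finset.sum_involution (fun x _ => ⟨x.2, x.1⟩)
  · rintro ⟨j, k⟩ h
    simp only [mem_sigma, mem_erase] at h
    obtain ⟨hj, hkj, hk⟩ := h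
    simp only
    rw [res_congr f c (Finset.erase_right_comm : (T.erase j).erase k = (T.erase k).erase j)
      _ (((T.erase k).erase_subset j).trans (T.erase_subset k)), ← add_smul,
      sgn_antisymm hj hk (Ne.symm hkj)]
    simp
  · rintro ⟨j, k⟩ h _ h'
    simp only [mem_sigma, mem_erase] at h
    exact h.2.1 (congrArg Sigma.fst h')
  · rintro ⟨j, k⟩ h
    rfl
  · rintro ⟨j, k⟩ h
    simp only [mem_sigma, mem_erase] at h ⊢
    exact ⟨h.2.2, Ne.symm h.2.1, h.1⟩

end Pool.Agent.Lib_helper39.FAN
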