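import Pool.Agent.Lib_helper39.FAN.Neg2

namespace Pool.Agent.Lib_helper39.FAN

open Finset

noncomputable section

/-- the inclusion of the polynomial ring in `R` -/
def inc : TT →+* RR := RingHom.codRestrict (Cub.of _ _) RR (fun _ => ⟨dvd_zero _, dvd_zero _⟩)

lemma inc_X (k : Fin 3) : inc (MvPolynomial.X k) = ff k := rfl

/-- the element `h y²` of `R` -/
def hyy : RR := ⟨⟨0, 0, MvPolynomial.X 2⟩, ⟨dvd_zero _, dvd_refl _⟩⟩

lemma eq_combination (z : RR) : ∃ a b c : TT, z = inc a + inc b * hy + inc c * hyy := by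
  obtain ⟨z, ⟨b, hb⟩, ⟨c, hc⟩⟩ := z
  refine ⟨z.c0, b, c, ?_⟩
  apply Subtype.ext
  show z = Cub.of _ _ z.c0 + Cub.of _ _ b * ⟨0, MvPolynomial.X 2, 0⟩ +
    Cub.of _ _ c * ⟨0, 0, MvPolynomial.X 2⟩
  ext1
  · simp
  · simp [hb, mul_comm]
  · simp [hc, mul_comm]

instance : IsNoetherianRing RR := by
  let F : MvPolynomial (Fin 2) TT →+* RR := MvPolynomial.eval₂Hom inc ![hy, hyy]
  refine isNoetherianRing_of_surjective _ _ F ?_
  intro z
  obtain ⟨a, b, c, rfl⟩ := eq_combination z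
  refine ⟨MvPolynomial.C a + MvPolynomial.C b * MvPolynomial.X 0 +
    MvPolynomial.C c * MvPolynomial.X 1, ?_⟩
  simp [F]

lemma sq_eq (z : RR) : ∃ w : RR, z ^ 2 = inc z.1.c0 * inc z.1.c0 + ff 2 * w := by
  obtain ⟨z, ⟨b, hb⟩, ⟨c, hc⟩⟩ := z
  refine ⟨⟨⟨0, (MvPolynomial.X 2 + MvPolynomial.X 0 ^ 2) * (MvPolynomial.X 2 * c ^ 2),
    MvPolynomial.X 2 * (b ^ 2 + MvPolynomial.X 1 * c ^ 2)⟩, ⟨?_, ?_⟩⟩, ?_⟩
  · exact Dvd.intro_left ((MvPolynomial.X 2 + MvPolynomial.X 0 ^ 2) * c ^ 2) (by ring)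
  · exact dvd_mul_right _ _
  apply Subtype.ext
  show z ^ 2 = Cub.of _ _ z.c0 * Cub.of _ _ z.c0 + Cub.of _ _ (MvPolynomial.X 2) *
    ⟨0, (MvPolynomial.X 2 + MvPolynomial.X 0 ^ 2) * (MvPolynomial.X 2 * c ^ 2),
    MvPolynomial.X 2 * (b ^ 2 + MvPolynomial.X 1 * c ^ 2)⟩
  have h2 : (2 : TT) = 0 := CharTwo.two_eq_zero
  rw [pow_two]
  ext1
  · simp only [Cub.mul_c0, Cub.add_c0, Cub.of_apply_c0, Cub.of_apply_c1, Cub.of_apply_c2]
    linear_combination ((MvPolynomial.X 2 + MvPolynomial.X 0 ^ 2) * (z.c1 * z.c2)) * h2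
  · simp only [Cub.mul_c1, Cub.add_c1, Cub.of_apply_c0, Cub.of_apply_c1, Cub.of_apply_c2]
    rw [hc]
    linear_combination (z.c0 * z.c1 + MvPolynomial.X 1 * (z.c1 * (MvPolynomial.X 2 * c))) * h2
  · simp only [Cub.mul_c2, Cub.add_c2, Cub.of_apply_c0, Cub.of_apply_c1, Cub.of_apply_c2]
    rw [hc, hb]
    linear_combination (z.c0 * (MvPolynomial.X 2 * c)) * h2

/-- the residue map at the origin -/
def ev0 : TT →+* ZMod 2 := MvPolynomial.eval₂Hom (RingHom.id (ZMod 2)) 0

lemma ev0_X (k : Fin 3) : ev0 (MvPolynomial.X k) = 0 := by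
  unfold ev0
  rw [MvPolynomial.coe_eval₂Hom, MvPolynomial.eval₂_X]
  rfl

/-- the residue map of `R` at the origin -/
def ep : RR →+* ZMod 2 :=
  (Cub.lift (t := MvPolynomial.X 1) (q := MvPolynomial.X 2 + MvPolynomial.X 0 ^ 2) ev0 0 (by
    rw [map_add, map_pow, ev0_X 2, ev0_X 0]; ring)).comp RR.subtype

lemma ep_apply (r : RR) : ep r = ev0 r.1.c0 := by
  simp [ep, Cub.lift_apply]

/-- the maximal ideal of the origin -/
def nn : Ideal RR := RingHom.ker ep

instance : nn.IsPrime := RingHom.ker_isPrime ep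

/-- the prime ideal `P` -/
def PP : Ideal RR := RingHom.ker psi

instance : PP.IsPrime := RingHom.ker_isPrime psi

/-- polynomial version of `ev` -/
def evp : TT →+* Polynomial (ZMod 2) :=
  MvPolynomial.eval₂Hom Polynomial.C ![0, Polynomial.X, 0]

lemma evp_X0 : evp (MvPolynomial.X 0) = 0 := by
  unfold evp
  rw [MvPolynomial.coe_eval₂Hom, MvPolynomial.eval₂_X]
  rfl

lemma evp_X1 : evp (MvPolynomial.X 1) = Polynomial.X := by
  unfold evp
  rw [MvPolynomial.coe_eval₂Hom, MvPolynomial.eval₂_X]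
  rfl

lemma evp_X2 : evp (MvPolynomial.X 2) = 0 := by
  unfold evp
  rw [MvPolynomial.coe_eval₂Hom, MvPolynomial.eval₂_X]
  rfl

lemma evp_C (c : ZMod 2) : evp (MvPolynomial.C c) = Polynomial.C c := by
  unfold evp
  rw [MvPolynomial.coe_eval₂Hom, MvPolynomial.eval₂_C]

lemma ev_eq (a : TT) : ev a = algebraMap (Polynomial (ZMod 2)) KK (evp a) := by
  induction a using MvPolynomial.induction_on with
  | C c =>
    rw [ev_C, evp_C, ← Polynomial.algebraMap_eq, ← IsScalarTower.algebraMap_apply]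
  | add a b ha hb => rw [map_add, map_add, map_add, ha, hb]
  | mul_X a i ha =>
    rw [map_mul, map_mul, map_mul, ha]
    congr 1
    fin_cases i
    · show ev (MvPolynomial.X 0) = algebraMap _ _ (evp (MvPolynomial.X 0))
      rw [ev_X0, evp_X0, map_zero]
    · show ev (MvPolynomial.X 1) = algebraMap _ _ (evp (MvPolynomial.X 1))
      rw [ev_X1, evp_X1]; rfl
    · show ev (MvPolynomial.X 2) = algebraMap _ _ (evp (MvPolynomial.X 2))
      rw [ev_X2, evp_X2, map_zero]

lemma evp_eq_zero {a : TT} (h : ev a = 0) : evp a = 0 := by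
  rw [ev_eq] at h
  exact (map_eq_zero_iff _ (IsFractionRing.injective (Polynomial (ZMod 2)) KK)).1 h

lemma ev0_eq (a : TT) : ev0 a = (evp a).eval 0 := by
  induction a using MvPolynomial.induction_on with
  | C c =>
    rw [evp_C, Polynomial.eval_C]
    unfold ev0
    rw [MvPolynomial.coe_eval₂Hom, MvPolynomial.eval₂_C]
    rfl
  | add a b ha hb => rw [map_add, map_add, Polynomial.eval_add, ha, hb]
  | mul_X a i ha =>
    rw [map_mul, map_mul, Polynomial.eval_mul, ha, ev0_X]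
    congr 1
    fin_cases i
    · show 0 = (evp (MvPolynomial.X 0)).eval 0
      rw [evp_X0, Polynomial.eval_zero]
    · show 0 = (evp (MvPolynomial.X 1)).eval 0
      rw [evp_X1, Polynomial.eval_X]
    · show 0 = (evp (MvPolynomial.X 2)).eval 0
      rw [evp_X2, Polynomial.eval_zero]

lemma PP_le_nn : PP ≤ nn := by
  intro z hz
  have h1 : ev z.1.c0 = 0 := by rw [← psi_apply]; exact hz
  show ep z = 0
  rw [ep_apply, ev0_eq, evp_eq_zero h1, Polynomial.eval_zero]

/-- going back from one variable -/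
def back : Polynomial (ZMod 2) →+* TT :=
  Polynomial.eval₂RingHom MvPolynomial.C (MvPolynomial.X 1)

lemma sub_back_mem (a : TT) :
    a - back (evp a) ∈ Ideal.span {(MvPolynomial.X 0 : TT), MvPolynomial.X 2} := by
  have h0 : (MvPolynomial.X 0 : TT) ∈ Ideal.span {(MvPolynomial.X 0 : TT), MvPolynomial.X 2} :=
    Ideal.subset_span (by simp)
  have h2 : (MvPolynomial.X 2 : TT) ∈ Ideal.span {(MvPolynomial.X 0 : TT), MvPolynomial.X 2} :=
    Ideal.subset_span (by simp)
  induction a using MvPolynomial.induction_on with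
  | C c =>
    rw [evp_C]
    have : back (Polynomial.C c) = MvPolynomial.C c := by
      simp [back]
    rw [this, sub_self]
    exact Ideal.zero_mem _
  | add a b ha hb =>
    rw [map_add, map_add]
    have : a + b - (back (evp a) + back (evp b)) = (a - back (evp a)) + (b - back (evp b)) := by
      ring
    rw [this]
    exact Ideal.add_mem _ ha hb
  | mul_X a i ha =>
    rw [map_mul, map_mul]
    have : a * MvPolynomial.X i - back (evp a) * back (evp (MvPolynomial.X i)) =
        MvPolynomial.X i * (a - back (evp a)) +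
          back (evp a) * (MvPolynomial.X i - back (evp (MvPolynomial.X i))) := by
      ring
    rw [this]
    refine Ideal.add_mem _ (Ideal.mul_mem_left _ _ ha) (Ideal.mul_mem_left _ _ ?_)
    fin_cases i
    · show MvPolynomial.X 0 - back (evp (MvPolynomial.X 0)) ∈ _
      rw [evp_X0, map_zero, sub_zero]
      exact h0
    · show MvPolynomial.X 1 - back (evp (MvPolynomial.X 1)) ∈ _
      rw [evp_X1]
      have : back Polynomial.X = MvPolynomial.X 1 := by simp [back]
      rw [this, sub_self]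
      exact Ideal.zero_mem _
    · show MvPolynomial.X 2 - back (evp (MvPolynomial.X 2)) ∈ _
      rw [evp_X2, map_zero, sub_zero]
      exact h2

lemma mem_span_of_ev {a : TT} (h : ev a = 0) :
    a ∈ Ideal.span {(MvPolynomial.X 0 : TT), MvPolynomial.X 2} := by
  have := sub_back_mem a
  rwa [evp_eq_zero h, map_zero, sub_zero] at this

lemma sub_C_mem (a : TT) :
    a - MvPolynomial.C (ev0 a) ∈ Ideal.span (Set.range (MvPolynomial.X : Fin 3 → TT)) := by
  induction a using MvPolynomial.induction_on with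
  | C c =>
    have : ev0 (MvPolynomial.C c) = c := by
      unfold ev0
      rw [MvPolynomial.coe_eval₂Hom, MvPolynomial.eval₂_C]
      rfl
    rw [this, sub_self]
    exact Ideal.zero_mem _
  | add a b ha hb =>
    rw [map_add, map_add]
    have : a + b - (MvPolynomial.C (ev0 a) + MvPolynomial.C (ev0 b)) =
        (a - MvPolynomial.C (ev0 a)) + (b - MvPolynomial.C (ev0 b)) := by
      ring
    rw [this]
    exact Ideal.add_mem _ ha hb
  | mul_X a i ha =>
    rw [map_mul, ev0_X, mul_zero, map_zero, sub_zero]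
    exact Ideal.mul_mem_left _ _ (Ideal.subset_span ⟨i, rfl⟩)

lemma mem_span_of_ev0 {a : TT} (h : ev0 a = 0) :
    a ∈ Ideal.span (Set.range (MvPolynomial.X : Fin 3 → TT)) := by
  have := sub_C_mem a
  rwa [h, map_zero, sub_zero] at this

lemma nn_sq {z : RR} (hz : z ∈ nn) : z ^ 2 ∈ Ideal.span (Set.range ff) := by
  obtain ⟨w, hw⟩ := sq_eq z
  rw [hw]
  refine Ideal.add_mem _ (Ideal.mul_mem_left _ _ ?_) (Ideal.mul_mem_right _ _
    (Ideal.subset_span ⟨2, rfl⟩))
  have h1 : ev0 z.1.c0 = 0 := by rw [← ep_apply]; exact hz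
  have h2 := Ideal.mem_map_of_mem inc (mem_span_of_ev0 h1)
  rw [Ideal.map_span, ← Set.range_comp] at h2
  exact h2

lemma PP_sq {z : RR} (hz : z ∈ PP) : z ^ 2 ∈ Ideal.span (Set.range sh) := by
  obtain ⟨w, hw⟩ := sq_eq z
  rw [hw]
  refine Ideal.add_mem _ (Ideal.mul_mem_left _ _ ?_) (Ideal.mul_mem_right _ _
    (Ideal.subset_span ⟨1, rfl⟩))
  have h1 : ev z.1.c0 = 0 := by rw [← psi_apply]; exact hz
  have h2 := Ideal.mem_map_of_mem inc (mem_span_of_ev h1)
  rw [Ideal.map_span] at h2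
  refine Ideal.span_mono ?_ h2
  rintro _ ⟨x, hx, rfl⟩
  rcases hx with rfl | hx
  · exact ⟨0, rfl⟩
  · rw [Set.mem_singleton_iff] at hx
    subst hx
    exact ⟨1, rfl⟩

lemma ff_mem (k : Fin 3) : ff k ∈ nn := by
  show ep (ff k) = 0
  rw [ep_apply]
  exact ev0_X k

lemma sh_mem (k : Fin 2) : sh k ∈ PP := by
  show psi (sh k) = 0
  rw [psi_apply]
  fin_cases k
  · exact ev_X0
  · exact ev_X2

/-- a family of elements generating a prime up to radical -/
lemma radical_eq {A : Type*} [CommRing A] (P : Ideal A) [P.IsPrime] (B : Type*) [CommRing B]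
    [Algebra A B] [IsLocalization.AtPrime B P] [IsLocalRing B] {n : ℕ} (f : Fin n → A)
    (hf : ∀ i, f i ∈ P) (h : ∀ z ∈ P, z ^ 2 ∈ Ideal.span (Set.range f)) :
    (Ideal.span (Set.range (algebraMap A B ∘ f))).radical = IsLocalRing.maximalIdeal B := by
  rw [← IsLocalization.AtPrime.map_eq_maximalIdeal P B]
  have h0 : (Ideal.map (algebraMap A B) P).IsPrime := by
    rw [IsLocalization.AtPrime.map_eq_maximalIdeal P B]
    exact (IsLocalRing.maximalIdeal.isMaximal B).isPrime
  apply le_antisymm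
  · rw [h0.isRadical.radical_le_iff, Ideal.span_le]
    rintro _ ⟨i, rfl⟩
    exact Ideal.mem_map_of_mem _ (hf i)
  · rw [Ideal.map_le_iff_le_comap]
    intro z hz
    refine ⟨2, ?_⟩
    rw [← map_pow, Set.range_comp, ← Ideal.map_span]
    exact Ideal.mem_map_of_mem _ (h z hz)

lemma charP_two (A : Type*) [CommRing A] [Nontrivial A] [Algebra RR A] : CharP A 2 := by
  rw [CharP.charP_iff_prime_eq_zero Nat.prime_two]
  have h : ((2 : ℕ) : RR) = 0 := CharP.cast_eq_zero RR 2
  rw [← map_natCast (algebraMap RR A) 2, h, map_zero]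

end

end Pool.Agent.Lib_helper39.FAN
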