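import Pool.Agent.Lib_helper39.FAN.Vanish

namespace Pool.Agent.Lib_helper39.FAN

open Finset

set_option linter.unusedSimpArgs false

noncomputable section

/-- vectors of exponents -/
def v (a b c : ℤ) : GG := ![a, b, c]

lemma v_add (a b c a' b' c' : ℤ) : v a b c + v a' b' c' = v (a + a') (b + b') (c + c') := by
  funext k; fin_cases k <;> simp [v]

lemma v_sub (a b c a' b' c' : ℤ) : v a b c - v a' b' c' = v (a - a') (b - b') (c - c') := by
  funext k; fin_cases k <;> simp [v]

lemma nsmul_v (n : ℕ) (a b c : ℤ) : n • v a b c = v (n * a) (n * b) (n * c) := by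
  funext k; fin_cases k <;> simp [v]

lemma eq_v (e : GG) : e = v (e 0) (e 1) (e 2) := by
  funext k; fin_cases k <;> simp [v]

@[simp] lemma v_0 (a b c : ℤ) : v a b c 0 = a := rfl
@[simp] lemma v_1 (a b c : ℤ) : v a b c 1 = b := rfl
@[simp] lemma v_2 (a b c : ℤ) : v a b c 2 = c := rfl

lemma ex0 : ex 0 = v 1 0 0 := by funext k; fin_cases k <;> simp [v, ex]
lemma ex1 : ex 1 = v 0 1 0 := by funext k; fin_cases k <;> simp [v, ex]
lemma ex2 : ex 2 = v 0 0 1 := by funext k; fin_cases k <;> simp [v, ex]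

lemma forall_fin3 {P : Fin 3 → Prop} : (∀ k, P k) ↔ P 0 ∧ P 1 ∧ P 2 := by
  constructor
  · intro h; exact ⟨h 0, h 1, h 2⟩
  · rintro ⟨h0, h1, h2⟩ k
    fin_cases k <;> assumption

@[simp] lemma kap_0 (i : Fin 3) : kap i 0 = 0 := by unfold kap; simp
@[simp] lemma kap_1 (i : Fin 3) : kap i 1 = 0 := by unfold kap; simp
@[simp] lemma kap_02 : kap 0 2 = 0 := by unfold kap; simp
@[simp] lemma kap_12 : kap 1 2 = 1 := by unfold kap; simp
@[simp] lemma kap_22 : kap 2 2 = 1 := by unfold kap; simp

lemma kap_le (i k : Fin 3) : kap i k ≤ 1 := by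
  unfold kap; split_ifs <;> norm_num

lemma kap_nonneg (i k : Fin 3) : 0 ≤ kap i k := by
  unfold kap; split_ifs <;> norm_num

lemma MM0_mul (a b c : ℤ) (i : Fin 3) (a' b' c' : ℤ) :
    MM 0 (v a b c) * MM i (v a' b' c') = MM i (v (a + a') (b + b') (c + c')) := by
  rw [MM0_mul_MM, v_add]

lemma iT_q : iT (MvPolynomial.X 2 + MvPolynomial.X 0 ^ 2) = mon (v 0 0 1) + mon (v 2 0 0) := by
  rw [map_add, map_pow, iT_X, iT_X, pow_two, mon_mul_mon, ex2, ex0, v_add]
  norm_num

lemma iT_t : iT (MvPolynomial.X 1) = mon (v 0 1 0) := by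
  rw [iT_X, ex1]

lemma MM1_mul_MM1 (e g : GG) : MM 1 e * MM 1 g = MM 2 (e + g) := by
  ext1 <;> simp [MM, mon_mul_mon]

lemma MM1_mul_MM2 (a b c a' b' c' : ℤ) : MM 1 (v a b c) * MM 2 (v a' b' c') =
    MM 1 (v (a + a') (b + b' + 1) (c + c')) + MM 0 (v (a + a') (b + b') (c + c' + 1)) +
      MM 0 (v (a + a' + 2) (b + b') (c + c')) := by
  ext1
  · simp only [MM, Cub.mul_c0, Cub.add_c0, iT_q]
    simp only [one_ne_zero, if_false, if_true, mul_zero, zero_mul, add_zero, zero_add,
      mon_mul_mon, v_add, add_mul, reduceCtorEq, Fin.reduceEq]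
    congr 1 <;> congr 1 <;> congr 1 <;> ring
  · simp only [MM, Cub.mul_c1, Cub.add_c1, iT_t]
    simp only [one_ne_zero, if_false, if_true, mul_zero, zero_mul, add_zero, zero_add,
      mon_mul_mon, v_add, add_mul, Fin.reduceEq]
    congr 1; congr 1; ring
  · simp [MM]

lemma MM2_mul_MM2 (a b c a' b' c' : ℤ) : MM 2 (v a b c) * MM 2 (v a' b' c') =
    MM 2 (v (a + a') (b + b' + 1) (c + c')) + MM 1 (v (a + a') (b + b') (c + c' + 1)) +
      MM 1 (v (a + a' + 2) (b + b') (c + c')) := by
  ext1
  · simp [MM]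
  · simp only [MM, Cub.mul_c1, Cub.add_c1, iT_q]
    simp only [one_ne_zero, if_false, if_true, mul_zero, zero_mul, add_zero, zero_add,
      mon_mul_mon, v_add, add_mul, Fin.reduceEq]
    congr 1 <;> congr 1 <;> congr 1 <;> ring
  · simp only [MM, Cub.mul_c2, Cub.add_c2, iT_t]
    simp only [one_ne_zero, if_false, if_true, mul_zero, zero_mul, add_zero, zero_add,
      mon_mul_mon, v_add, add_mul, Fin.reduceEq]
    congr 1; congr 1; ring

/-- goodness for general thresholds -/
def GoodT (θ : Fin 3 → Fin 3 → ℤ) (z : QQ) : Prop := ∀ i e, (∀ k, e k < θ i k) → cf z i e = 0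

lemma GoodT.add {θ : Fin 3 → Fin 3 → ℤ} {z w : QQ} (hz : GoodT θ z) (hw : GoodT θ w) :
    GoodT θ (z + w) := by
  intro i e he
  rw [cf_add, hz i e he, hw i e he, add_zero]

lemma goodT_MM {θ : Fin 3 → Fin 3 → ℤ} {i : Fin 3} {e : GG} (h : ∃ k, θ i k ≤ e k) :
    GoodT θ (MM i e) := by
  intro j g hg
  rw [cf_MM]
  rw [if_neg]
  rintro ⟨rfl, rfl⟩
  obtain ⟨k, hk⟩ := h
  exact absurd (hg k) (not_lt.2 hk)

lemma socle_aux (θ : Fin 3 → Fin 3 → ℤ) (D : ℕ) : ∀ z : QQ, ¬ GoodT θ z →
    (∀ i e, cf z i e ≠ 0 → (∀ k, e k < θ i k) → ∑ k, (θ i k - 1 - e k) ≤ (D : ℤ)) →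
    ∃ a : GG, (∀ k, 0 ≤ a k) ∧ ¬ GoodT θ (MM 0 a * z) ∧
      ∀ k, GoodT θ (MM 0 (ex k) * (MM 0 a * z)) := by
  induction D with
  | zero =>
    intro z hz h
    refine ⟨0, fun k => le_rfl, by rwa [MM_zero, one_mul], fun k i e he => ?_⟩
    rw [MM_zero, one_mul, cf_MM0_mul]
    by_contra hne
    have h1 : ∀ l, (e - ex k) l < θ i l := by
      intro l
      have h2 : 0 ≤ ex k l := by
        unfold ex
        by_cases hlk : l = k
        · subst hlk; simp
        · simp [hlk]
      have := he l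
      rw [Pi.sub_apply]; linarith
    have h3 := h i _ hne h1
    have h4 : ∀ l ∈ (univ : Finset (Fin 3)), 0 ≤ θ i l - 1 - (e - ex k) l := by
      intro l _
      have := h1 l
      omega
    have h5 := (Finset.sum_eq_zero_iff_of_nonneg h4).1
      (le_antisymm (by exact_mod_cast h3) (Finset.sum_nonneg h4)) k (mem_univ k)
    have h6 := he k
    simp only [Pi.sub_apply, ex, Pi.single_eq_same] at h5
    omega
  | succ D ih =>
    intro z hz h
    by_cases hall : ∀ k, GoodT θ (MM 0 (ex k) * z)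
    · exact ⟨0, fun k => le_rfl, by rwa [MM_zero, one_mul], fun k => by
        rw [MM_zero, one_mul]; exact hall k⟩
    · push Not at hall
      obtain ⟨k, hk⟩ := hall
      obtain ⟨a, ha1, ha2, ha3⟩ := ih (MM 0 (ex k) * z) hk (by
        intro i e he hbad
        rw [cf_MM0_mul] at he
        have h2 : ∀ l, 0 ≤ ex k l := by
          intro l
          unfold ex
          by_cases hlk : l = k
          · subst hlk; simp
          · simp [hlk]
        have h3 := h i _ he (fun l => by
          have := hbad l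
          have := h2 l
          rw [Pi.sub_apply]; linarith)
        have h4 : ∑ l, (θ i l - 1 - (e - ex k) l) = ∑ l, (θ i l - 1 - e l) + 1 := by
          have : ∑ l, ex k l = 1 := by simp [ex]
          rw [← this, ← Finset.sum_add_distrib]
          refine Finset.sum_congr rfl fun l _ => ?_
          rw [Pi.sub_apply]; ring
        rw [h4] at h3
        push_cast at h3
        linarith)
      have hcomm : MM 0 (a + ex k) * z = MM 0 a * (MM 0 (ex k) * z) := by
        rw [← mul_assoc, MM0_mul_MM]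
      refine ⟨a + ex k, fun l => ?_, ?_, ?_⟩
      · have h2 : 0 ≤ ex k l := by
          unfold ex
          by_cases hlk : l = k
          · subst hlk; simp
          · simp [hlk]
        exact add_nonneg (ha1 l) h2
      · rw [hcomm]; exact ha2
      · intro l; rw [hcomm]; exact ha3 l

lemma socle (θ : Fin 3 → Fin 3 → ℤ) (hθ : ∀ i k, θ i k ≤ 1) (z : QQ) (hz : ¬ GoodT θ z) :
    ∃ a : GG, (∀ k, 0 ≤ a k) ∧ ¬ GoodT θ (MM 0 a * z) ∧
      ∀ k, GoodT θ (MM 0 (ex k) * (MM 0 a * z)) := by
  obtain ⟨n, hn⟩ := exists_bound z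
  refine socle_aux θ (3 * n) z hz fun i e he _ => ?_
  have h1 := hn i e he
  rw [Fin.sum_univ_three]
  have h10 := h1 0
  have h11 := h1 1
  have h12 := h1 2
  have h20 := hθ i 0
  have h21 := hθ i 1
  have h22 := hθ i 2
  push_cast
  linarith

/-- a socle element: a sum of corner monomials -/
def corner (θ : Fin 3 → Fin 3 → ℤ) (w : QQ) : QQ :=
  open Classical in ∑ i, if cf w i (fun k => θ i k - 1) = 0 then 0 else MM i (fun k => θ i k - 1)

lemma zmod2_ne_zero {a : ZMod 2} (h : a ≠ 0) : a = 1 := by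
  revert a; decide

lemma corner_spec (θ : Fin 3 → Fin 3 → ℤ) (w : QQ) (hw : ∀ k, GoodT θ (MM 0 (ex k) * w)) :
    GoodT θ (w - corner θ w) := by
  classical
  have h0 : ∀ i e, (∀ k, e k < θ i k) → cf w i e ≠ 0 → e = fun k => θ i k - 1 := by
    intro i e he hne
    funext k
    by_contra hk
    have h1 : e k < θ i k - 1 := by
      have := he k
      omega
    apply hne
    have h2 := hw k i (e + ex k) (fun l => by
      rw [Pi.add_apply]
      by_cases hlk : l = k
      · subst hlk; simp only [ex, Pi.single_eq_same]; omega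
      · simp only [ex, Pi.single_eq_of_ne hlk]; have := he l; omega)
    rwa [cf_MM0_mul, add_sub_cancel_right] at h2
  intro i e he
  have h1 : cf (w - corner θ w) i e + cf (corner θ w) i e = cf w i e := by
    rw [← cf_add, sub_add_cancel]
  have h2 : cf (corner θ w) i e = cf w i e := by
    unfold corner
    rw [cf_sum]
    have h3 : ∀ j, cf (if cf w j (fun k => θ j k - 1) = 0 then 0 else MM j (fun k => θ j k - 1)) i e
        = if j = i then cf w i e else 0 := by
      intro j
      by_cases hji : j = i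
      · subst hji
        rw [if_pos rfl]
        by_cases hc : cf w j (fun k => θ j k - 1) = 0
        · rw [if_pos hc, cf_zero]
          by_contra hne
          have := h0 j e he (Ne.symm hne)
          rw [this] at hne
          exact hne hc.symm
        · rw [if_neg hc, cf_MM]
          by_cases hwe : cf w j e = 0
          · rw [hwe, if_neg]
            rintro ⟨-, rfl⟩
            exact hc hwe
          · rw [if_pos ⟨rfl, (h0 j e he hwe).symm⟩, zmod2_ne_zero hwe]
      · rw [if_neg hji]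
        by_cases hc : cf w j (fun k => θ j k - 1) = 0
        · rw [if_pos hc, cf_zero]
        · rw [if_neg hc, cf_MM, if_neg]
          rintro ⟨h, -⟩
          exact hji h
    simp only [h3]
    simp
  rw [h2] at h1
  simpa using h1

end

end Pool.Agent.Lib_helper39.FAN
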