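import Pool.Agent.Lib_helper39.FAN.Top

namespace Pool.Agent.Lib_helper39.FAN

open Finset

noncomputable section

lemma good_iff (z : QQ) : Good z ↔ GoodT kap z := Iff.rfl

lemma good_MM {i : Fin 3} {a b c : ℤ} (h : 0 ≤ a ∨ 0 ≤ b ∨ kap i 2 ≤ c) : Good (MM i (v a b c)) := by
  rw [good_iff]
  apply goodT_MM
  rcases h with h | h | h
  · exact ⟨0, by simpa using h⟩
  · exact ⟨1, by simpa using h⟩
  · exact ⟨2, by simpa using h⟩

/-- elements of `R`, seen in `Q` -/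
def InR (g : QQ) : Prop := ∀ i e, cf g i e ≠ 0 → ∀ k, kap i k ≤ e k

lemma mul_mem_of_inR (N : Submodule RR QQ) {g z : QQ} (hg : InR g) (hz : z ∈ N) : g * z ∈ N := by
  obtain ⟨r, rfl⟩ := (mem_range_jj_iff g).2 hg
  exact N.smul_mem r hz

lemma inR_MM {i : Fin 3} {e : GG} (h : ∀ k, kap i k ≤ e k) : InR (MM i e) := by
  intro j g hg k
  rw [cf_MM] at hg
  have : i = j ∧ e = g := by
    by_contra hcon
    rw [if_neg hcon] at hg
    exact hg rfl
  obtain ⟨rfl, rfl⟩ := this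
  exact h k

lemma MM0_mem (N : Submodule RR QQ) {a b c : ℤ} (ha : 0 ≤ a) (hb : 0 ≤ b) (hc : 0 ≤ c) {z : QQ}
    (hz : z ∈ N) : MM 0 (v a b c) * z ∈ N := by
  refine mul_mem_of_inR N (inR_MM ?_) hz
  rw [forall_fin3]
  simp [ha, hb, hc]

/-- lowering the pole order -/
lemma down (N : Submodule RR QQ) {i : Fin 3} {a b c a' b' c' : ℤ} (ha : a ≤ a') (hb : b ≤ b')
    (hc : c ≤ c') (h : MM i (v a b c) ∈ N) : MM i (v a' b' c') ∈ N := by
  have h1 := MM0_mem N (a := a' - a) (b := b' - b) (c := c' - c) (by linarith) (by linarith)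
    (by linarith) h
  rw [MM0_mul] at h1
  simpa using h1

lemma MM1_sq (a b c : ℤ) : MM 1 (v a b c) ^ 2 = MM 2 (v (2 * a) (2 * b) (2 * c)) := by
  rw [pow_two, MM1_mul_MM1, v_add]
  congr 2 <;> ring

lemma MM2_sq (a b c : ℤ) : MM 2 (v a b c) ^ 2 = MM 2 (v (2 * a) (2 * b + 1) (2 * c)) +
    MM 1 (v (2 * a) (2 * b) (2 * c + 1)) + MM 1 (v (2 * a + 2) (2 * b) (2 * c)) := by
  rw [pow_two, MM2_mul_MM2]
  simp only [← two_mul]

section StepI

variable (N : Submodule RR QQ) (hB : BB ≤ N) (hF : ∀ x ∈ N, x ^ 2 ∈ N)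

include hB in
lemma good_mem {z : QQ} (hz : Good z) : z ∈ N := hB hz

/-- remove a good summand -/
lemma mem_of_add_good {z w : QQ} (hB : BB ≤ N) (h : z + w ∈ N) (hw : Good w) : z ∈ N := by
  have h1 : z = (z + w) - w := by abel
  rw [h1]
  exact N.sub_mem h (hB hw)

include hB hF in
/-- growth, starting from `y²/(s²t)` -/
lemma growth_start (h : MM 2 (v (-2) (-1) 0) ∈ N) : MM 1 (v (-2) (-1) 0) ∈ N := by
  have h1 := hF _ h
  rw [MM2_sq] at h1
  have h2 := MM0_mem N (a := 0) (b := 1) (c := 0) le_rfl (by norm_num) le_rfl h1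
  rw [mul_add, mul_add, MM0_mul, MM0_mul, MM0_mul] at h2
  norm_num at h2
  -- y²/s⁴ + y h/(s⁴ t) + y/(s² t)
  have h3 : MM 1 (v (-2) (-1) 0) + (MM 2 (v (-4) 0 0) + MM 1 (v (-4) (-1) 1)) ∈ N := by
    convert h2 using 1; ring
  refine mem_of_add_good N hB h3 ?_
  exact Good.add (good_MM (by simp)) (good_MM (by simp))

include hB hF in
lemma growth_step {a : ℤ} (h : MM 1 (v (-a) (-1) 0) ∈ N) :
    MM 1 (v (-(4 * a - 2)) (-1) 0) ∈ N := by
  have h1 := hF _ h
  rw [MM1_sq] at h1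
  have h2 := hF _ h1
  rw [MM2_sq] at h2
  have h3 := MM0_mem N (a := 0) (b := 3) (c := 0) le_rfl (by norm_num) le_rfl h2
  rw [mul_add, mul_add, MM0_mul, MM0_mul, MM0_mul] at h3
  norm_num at h3
  have h4 : MM 1 (v (-(4 * a - 2)) (-1) 0) +
      (MM 2 (v (-(2 * (2 * a))) 0 0) + MM 1 (v (-(2 * (2 * a))) (-1) 1)) ∈ N := by
    convert h3 using 1
    have : -(4 * a - 2) = -(2 * (2 * a)) + 2 := by ring
    rw [this]
    ring
  refine mem_of_add_good N hB h4 ?_
  exact Good.add (good_MM (by simp)) (good_MM (by simp))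

include hB hF in
lemma growth_s (h : MM 1 (v (-2) (-1) 0) ∈ N) (a : ℤ) : MM 1 (v (-a) (-1) 0) ∈ N := by
  have h1 : ∀ n : ℕ, ∃ b : ℤ, (n : ℤ) + 2 ≤ b ∧ MM 1 (v (-b) (-1) 0) ∈ N := by
    intro n
    induction n with
    | zero => exact ⟨2, by norm_num, h⟩
    | succ n ih =>
      obtain ⟨b, hb, hb'⟩ := ih
      exact ⟨4 * b - 2, by push_cast; linarith, growth_step N hB hF hb'⟩
  obtain ⟨b, hb, hb'⟩ := h1 a.toNat
  exact down N (by have := Int.self_le_toNat a; linarith) le_rfl le_rfl hb'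

include hB hF in
lemma growth_t (h : MM 1 (v (-2) (-1) 0) ∈ N) (j : ℕ) : ∀ a : ℤ,
    MM 1 (v (-a) (-2 ^ j) 0) ∈ N ∧ MM 2 (v (-a) (-2 ^ (j + 1)) 0) ∈ N := by
  have sq : ∀ j : ℕ, (∀ a : ℤ, MM 1 (v (-a) (-2 ^ j) 0) ∈ N) →
      ∀ a : ℤ, MM 2 (v (-a) (-2 ^ (j + 1)) 0) ∈ N := by
    intro j hj a
    rcases le_total 0 a with ha | ha
    · have h1 := hF _ (hj a)
      rw [MM1_sq] at h1
      refine down N ?_ ?_ le_rfl h1
      · linarith
      · rw [pow_succ]; linarith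
    · exact hB (good_MM (Or.inl (by linarith)))
  induction j with
  | zero =>
    intro a
    have h1 : ∀ a : ℤ, MM 1 (v (-a) (-2 ^ 0) 0) ∈ N := fun a => by
      simpa using growth_s N hB hF h a
    exact ⟨h1 a, sq 0 h1 a⟩
  | succ j ih =>
    have key : ∀ a : ℤ, MM 1 (v (-a) (-2 ^ (j + 1)) 0) ∈ N := by
      intro a
      rcases le_total 0 a with ha | ha
      · -- use β(a+1, 2^j)
        have h1 : MM 2 (v (-(a + 1)) (-2 ^ j) 0) ∈ N := by
          refine down N le_rfl ?_ le_rfl (ih (a + 1)).2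
          rw [pow_succ]
          have : (0 : ℤ) < 2 ^ j := by positivity
          linarith
        have h2 := hF _ h1
        rw [MM2_sq] at h2
        have h3 : MM 2 (v (2 * -(a + 1)) (2 * -2 ^ j + 1) (2 * 0)) ∈ N := by
          have h4 := (ih (2 * (a + 1))).2
          refine down N ?_ ?_ ?_ h4
          · linarith
          · rw [pow_succ]; linarith
          · norm_num
        have h5 : MM 1 (v (2 * -(a + 1) + 2) (2 * -2 ^ j) (2 * 0)) ∈ N := by
          have h6 : MM 1 (v (2 * -(a + 1) + 2) (2 * -2 ^ j) (2 * 0)) =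
              (MM 2 (v (2 * -(a + 1)) (2 * -2 ^ j + 1) (2 * 0)) +
              MM 1 (v (2 * -(a + 1)) (2 * -2 ^ j) (2 * 0 + 1)) +
              MM 1 (v (2 * -(a + 1) + 2) (2 * -2 ^ j) (2 * 0))) -
              MM 2 (v (2 * -(a + 1)) (2 * -2 ^ j + 1) (2 * 0)) -
              MM 1 (v (2 * -(a + 1)) (2 * -2 ^ j) (2 * 0 + 1)) := by ring
          rw [h6]
          exact N.sub_mem (N.sub_mem h2 h3) (hB (good_MM (by simp)))
        refine down N ?_ ?_ ?_ h5
        · linarith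
        · rw [pow_succ]; linarith
        · norm_num
      · exact hB (good_MM (Or.inl (by linarith)))
    intro a
    exact ⟨key a, sq (j + 1) key a⟩

include hB hF in
lemma growth (h : MM 1 (v (-2) (-1) 0) ∈ N) (a b : ℤ) :
    MM 1 (v a b 0) ∈ N ∧ MM 2 (v a b 0) ∈ N := by
  obtain ⟨h1, h2⟩ := growth_t N hB hF h (-b).toNat (-a)
  rw [neg_neg] at h1 h2
  have h3 : -b ≤ 2 ^ (-b).toNat := by
    have h4 : ((-b).toNat : ℤ) < 2 ^ (-b).toNat := by exact_mod_cast Nat.lt_two_pow_self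
    have := Int.self_le_toNat (-b)
    linarith
  constructor
  · exact down N le_rfl (by linarith) le_rfl h1
  · refine down N le_rfl ?_ le_rfl h2
    rw [pow_succ]
    have : (0 : ℤ) < 2 ^ (-b).toNat := by positivity
    linarith

end StepI

end

end Pool.Agent.Lib_helper39.FAN
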