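import Pool.Agent.Lib_helper39.FAN.Top2

namespace Pool.Agent.Lib_helper39.FAN

open Finset

noncomputable section

lemma corner_eq (θ : Fin 3 → Fin 3 → ℤ) (w : QQ) : ∃ b : Fin 3 → Bool,
    corner θ w = ∑ i, (if b i then MM i (fun k => θ i k - 1) else 0) ∧
    ((∀ i, b i = false) → corner θ w = 0) := by
  classical
  refine ⟨fun i => !decide (cf w i (fun k => θ i k - 1) = 0), ?_, ?_⟩
  · unfold corner
    refine Finset.sum_congr rfl fun i _ => ?_
    by_cases h : cf w i (fun k => θ i k - 1) = 0 <;> simp [h]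
  · intro h
    unfold corner
    refine Finset.sum_eq_zero fun i _ => ?_
    have := h i
    simp only [Bool.not_eq_eq_eq_not, Bool.not_false, decide_eq_true_eq] at this
    rw [if_pos this]

theorem step_i (N : Submodule RR QQ) (hB : BB ≤ N) (hF : ∀ x ∈ N, x ^ 2 ∈ N) {x : QQ}
    (hx : x ∈ N) (hx' : ¬ Good x) : MM 2 (v (-2) (-1) 0) ∈ N := by
  obtain ⟨a, ha, ha1, ha2⟩ := socle kap kap_le x hx'
  have hw : MM 0 a * x ∈ N := mul_mem_of_inR N (inR_MM (by
    rw [forall_fin3]; simp [ha])) hx
  set w := MM 0 a * x with hwdef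
  have h1 := corner_spec kap w ha2
  have h2 : corner kap w ∈ N := by
    have : corner kap w = w - (w - corner kap w) := by abel
    rw [this]
    exact N.sub_mem hw (hB h1)
  obtain ⟨b, hb, hb'⟩ := corner_eq kap w
  have h3 : ¬ ∀ i, b i = false := by
    intro hcon
    apply ha1
    rw [hb' hcon, sub_zero] at h1
    exact h1
  rw [hb, Fin.sum_univ_three] at h2
  have e0 : (fun k => kap 0 k - 1) = v (-1) (-1) (-1) := by
    funext k; fin_cases k <;> simp [v]
  have e1 : (fun k => kap 1 k - 1) = v (-1) (-1) 0 := by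
    funext k; fin_cases k <;> simp [v]
  have e2 : (fun k => kap 2 k - 1) = v (-1) (-1) 0 := by
    funext k; fin_cases k <;> simp [v]
  rw [e0, e1, e2] at h2
  -- the three cases
  by_cases hb0 : b 0 = true
  · -- multiply by `h y`
    have h4 := mul_mem_of_inR N (g := MM 1 (v 0 0 1)) (inR_MM (by rw [forall_fin3]; simp)) h2
    have h5 : MM 1 (v (-1) (-1) 0) ∈ N := by
      have h6 : MM 1 (v 0 0 1) * ((if b 0 = true then MM 0 (v (-1) (-1) (-1)) else 0) +
          (if b 1 = true then MM 1 (v (-1) (-1) 0) else 0) +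
          (if b 2 = true then MM 2 (v (-1) (-1) 0) else 0)) =
          MM 1 (v (-1) (-1) 0) + ((if b 1 = true then MM 2 (v (-1) (-1) 1) else 0) +
          (if b 2 = true then MM 1 (v (-1) 0 1) + MM 0 (v (-1) (-1) 2) + MM 0 (v 1 (-1) 1)
            else 0)) := by
        rw [if_pos hb0, mul_add, mul_add, mul_comm (MM 1 _) (MM 0 _), MM0_mul, mul_ite, mul_ite,
          MM1_mul_MM1, MM1_mul_MM2, v_add, mul_zero]
        norm_num
        ring
      rw [h6] at h4
      refine mem_of_add_good N hB h4 (Good.add ?_ ?_)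
      · split_ifs
        · exact good_MM (by simp)
        · exact good_zero
      · split_ifs
        · exact Good.add (Good.add (good_MM (by simp)) (good_MM (by simp))) (good_MM (by simp))
        · exact good_zero
    have h7 := hF _ h5
    rw [MM1_sq] at h7
    exact down N (by norm_num) (by norm_num) (by norm_num) h7
  · by_cases hb1 : b 1 = true
    · rw [if_neg hb0, if_pos hb1, zero_add] at h2
      have h4 := hF _ h2
      have h5 := MM0_mem N (a := 0) (b := 1) (c := 0) le_rfl (by norm_num) le_rfl h4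
      have h6 : MM 0 (v 0 1 0) * (MM 1 (v (-1) (-1) 0) +
          (if b 2 = true then MM 2 (v (-1) (-1) 0) else 0)) ^ 2 =
          MM 2 (v (-2) (-1) 0) + (if b 2 = true then MM 2 (v (-2) 0 0) + MM 1 (v (-2) (-1) 1) +
            MM 1 (v 0 (-1) 0) else 0) := by
        rw [add_pow_char _ _ 2, MM1_sq]
        have : (if b 2 = true then MM 2 (v (-1) (-1) 0) else 0) ^ 2 =
            if b 2 = true then (MM 2 (v (-1) (-1) 0)) ^ 2 else 0 := by
          split_ifs
          · rfl
          · simp
        rw [this, MM2_sq, mul_add, MM0_mul, mul_ite, mul_zero, mul_add, mul_add, MM0_mul, MM0_mul,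
          MM0_mul]
        norm_num
      rw [h6] at h5
      refine mem_of_add_good N hB h5 ?_
      split_ifs
      · exact Good.add (Good.add (good_MM (by simp)) (good_MM (by simp))) (good_MM (by simp))
      · exact good_zero
    · have hb2 : b 2 = true := by
        by_contra hb2
        apply h3
        rw [forall_fin3]
        simp only [Bool.not_eq_true] at hb0 hb1 hb2
        exact ⟨hb0, hb1, hb2⟩
      rw [if_neg hb0, if_neg hb1, if_pos hb2, zero_add, zero_add] at h2
      have h4 := hF _ h2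
      rw [MM2_sq, add_assoc] at h4
      norm_num at h4
      refine mem_of_add_good N hB h4 ?_
      exact Good.add (good_MM (by simp)) (good_MM (by simp))

/-- decomposition into monomials -/
lemma mem_of_MM (N : Submodule RR QQ) (z : QQ) (h : ∀ i e, cf z i e ≠ 0 → MM i e ∈ N) :
    z ∈ N := by
  classical
  have key : ∀ (φ : LL →+ QQ) (i : Fin 3), (∀ e, φ (mon e) = MM i e) → ∀ x : LL,
      (∀ e, x.coeff e ≠ 0 → MM i e ∈ N) → φ x ∈ N := by
    intro φ i hφ x hx
    have h1 : x = ∑ e ∈ x.coeff.support, mon e := by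
      conv_lhs => rw [← AddMonoidAlgebra.sum_coeff_single x]
      rw [Finsupp.sum]
      refine Finset.sum_congr rfl fun e he => ?_
      rw [Finsupp.mem_support_iff] at he
      rw [zmod2_ne_zero he]
      rfl
    rw [h1, map_sum]
    refine N.sum_mem fun e he => ?_
    rw [Finsupp.mem_support_iff] at he
    rw [hφ]
    exact hx e he
  have h0 : z = (⟨z.c0, 0, 0⟩ : QQ) + ⟨0, z.c1, 0⟩ + ⟨0, 0, z.c2⟩ := by
    ext1 <;> simp
  rw [h0]
  refine N.add_mem (N.add_mem ?_ ?_) ?_
  · exact key (AddMonoidHom.mk' (fun x => (⟨x, 0, 0⟩ : QQ)) (fun a b => by ext1 <;> simp)) 0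
      (fun e => by ext1 <;> simp [MM]) z.c0 (fun e he => h 0 e he)
  · exact key (AddMonoidHom.mk' (fun x => (⟨0, x, 0⟩ : QQ)) (fun a b => by ext1 <;> simp)) 1
      (fun e => by ext1 <;> simp [MM]) z.c1 (fun e he => h 1 e he)
  · exact key (AddMonoidHom.mk' (fun x => (⟨0, 0, x⟩ : QQ)) (fun a b => by ext1 <;> simp)) 2
      (fun e => by ext1 <;> simp [MM]) z.c2 (fun e he => h 2 e he)

/-- the coarser thresholds -/
def kap0 : Fin 3 → Fin 3 → ℤ := fun _ _ => 0

theorem W_le (N : Submodule RR QQ) (hB : BB ≤ N) (hF : ∀ x ∈ N, x ^ 2 ∈ N) {x : QQ}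
    (hx : x ∈ N) (hx' : ¬ Good x) {z : QQ} (hz : GoodT kap0 z) : z ∈ N := by
  have h1 := step_i N hB hF hx hx'
  have h2 := growth_start N hB hF h1
  apply mem_of_MM
  intro i e he
  rw [eq_v e]
  obtain ⟨k, hk⟩ : ∃ k, 0 ≤ e k := by
    by_contra hcon
    push Not at hcon
    exact he (hz i e hcon)
  by_cases h0 : 0 ≤ e 0
  · exact hB (good_MM (Or.inl h0))
  by_cases h1' : 0 ≤ e 1
  · exact hB (good_MM (Or.inr (Or.inl h1')))
  have h2' : 0 ≤ e 2 := by
    fin_cases k
    · exact absurd hk h0
    · exact absurd hk h1'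
    · exact hk
  have h3 := growth N hB hF h2 (e 0) (e 1)
  fin_cases i
  · exact hB (good_MM (by simpa using Or.inr (Or.inr h2')))
  · exact down N le_rfl le_rfl h2' h3.1
  · exact down N le_rfl le_rfl h2' h3.2

end

end Pool.Agent.Lib_helper39.FAN
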