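import Pool.Agent.Lib_helper39.FAN.Top3

namespace Pool.Agent.Lib_helper39.FAN

open Finset

noncomputable section

lemma Cub.sq_c0 {A : Type*} [CommRing A] [CharP A 2] {t q : A} (z : Cub A t q) :
    (z ^ 2).c0 = z.c0 ^ 2 := by
  have h2 : (2 : A) = 0 := CharTwo.two_eq_zero
  rw [pow_two (M := Cub A t q), Cub.mul_c0]
  linear_combination (q * z.c1 * z.c2) * h2

lemma Cub.sq_c1 {A : Type*} [CommRing A] [CharP A 2] {t q : A} (z : Cub A t q) :
    (z ^ 2).c1 = q * z.c2 ^ 2 := by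
  have h2 : (2 : A) = 0 := CharTwo.two_eq_zero
  rw [pow_two (M := Cub A t q), Cub.mul_c1]
  linear_combination (z.c0 * z.c1 + t * z.c1 * z.c2) * h2

lemma Cub.sq_c2 {A : Type*} [CommRing A] [CharP A 2] {t q : A} (z : Cub A t q) :
    (z ^ 2).c2 = z.c1 ^ 2 + t * z.c2 ^ 2 := by
  have h2 : (2 : A) = 0 := CharTwo.two_eq_zero
  rw [pow_two (M := Cub A t q), Cub.mul_c2]
  linear_combination (z.c0 * z.c2) * h2

lemma coeff_mul_ne {x y : LL} {e : GG} (h : (x * y).coeff e ≠ 0) :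
    ∃ a b, x.coeff a ≠ 0 ∧ y.coeff b ≠ 0 ∧ a + b = e := by
  classical
  rw [AddMonoidAlgebra.coeff_mul, Finsupp.sum] at h
  obtain ⟨a, ha, h1⟩ := Finset.exists_ne_zero_of_sum_ne_zero h
  rw [Finsupp.sum] at h1
  obtain ⟨b, hb, h2⟩ := Finset.exists_ne_zero_of_sum_ne_zero h1
  refine ⟨a, b, Finsupp.mem_support_iff.1 ha, Finsupp.mem_support_iff.1 hb, ?_⟩
  by_contra hne
  rw [if_neg hne] at h2
  exact h2 rfl

/-- Laurent polynomials with exponents in a set -/
def SP (P : GG → Prop) : AddSubmonoid LL where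
  carrier := {x | ∀ e, x.coeff e ≠ 0 → P e}
  zero_mem' := fun e he => absurd rfl he
  add_mem' {a b} ha hb e he := by
    by_cases h : a.coeff e = 0
    · by_cases h' : b.coeff e = 0
      · exfalso; apply he
        show a.coeff e + b.coeff e = 0
        rw [h, h', add_zero]
      · exact hb e h'
    · exact ha e h

lemma SP_mul {P P' P'' : GG → Prop} (h : ∀ a b, P a → P' b → P'' (a + b)) {x y : LL}
    (hx : x ∈ SP P) (hy : y ∈ SP P') : x * y ∈ SP P'' := by
  intro e he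
  obtain ⟨a, b, ha, hb, rfl⟩ := coeff_mul_ne he
  exact h a b (hx a ha) (hy b hb)

lemma mon_mem_SP {P : GG → Prop} {e : GG} (h : P e) : mon e ∈ SP P := by
  intro g hg
  rw [coeff_mon] at hg
  by_cases h1 : e = g
  · subst h1; exact h
  · rw [if_neg h1] at hg; exact absurd rfl hg

lemma cf_mul_support {g z : QQ} {i : Fin 3} {e : GG} (h : cf (g * z) i e ≠ 0) :
    ∃ i' e' i'' e'', cf g i' e' ≠ 0 ∧ cf z i'' e'' ≠ 0 ∧ ∀ k, e' k + e'' k ≤ e k := by
  let P : GG → Prop := fun e =>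
    ∃ i' e' i'' e'', cf g i' e' ≠ 0 ∧ cf z i'' e'' ≠ 0 ∧ ∀ k, e' k + e'' k ≤ e k
  have hup : ∀ a b, (∀ k, 0 ≤ a k) → P b → P (a + b) := by
    rintro a b ha ⟨i', e', i'', e'', h1, h2, h3⟩
    exact ⟨i', e', i'', e'', h1, h2, fun k => by
      have := ha k; have := h3 k; rw [Pi.add_apply]; linarith⟩
  have hprod : ∀ i' i'', crd g i' * crd z i'' ∈ SP P := by
    intro i' i'' e he
    obtain ⟨a, b, ha, hb, rfl⟩ := coeff_mul_ne he
    exact ⟨i', a, i'', b, ha, hb, fun k => le_rfl⟩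
  have ht : iT (MvPolynomial.X 1) ∈ SP (fun a => ∀ k, 0 ≤ a k) := by
    rw [iT_t]
    exact mon_mem_SP (by rw [forall_fin3]; simp)
  have hq : iT (MvPolynomial.X 2 + MvPolynomial.X 0 ^ 2) ∈ SP (fun a => ∀ k, 0 ≤ a k) := by
    rw [iT_q]
    exact AddSubmonoid.add_mem _ (mon_mem_SP (by rw [forall_fin3]; simp))
      (mon_mem_SP (by rw [forall_fin3]; simp))
  have h00 := hprod 0 0
  have h01 := hprod 0 1
  have h02 := hprod 0 2
  have h10 := hprod 1 0
  have h11 := hprod 1 1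
  have h12 := hprod 1 2
  have h20 := hprod 2 0
  have h21 := hprod 2 1
  have h22 := hprod 2 2
  have key : ∀ i, crd (g * z) i ∈ SP P := by
    rw [forall_fin3]
    refine ⟨?_, ?_, ?_⟩
    · exact AddSubmonoid.add_mem _ h00 (SP_mul hup hq (AddSubmonoid.add_mem _ h12 h21))
    · exact AddSubmonoid.add_mem _ (AddSubmonoid.add_mem _ (AddSubmonoid.add_mem _ h01 h10)
        (SP_mul hup ht (AddSubmonoid.add_mem _ h12 h21))) (SP_mul hup hq h22)
    · exact AddSubmonoid.add_mem _ (AddSubmonoid.add_mem _ (AddSubmonoid.add_mem _ h02 h11) h20)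
        (SP_mul hup ht h22)
  exact key i e h

/-- elements of `S`, seen in `Q` -/
def InS (g : QQ) : Prop := ∀ i e, cf g i e ≠ 0 → ∀ k, 0 ≤ e k

lemma InS.mul {g g' : QQ} (h : InS g) (h' : InS g') : InS (g * g') := by
  intro i e he k
  obtain ⟨i', e', i'', e'', h1, h2, h3⟩ := cf_mul_support he
  have := h i' e' h1 k
  have := h' i'' e'' h2 k
  have := h3 k
  linarith

lemma InS.add {g g' : QQ} (h : InS g) (h' : InS g') : InS (g + g') := by
  intro i e he
  rw [cf_add] at he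
  by_cases h1 : cf g i e = 0
  · by_cases h2 : cf g' i e = 0
    · rw [h1, h2, add_zero] at he; exact absurd rfl he
    · exact h' i e h2
  · exact h i e h1

lemma inS_MM {i : Fin 3} {a b c : ℤ} (ha : 0 ≤ a) (hb : 0 ≤ b) (hc : 0 ≤ c) :
    InS (MM i (v a b c)) := by
  intro j g hg
  rw [cf_MM] at hg
  have : i = j ∧ v a b c = g := by
    by_contra hcon
    rw [if_neg hcon] at hg
    exact hg rfl
  obtain ⟨-, rfl⟩ := this
  rw [forall_fin3]
  exact ⟨ha, hb, hc⟩

lemma InS.pow {g : QQ} (h : InS g) (n : ℕ) : InS (g ^ n) := by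
  induction n with
  | zero =>
    rw [pow_zero, ← MM_zero]
    have := inS_MM (i := 0) (a := 0) (b := 0) (c := 0) le_rfl le_rfl le_rfl
    convert this using 2
    funext k; fin_cases k <;> rfl
  | succ n ih => rw [pow_succ]; exact ih.mul h

/-- `h S ⊆ R` -/
lemma InS.inR {g : QQ} (h : InS g) : InR (MM 0 (v 0 0 1) * g) := by
  intro i e he k
  rw [cf_MM0_mul] at he
  have h1 := h i _ he k
  have h2 := kap_le i k
  fin_cases k
  · simpa using h1
  · simpa using h1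
  · simp only [Pi.sub_apply] at h1
    have h3 : v 0 0 1 (2 : Fin 3) = 1 := rfl
    change 0 ≤ e 2 - v 0 0 1 2 at h1
    rw [h3] at h1
    change kap i 2 ≤ e 2
    have h4 := kap_le i 2
    linarith

lemma W_mul {g z : QQ} (hg : InS g) (hz : GoodT kap0 z) : GoodT kap0 (g * z) := by
  intro i e he
  by_contra hne
  obtain ⟨i', e', i'', e'', h1, h2, h3⟩ := cf_mul_support hne
  apply h2
  apply hz
  intro k
  have := hg i' e' h1 k
  have := h3 k
  have h4 := he k
  simp only [kap0] at h4 ⊢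
  linarith

lemma coeff_sq_ne {x : LL} {e : GG} (h : (x ^ 2).coeff e ≠ 0) : ∃ a, x.coeff a ≠ 0 ∧ a + a = e := by
  classical
  have h1 : x = ∑ e ∈ x.coeff.support, mon e := by
    conv_lhs => rw [← AddMonoidAlgebra.sum_coeff_single x]
    rw [Finsupp.sum]
    refine Finset.sum_congr rfl fun e he => ?_
    rw [Finsupp.mem_support_iff] at he
    rw [zmod2_ne_zero he]
    rfl
  have h2 : x ^ 2 = ∑ a ∈ x.coeff.support, mon (a + a) := by
    conv_lhs => rw [h1]
    rw [sum_pow_char 2]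
    refine Finset.sum_congr rfl fun a _ => ?_
    rw [pow_two, mon_mul_mon]
  have h3 : x ^ 2 ∈ SP (fun e => ∃ a, x.coeff a ≠ 0 ∧ a + a = e) := by
    rw [h2]
    refine AddSubmonoid.sum_mem _ fun a ha => mon_mem_SP ⟨a, Finsupp.mem_support_iff.1 ha, rfl⟩
  exact h3 e h

lemma W_sq {z : QQ} (hz : GoodT kap0 z) : GoodT kap0 (z ^ 2) := by
  let P : GG → Prop := fun e => ∃ k, 0 ≤ e k
  have hcrd : ∀ i, crd z i ^ 2 ∈ SP P := by
    intro i e he
    obtain ⟨a, ha, rfl⟩ := coeff_sq_ne he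
    obtain ⟨k, hk⟩ : ∃ k, 0 ≤ a k := by
      by_contra hcon
      push Not at hcon
      exact ha (hz i a hcon)
    exact ⟨k, by rw [Pi.add_apply]; linarith⟩
  have hup : ∀ a b, (∀ k, 0 ≤ a k) → P b → P (a + b) := by
    rintro a b ha ⟨k, hk⟩
    exact ⟨k, by rw [Pi.add_apply]; have := ha k; linarith⟩
  have ht : iT (MvPolynomial.X 1) ∈ SP (fun a => ∀ k, 0 ≤ a k) := by
    rw [iT_t]
    exact mon_mem_SP (by rw [forall_fin3]; simp)
  have hq : iT (MvPolynomial.X 2 + MvPolynomial.X 0 ^ 2) ∈ SP (fun a => ∀ k, 0 ≤ a k) := by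
    rw [iT_q]
    exact AddSubmonoid.add_mem _ (mon_mem_SP (by rw [forall_fin3]; simp))
      (mon_mem_SP (by rw [forall_fin3]; simp))
  have h0 := hcrd 0
  have h1 := hcrd 1
  have h2 := hcrd 2
  have key : ∀ i, crd (z ^ 2) i ∈ SP P := by
    rw [forall_fin3]
    refine ⟨?_, ?_, ?_⟩
    · have : crd (z ^ 2) 0 = crd z 0 ^ 2 := Cub.sq_c0 z
      rw [this]; exact h0
    · have : crd (z ^ 2) 1 = iT (MvPolynomial.X 2 + MvPolynomial.X 0 ^ 2) * crd z 2 ^ 2 :=
        Cub.sq_c1 z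
      rw [this]; exact SP_mul hup hq h2
    · have : crd (z ^ 2) 2 = crd z 1 ^ 2 + iT (MvPolynomial.X 1) * crd z 2 ^ 2 := Cub.sq_c2 z
      rw [this]; exact AddSubmonoid.add_mem _ h1 (SP_mul hup ht h2)
  intro i e he
  by_contra hne
  obtain ⟨k, hk⟩ := key i e hne
  have h4 := he k
  simp only [kap0] at h4
  linarith

end

end Pool.Agent.Lib_helper39.FAN
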