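import Pool.Agent.Lib_helper39.FAN.Top4

namespace Pool.Agent.Lib_helper39.FAN

open Finset

noncomputable section

lemma goodW_MM {i : Fin 3} {a b c : ℤ} (h : 0 ≤ a ∨ 0 ≤ b ∨ 0 ≤ c) :
    GoodT kap0 (MM i (v a b c)) := by
  apply goodT_MM
  rcases h with h | h | h
  · exact ⟨0, h⟩
  · exact ⟨1, h⟩
  · exact ⟨2, h⟩

lemma goodW_zero : GoodT kap0 0 := fun i e _ => cf_zero i e

section StepII

variable (N : Submodule RR QQ) (hW : ∀ z, GoodT kap0 z → z ∈ N) (hF : ∀ x ∈ N, x ^ 2 ∈ N)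

lemma mem_of_add_W {z w : QQ} (hW : ∀ z, GoodT kap0 z → z ∈ N) (h : z + w ∈ N)
    (hw : GoodT kap0 w) : z ∈ N := by
  have h1 : z = (z + w) - w := by abel
  rw [h1]
  exact N.sub_mem h (hW w hw)

/-- Step from `g w = y²/(sth) + δ` -/
lemma omega_mem {g w δ : QQ} (hW : ∀ z, GoodT kap0 z → z ∈ N) (hF : ∀ x ∈ N, x ^ 2 ∈ N)
    (hg : InS g) (hw : w ∈ N) (hgw : g * w = MM 2 (v (-1) (-1) (-1)) + δ) (hδ : GoodT kap0 δ) :
    MM 2 (v (-2) (-1) (-1)) ∈ N := by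
  have h1 := mul_mem_of_inR N (hg.pow 2).inR (hF w hw)
  have h2 : MM 0 (v 0 0 1) * g ^ 2 * w ^ 2 = MM 2 (v (-2) (-1) (-1)) +
      (MM 1 (v (-2) (-2) 0) + MM 1 (v 0 (-2) (-1)) + MM 0 (v 0 0 1) * δ ^ 2) := by
    have h3 : MM 0 (v 0 0 1) * g ^ 2 * w ^ 2 = MM 0 (v 0 0 1) * (g * w) ^ 2 := by ring
    rw [h3, hgw, add_pow_char _ _ 2, MM2_sq, mul_add, mul_add, mul_add, MM0_mul, MM0_mul, MM0_mul]
    norm_num
    ring
  rw [h2] at h1
  refine mem_of_add_W N hW h1 (GoodT.add (GoodT.add (goodW_MM (by simp)) (goodW_MM (by simp))) ?_)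
  exact W_mul (inS_MM le_rfl le_rfl (by norm_num)) (W_sq hδ)

theorem step_ii_start {x : QQ} (hW : ∀ z, GoodT kap0 z → z ∈ N) (hF : ∀ x ∈ N, x ^ 2 ∈ N)
    (hx : x ∈ N) (hx' : ¬ GoodT kap0 x) : MM 2 (v (-2) (-1) (-1)) ∈ N := by
  obtain ⟨a, ha, ha1, ha2⟩ := socle kap0 (fun _ _ => by norm_num [kap0]) x hx'
  have hw : MM 0 a * x ∈ N := mul_mem_of_inR N (inR_MM (by
    rw [forall_fin3]; simp [ha])) hx
  set w := MM 0 a * x with hwdef
  have h1 := corner_spec kap0 w ha2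
  have h2 : corner kap0 w ∈ N := by
    have : corner kap0 w = w - (w - corner kap0 w) := by abel
    rw [this]
    exact N.sub_mem hw (hW _ h1)
  obtain ⟨b, hb, hb'⟩ := corner_eq kap0 w
  have h3 : ¬ ∀ i, b i = false := by
    intro hcon
    apply ha1
    rw [hb' hcon, sub_zero] at h1
    exact h1
  rw [hb, Fin.sum_univ_three] at h2
  have e0 : ∀ i, (fun k => kap0 i k - 1) = v (-1) (-1) (-1) := by
    intro i; funext k; fin_cases k <;> simp [v, kap0]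
  simp only [e0] at h2
  by_cases hb0 : b 0 = true
  · refine omega_mem N (g := MM 2 (v 0 0 0))
      (δ := (if b 1 = true then MM 1 (v (-1) 0 (-1)) + MM 0 (v (-1) (-1) 0) + MM 0 (v 1 (-1) (-1))
        else 0) + (if b 2 = true then MM 2 (v (-1) 0 (-1)) + MM 1 (v (-1) (-1) 0) +
          MM 1 (v 1 (-1) (-1)) else 0)) hW hF (inS_MM le_rfl le_rfl le_rfl) h2 ?_ ?_
    · rw [if_pos hb0, mul_add, mul_add, mul_comm (MM 2 _) (MM 0 _), MM0_mul, mul_ite, mul_ite,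
        mul_comm (MM 2 _) (MM 1 _), MM1_mul_MM2, MM2_mul_MM2, mul_zero]
      norm_num
      ring
    · refine GoodT.add ?_ ?_
      · split_ifs
        · exact GoodT.add (GoodT.add (goodW_MM (by simp)) (goodW_MM (by simp))) (goodW_MM (by simp))
        · exact goodW_zero
      · split_ifs
        · exact GoodT.add (GoodT.add (goodW_MM (by simp)) (goodW_MM (by simp))) (goodW_MM (by simp))
        · exact goodW_zero
  · by_cases hb1 : b 1 = true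
    · refine omega_mem N (g := MM 1 (v 0 0 0))
        (δ := (if b 2 = true then MM 1 (v (-1) 0 (-1)) + MM 0 (v (-1) (-1) 0) +
          MM 0 (v 1 (-1) (-1)) else 0)) hW hF (inS_MM le_rfl le_rfl le_rfl) h2 ?_ ?_
      · rw [if_neg hb0, if_pos hb1, zero_add, mul_add, mul_ite, MM1_mul_MM1, v_add,
          MM1_mul_MM2, mul_zero]
        norm_num
      · split_ifs
        · exact GoodT.add (GoodT.add (goodW_MM (by simp)) (goodW_MM (by simp))) (goodW_MM (by simp))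
        · exact goodW_zero
    · have hb2 : b 2 = true := by
        by_contra hb2
        apply h3
        rw [forall_fin3]
        simp only [Bool.not_eq_true] at hb0 hb1 hb2
        exact ⟨hb0, hb1, hb2⟩
      refine omega_mem N (g := MM 0 (v 0 0 0)) (δ := 0) hW hF (inS_MM le_rfl le_rfl le_rfl) h2 ?_
        goodW_zero
      rw [if_neg hb0, if_neg hb1, if_pos hb2, zero_add, zero_add, MM0_mul]
      norm_num

lemma pow_mem_two_pow (hF : ∀ x ∈ N, x ^ 2 ∈ N) {x : QQ} (hx : x ∈ N) (m : ℕ) :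
    x ^ (2 ^ m) ∈ N := by
  induction m with
  | zero => simpa using hx
  | succ m ih =>
    have := hF _ ih
    rwa [← pow_mul, ← pow_succ] at this

lemma MM0_pow_v (a b c : ℤ) (n : ℕ) : MM 0 (v a b c) ^ n = MM 0 (v (n * a) (n * b) (n * c)) := by
  rw [MM0_pow, nsmul_v]

/-- `y` in `Q` -/
def YY : QQ := MM 1 (v 0 0 0)

lemma YY_sq : YY ^ 2 = MM 2 (v 0 0 0) := by
  unfold YY
  rw [MM1_sq]
  norm_num

lemma MM2_eq (a b c : ℤ) : MM 2 (v a b c) = MM 0 (v a b c) * YY ^ 2 := by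
  rw [YY_sq, MM0_mul]
  simp

lemma YY_cube : YY ^ 3 = MM 0 (v 0 1 0) * YY + (MM 0 (v 0 0 1) + MM 0 (v 2 0 0)) := by
  have h : YY ^ 3 = YY * YY ^ 2 := by ring
  rw [h, YY_sq]
  unfold YY
  rw [MM1_mul_MM2, MM0_mul]
  norm_num
  ring

lemma YY_cube_pow (m : ℕ) : YY ^ (3 * 2 ^ m) =
    MM 0 (v 0 ((2 ^ m : ℕ) : ℤ) 0) * YY ^ (2 ^ m) +
      (MM 0 (v 0 0 ((2 ^ m : ℕ) : ℤ)) + MM 0 (v (2 * ((2 ^ m : ℕ) : ℤ)) 0 0)) := by
  have e1 : MM 0 (v 0 1 0) ^ (2 ^ m) = MM 0 (v 0 ((2 ^ m : ℕ) : ℤ) 0) := by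
    rw [MM0_pow_v, mul_zero, mul_one]
  have e2 : MM 0 (v 0 0 1) ^ (2 ^ m) = MM 0 (v 0 0 ((2 ^ m : ℕ) : ℤ)) := by
    rw [MM0_pow_v, mul_zero, mul_one]
  have e3 : MM 0 (v 2 0 0) ^ (2 ^ m) = MM 0 (v (2 * ((2 ^ m : ℕ) : ℤ)) 0 0) := by
    rw [MM0_pow_v, mul_zero, mul_comm]
  rw [pow_mul, YY_cube, add_pow_char_pow _ _ 2 m, add_pow_char_pow _ _ 2 m, mul_pow, e1, e2, e3]

lemma pole_identity (q : ℕ) (A B : QQ) (hA : A = MM 0 (v 0 0 q))
    (hB : B = MM 0 (v 0 q 0) * YY ^ q + MM 0 (v (2 * q) 0 0)) (hAB : YY ^ (3 * q) = A + B) :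
    MM 0 (v 0 0 1) * (MM 0 (v (6 * q) (3 * q) 0) * YY ^ q) *
      (MM 0 (v (((4 * q : ℕ) : ℤ) * (-2)) (((4 * q : ℕ) : ℤ) * (-1)) (((4 * q : ℕ) : ℤ) * (-1))) *
        YY ^ (2 * (4 * q))) =
      MM 0 (v (-2 * q) (-q) (1 - q)) + (3 * A ^ 2 + 3 * A * B + B ^ 2) *
      (YY ^ q * MM 0 (v (-2 * q) 0 (1 - 4 * q)) + MM 0 (v 0 (-q) (1 - 4 * q))) := by
  have h5 : MM 0 (v 0 0 1) * (MM 0 (v (6 * q) (3 * q) 0) *
      MM 0 (v (((4 * q : ℕ) : ℤ) * (-2)) (((4 * q : ℕ) : ℤ) * (-1)) (((4 * q : ℕ) : ℤ) * (-1)))) =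
      MM 0 (v (-2 * q) (-q) (1 - 4 * q)) := by
    rw [MM0_mul, MM0_mul]
    congr 2 <;> push_cast <;> ring
  have h6 : MM 0 (v (-2 * q) (-q) (1 - 4 * q)) * A ^ 3 = MM 0 (v (-2 * q) (-q) (1 - q)) := by
    rw [hA, MM0_pow_v, MM0_mul]
    congr 2 <;> push_cast <;> ring
  have h7 : MM 0 (v (-2 * q) (-q) (1 - 4 * q)) * MM 0 (v 0 q 0) =
      MM 0 (v (-2 * q) 0 (1 - 4 * q)) := by
    rw [MM0_mul]
    congr 2 <;> ring
  have h8 : MM 0 (v (-2 * q) (-q) (1 - 4 * q)) * MM 0 (v (2 * q) 0 0) =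
      MM 0 (v 0 (-q) (1 - 4 * q)) := by
    rw [MM0_mul]
    congr 2 <;> ring
  have h9 : YY ^ (9 * q) = A ^ 3 + B * (3 * A ^ 2 + 3 * A * B + B ^ 2) := by
    have : YY ^ (9 * q) = (YY ^ (3 * q)) ^ 3 := by rw [← pow_mul]; congr 1; ring
    rw [this, hAB]; ring
  have h10 : YY ^ (9 * q) = YY ^ q * YY ^ (2 * (4 * q)) := by
    rw [← pow_add]; congr 1; ring
  calc _ = (MM 0 (v 0 0 1) * (MM 0 (v (6 * q) (3 * q) 0) *
      MM 0 (v (((4 * q : ℕ) : ℤ) * (-2)) (((4 * q : ℕ) : ℤ) * (-1)) (((4 * q : ℕ) : ℤ) * (-1))))) *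
      YY ^ (9 * q) := by rw [h10]; ring
    _ = MM 0 (v (-2 * q) (-q) (1 - 4 * q)) * A ^ 3 + (3 * A ^ 2 + 3 * A * B + B ^ 2) *
      (YY ^ q * (MM 0 (v (-2 * q) (-q) (1 - 4 * q)) * MM 0 (v 0 q 0)) +
        MM 0 (v (-2 * q) (-q) (1 - 4 * q)) * MM 0 (v (2 * q) 0 0)) := by
      rw [h5, h9, hB]; ring
    _ = _ := by rw [h6, h7, h8]

lemma one_eq_MM : (1 : QQ) = MM 0 (v 0 0 0) := by
  rw [← MM_zero]; congr 1; funext k; fin_cases k <;> rfl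

lemma inS_one : InS (1 : QQ) := by
  rw [one_eq_MM]; exact inS_MM le_rfl le_rfl le_rfl

lemma inS_three : InS (3 : QQ) := by
  have h3 : (3 : QQ) = 1 + 1 + 1 := by norm_num
  rw [h3]
  exact (inS_one.add inS_one).add inS_one

lemma top_pole (hW : ∀ z, GoodT kap0 z → z ∈ N) (hF : ∀ x ∈ N, x ^ 2 ∈ N)
    (h : MM 2 (v (-2) (-1) (-1)) ∈ N) (m : ℕ) :
    MM 0 (v (-2 * ((2 ^ m : ℕ) : ℤ)) (-((2 ^ m : ℕ) : ℤ)) (1 - ((2 ^ m : ℕ) : ℤ))) ∈ N := by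
  have h1 := pow_mem_two_pow N hF h (m + 2)
  have h4q : 2 ^ (m + 2) = 4 * 2 ^ m := by ring
  have hY3q := YY_cube_pow m
  rw [h4q, MM2_eq, mul_pow, MM0_pow_v, ← pow_mul] at h1
  generalize (2 ^ m : ℕ) = q at *
  have hYS : InS YY := inS_MM le_rfl le_rfl le_rfl
  have hG : InS (MM 0 (v (6 * q) (3 * q) 0) * YY ^ q) :=
    (inS_MM (by positivity) (by positivity) le_rfl).mul (hYS.pow q)
  have h2 := mul_mem_of_inR N hG.inR h1
  have hAB : YY ^ (3 * q) = MM 0 (v 0 0 q) + (MM 0 (v 0 q 0) * YY ^ q + MM 0 (v (2 * q) 0 0)) := by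
    rw [hY3q]; ring
  rw [pole_identity q _ _ rfl rfl hAB] at h2
  refine mem_of_add_W N hW h2 ?_
  have hAS : InS (MM 0 (v 0 0 (q : ℤ))) := inS_MM le_rfl le_rfl (by positivity)
  have hBS : InS (MM 0 (v 0 (q : ℤ) 0) * YY ^ q + MM 0 (v (2 * q) 0 0)) :=
    ((inS_MM le_rfl (by positivity) le_rfl).mul (hYS.pow q)).add
    (inS_MM (by positivity) le_rfl le_rfl)
  refine W_mul ?_ (GoodT.add ?_ (goodW_MM (by simp)))
  · exact ((inS_three.mul (hAS.pow 2)).add ((inS_three.mul hAS).mul hBS)).add (hBS.pow 2)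
  · exact W_mul (hYS.pow q) (goodW_MM (by simp))

theorem step_ii {x : QQ} (hW : ∀ z, GoodT kap0 z → z ∈ N) (hF : ∀ x ∈ N, x ^ 2 ∈ N)
    (hx : x ∈ N) (hx' : ¬ GoodT kap0 x) (z : QQ) : z ∈ N := by
  have h1 := step_ii_start N hW hF hx hx'
  have h2 : ∀ e : GG, MM 0 e ∈ N := by
    intro e
    obtain ⟨m, hm⟩ : ∃ m : ℕ, ∀ k, -(e k) + 1 ≤ (2 : ℤ) ^ m := by
      let n : ℕ := univ.sup fun k => (-(e k) + 1).toNat
      refine ⟨n, fun k => ?_⟩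
      have h3 : (-(e k) + 1).toNat ≤ n := Finset.le_sup (f := fun k => (-(e k) + 1).toNat) (mem_univ k)
      have h4 : (n : ℤ) < 2 ^ n := by exact_mod_cast Nat.lt_two_pow_self
      have h5 := Int.self_le_toNat (-(e k) + 1)
      have h6 : ((-(e k) + 1).toNat : ℤ) ≤ n := by exact_mod_cast h3
      linarith
    have h3 := top_pole N hW hF h1 m
    rw [eq_v e]
    have hp : (0 : ℤ) < 2 ^ m := by positivity
    have hc : ((2 ^ m : ℕ) : ℤ) = 2 ^ m := by push_cast; rfl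
    rw [hc] at h3
    refine down N ?_ ?_ ?_ h3
    · have := hm 0; linarith
    · have := hm 1; linarith
    · have := hm 2; linarith
  have h3 : ∀ e : GG, MM 1 e ∈ N := by
    intro e
    have h4 := mul_mem_of_inR N (g := MM 1 (v 0 0 1)) (inR_MM (by rw [forall_fin3]; simp))
      (h2 (e - v 0 0 1))
    rwa [mul_comm, MM0_mul_MM, sub_add_cancel] at h4
  have h4 : ∀ e : GG, MM 2 e ∈ N := by
    intro e
    have h4 := mul_mem_of_inR N (g := MM 2 (v 0 0 1)) (inR_MM (by rw [forall_fin3]; simp))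
      (h2 (e - v 0 0 1))
    rwa [mul_comm, MM0_mul_MM, sub_add_cancel] at h4
  apply mem_of_MM
  intro i e _
  fin_cases i
  · exact h2 e
  · exact h3 e
  · exact h4 e

end StepII

/-- the submodule of elements whose square lies in `N` -/
def sqPre (N : Submodule RR QQ) : Submodule RR QQ := N.comap (frobAlg (R := RR) 2 QQ)

lemma mem_sqPre {N : Submodule RR QQ} {x : QQ} : x ∈ sqPre N ↔ x ^ 2 ∈ N :=
  mem_comap_frobAlg 2 N x

lemma corner1_not_good : ¬ Good (MM 1 (v (-1) (-1) 0) ^ 2) := by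
  intro h8
  rw [MM1_sq] at h8
  have h9 := h8 2 (v (2 * -1) (2 * -1) (2 * 0)) (by rw [forall_fin3]; norm_num)
  rw [cf_MM, if_pos ⟨rfl, rfl⟩] at h9
  exact one_ne_zero h9

lemma corner0_not_goodW : ¬ GoodT kap0 (MM 0 (v (-1) (-1) (-1)) ^ 2) := by
  intro h7
  rw [MM0_pow_v] at h7
  have h9 := h7 0 (v (((2 : ℕ) : ℤ) * (-1)) (((2 : ℕ) : ℤ) * (-1)) (((2 : ℕ) : ℤ) * (-1)))
    (by rw [forall_fin3]; norm_num [kap0])
  rw [cf_MM, if_pos ⟨rfl, rfl⟩] at h9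
  exact one_ne_zero h9

lemma exists_not_good (N : Submodule RR QQ) (hB : BB ≤ N) (x : QQ)
    (hx : x ^ 2 ∈ N) (hxN : x ∉ N) : ∃ z ∈ N, ¬ Good z := by
  by_contra hcon
  push Not at hcon
  -- then `N = BB`; look at the submodule of `z` with `z ^ 2 ∈ BB`
  have h2 : BB ≤ sqPre BB := fun z hz => mem_sqPre.2 (BB_sq z hz)
  have h3 : ∀ z ∈ sqPre BB, z ^ 2 ∈ sqPre BB := fun z hz => mem_sqPre.2 (BB_sq _ (mem_sqPre.1 hz))
  have h4 : x ∈ sqPre BB := mem_sqPre.2 (hcon _ hx)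
  have h5 : ¬ Good x := fun hg => hxN (hB hg)
  have h6 := growth_start (sqPre BB) h2 h3 (step_i (sqPre BB) h2 h3 h4 h5)
  have h7 := (growth (sqPre BB) h2 h3 h6 (-1) (-1)).1
  exact corner1_not_good (mem_BB.1 (mem_sqPre.1 h7))

lemma not_all_goodW (N : Submodule RR QQ) (hF : ∀ x ∈ N, x ^ 2 ∈ N)
    (hW : ∀ w, GoodT kap0 w → w ∈ N) (x : QQ)
    (hx : x ^ 2 ∈ N) (hxN : x ∉ N) : ¬ ∀ w ∈ N, GoodT kap0 w := by
  intro h2
  have h3 : ∀ w, GoodT kap0 w → w ∈ sqPre N := fun w hw => mem_sqPre.2 (hW _ (W_sq hw))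
  have h4 : ∀ w ∈ sqPre N, w ^ 2 ∈ sqPre N := fun w hw => mem_sqPre.2 (hF _ (mem_sqPre.1 hw))
  have h5 : ¬ GoodT kap0 x := fun hg => hxN (hW x hg)
  have h6 := step_ii (sqPre N) h3 h4 (mem_sqPre.2 hx) h5 (MM 0 (v (-1) (-1) (-1)))
  exact corner0_not_goodW (h2 _ (mem_sqPre.1 h6))

/-- The top Čech cohomology of `R` on `s, t, h` is anti-nilpotent. -/
theorem top_AN (N : Submodule RR QQ) (hB : BB ≤ N) (hF : ∀ x ∈ N, x ^ 2 ∈ N) (x : QQ)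
    (hx : x ^ 2 ∈ N) : x ∈ N := by
  by_contra hxN
  obtain ⟨z, hzN, hz⟩ := exists_not_good N hB x hx hxN
  have hW : ∀ w, GoodT kap0 w → w ∈ N := fun w hw => W_le N hB hF hzN hz hw
  have h2 := not_all_goodW N hF hW x hx hxN
  push Not at h2
  obtain ⟨w, hwN, hw⟩ := h2
  exact hxN (step_ii N hW hF hwN hw x)

end

end Pool.Agent.Lib_helper39.FAN
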