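import Pool.Agent.Lib_helper39.FAN.Embed

namespace Pool.Agent.Lib_helper39.FAN

open Finset

set_option linter.unusedSectionVars false

section ANU

variable {R : Type*} [CommRing R] (p : ℕ) [Fact p.Prime] [CharP R p]

/-- Anti-nilpotency of `Z / B` up to the action of a submonoid `U`. -/
def ANU (U : Submonoid R) {M : Type*} [AddCommGroup M] [Module R M] (F : M →ₛₗ[frobenius R p] M)
    (Z B : Submodule R M) : Prop :=
  ∀ N : Submodule R M, B ≤ N → N ≤ Z → (∀ x ∈ N, F x ∈ N) → ∀ x ∈ Z, F x ∈ N → ∃ u ∈ U, u • x ∈ N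

/-- Transfer of anti-nilpotency along a map inducing an isomorphism of subquotients. -/
theorem ANU_of_map (U : Submonoid R)
    {M M' : Type*} [AddCommGroup M] [Module R M] [AddCommGroup M'] [Module R M']
    (F : M →ₛₗ[frobenius R p] M) (F' : M' →ₛₗ[frobenius R p] M') {Z B : Submodule R M}
    {Z' B' : Submodule R M'} (g : M →ₗ[R] M') (hg : ∀ x, g (F x) = F' (g x))
    (hB' : B' ≤ Z')
    (hFB' : ∀ x ∈ B', F' x ∈ B')
    (h1 : ∀ z ∈ Z, g z ∈ Z')
    (h3 : ∀ z ∈ Z, g z ∈ B' → z ∈ B) (h : ANU p U F' Z' B') :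
    ANU p U F Z B := by
  intro N hBN hNZ hF x hx hFx
  obtain ⟨u, hu, h5⟩ := h (N.map g ⊔ B') le_sup_right
    (sup_le (by rintro _ ⟨n, hn, rfl⟩; exact h1 n (hNZ hn)) hB')
    (by
      intro y hy
      obtain ⟨_, ⟨n, hn, rfl⟩, b, hb, rfl⟩ := Submodule.mem_sup.1 hy
      rw [map_add, ← hg]
      exact Submodule.add_mem_sup (Submodule.mem_map_of_mem (hF n hn)) (hFB' b hb))
    (g x) (h1 x hx) (by
      rw [← hg]
      exact Submodule.mem_sup_left (Submodule.mem_map_of_mem hFx))
  obtain ⟨_, ⟨n, hn, rfl⟩, b, hb, hb'⟩ := Submodule.mem_sup.1 h5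
  have h6 : g (u • x - n) = b := by rw [map_sub, map_smul, ← hb']; abel
  have h7 : u • x - n ∈ B := h3 _ (Z.sub_mem (Z.smul_mem u hx) (hNZ hn)) (h6 ▸ hb)
  refine ⟨u, hu, ?_⟩
  have h8 : u • x = (u • x - n) + n := by abel
  rw [h8]
  exact N.add_mem (hBN h7) hn

lemma exists_uniform_submonoid {α : Type*} [Finite α] (U : Submonoid R) (P : α → R → Prop)
    (hP : ∀ a u v, P a u → P a (v * u)) (h : ∀ a, ∃ u ∈ U, P a u) : ∃ u ∈ U, ∀ a, P a u := by
  classical
  cases nonempty_fintype α
  choose u hu hPu using h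
  refine ⟨∏ a, u a, Submonoid.prod_mem _ (fun a _ => hu a), fun a => ?_⟩
  rw [← Finset.prod_erase_mul _ _ (Finset.mem_univ a)]
  exact hP _ _ _ (hPu a)

end ANU

section Loc

variable {A B : Type*} [CommRing A] [CommRing B] [Algebra A B] (U : Submonoid A)
  [IsLocalization U B] {ι : Type*} [LinearOrder ι]
  (p : ℕ) [Fact p.Prime] [CharP A p] [CharP B p]

/-- The map `A_{f_S} → B_{f_S}`. -/
noncomputable def locMap (B : Type*) [CommRing B] [Algebra A B] (f : ι → A) (S : Finset ι) :
    Loc f S →+* Loc (algebraMap A B ∘ f) S :=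
  IsLocalization.Away.lift (∏ j ∈ S, f j)
    (g := (algebraMap B (Loc (algebraMap A B ∘ f) S)).comp (algebraMap A B)) (by
      have := isUnit_algebraMap_Loc (algebraMap A B ∘ f) (le_refl S)
      have h2 : ∏ j ∈ S, (algebraMap A B ∘ f) j = algebraMap A B (∏ j ∈ S, f j) :=
        (map_prod _ _ _).symm
      have h3 : ((algebraMap B (Loc (algebraMap A B ∘ f) S)).comp (algebraMap A B)) (∏ j ∈ S, f j)
        = algebraMap B (Loc (algebraMap A B ∘ f) S) (∏ j ∈ S, (algebraMap A B ∘ f) j) :=
        congrArg (algebraMap B (Loc (algebraMap A B ∘ f) S)) h2.symm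
      rw [h3]
      exact this)

lemma locMap_algebraMap (f : ι → A) (S : Finset ι) (a : A) :
    locMap B f S (algebraMap A _ a) = algebraMap B _ (algebraMap A B a) :=
  IsLocalization.Away.lift_eq _ _ _

lemma locMap_smul (f : ι → A) (S : Finset ι) (a : A) (x : Loc f S) :
    locMap B f S (a • x) = algebraMap A B a • locMap B f S x := by
  rw [Algebra.smul_def, map_mul, locMap_algebraMap, ← Algebra.smul_def]

lemma locMap_res (f : ι → A) {S T : Finset ι} (h : S ⊆ T) (x : Loc f S) :
    locMap B f T (res f h x) = res (algebraMap A B ∘ f) h (locMap B f S x) := by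
  have : (locMap B f T).comp (res f h).toRingHom =
      (res (algebraMap A B ∘ f) h).toRingHom.comp (locMap B f S) := by
    apply IsLocalization.ringHom_ext (Submonoid.powers (∏ j ∈ S, f j))
    ext a
    simp only [AlgHom.toRingHom_eq_coe, RingHom.coe_comp, RingHom.coe_coe, Function.comp_apply,
      AlgHom.commutes, locMap_algebraMap]
  exact DFunLike.congr_fun this x

/-- The map on cochains induced by a localization. -/
noncomputable def lam (B : Type*) [CommRing B] [Algebra A B] (f : ι → A) :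
    Cochain f →+ Cochain (algebraMap A B ∘ f) where
  toFun c S := locMap B f S (c S)
  map_zero' := by funext S; simp
  map_add' a b := by funext S; simp

lemma lam_apply (f : ι → A) (c : Cochain f) (S : Finset ι) :
    lam B f c S = locMap B f S (c S) := rfl

lemma lam_smul (f : ι → A) (a : A) (c : Cochain f) :
    lam B f (a • c) = algebraMap A B a • lam B f c := by
  funext S
  rw [lam_apply, Pi.smul_apply, locMap_smul, Pi.smul_apply, lam_apply]

lemma lam_d (f : ι → A) (c : Cochain f) :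
    lam B f (d f c) = d (algebraMap A B ∘ f) (lam B f c) := by
  funext T
  rw [lam_apply, d_apply, d_apply, map_sum]
  refine Finset.sum_congr rfl fun j _ => ?_
  rw [locMap_smul, locMap_res, lam_apply]
  congr 1
  simp [sgn]

lemma lam_frob (f : ι → A) (c : Cochain f) :
    lam B f (frobCochain p f c) = frobCochain p (algebraMap A B ∘ f) (lam B f c) := by
  funext T
  rw [lam_apply, frobCochain_apply, frobCochain_apply, map_pow, lam_apply]

lemma lam_proj (f : ι → A) (i : ℕ) (c : Cochain f) :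
    lam B f (proj f i c) = proj _ i (lam B f c) := by
  funext T
  rw [lam_apply]
  by_cases h : #T = i
  · simp only [proj, if_pos h, lam_apply]
  · simp only [proj, if_neg h, map_zero]

include U in
lemma lam_surj [Finite ι] (f : ι → A) (y : Cochain (algebraMap A B ∘ f)) :
    ∃ u ∈ U, ∃ x : Cochain f, lam B f x = algebraMap A B u • y := by
  classical
  have h : ∀ S : Finset ι, ∃ u ∈ U, ∃ z : Loc f S, locMap B f S z = algebraMap A B u • y S := by
    intro S
    obtain ⟨n, b, hb⟩ := exists_smul_eq (algebraMap A B ∘ f) S (y S)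
    obtain ⟨⟨a, u⟩, hau⟩ := IsLocalization.surj U b
    obtain ⟨z, hz⟩ : ∃ z : Loc f S, ((∏ j ∈ S, f j) ^ n) • z = algebraMap A (Loc f S) a :=
      ⟨IsLocalization.mk' (Loc f S) a
        (⟨(∏ j ∈ S, f j) ^ n, n, rfl⟩ : Submonoid.powers (∏ j ∈ S, f j)), by
        rw [Algebra.smul_def]
        exact IsLocalization.mk'_spec' (Loc f S) _ _⟩
    refine ⟨u, u.2, z, ?_⟩
    have h2 : (∏ j ∈ S, (algebraMap A B ∘ f) j) ^ n = algebraMap A B ((∏ j ∈ S, f j) ^ n) := by
      rw [map_pow, map_prod]; rfl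
    apply smul_isUnit_cancel (algebraMap A B ∘ f) (le_refl S) n
    refine (congrArg (fun r : B => r • locMap B f S z) h2).trans ?_
    rw [smul_comm, hb, ← locMap_smul, hz, locMap_algebraMap, Algebra.smul_def, ← map_mul, mul_comm]
    congr 1
    exact hau.symm
  obtain ⟨u, hu, h'⟩ := exists_uniform_submonoid U _ (by
    rintro S u v ⟨z, hz⟩
    exact ⟨v • z, by rw [locMap_smul, hz, smul_smul, ← map_mul]⟩) h
  choose x hx using h'
  exact ⟨u, hu, x, funext hx⟩

include U in
lemma lam_ker [Finite ι] (f : ι → A) (x : Cochain f) (hx : lam B f x = 0) :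
    ∃ u ∈ U, u • x = 0 := by
  classical
  have h : ∀ S : Finset ι, ∃ u ∈ U, u • x S = 0 := by
    intro S
    obtain ⟨n, a, ha⟩ := exists_smul_eq f S (x S)
    have h1 : algebraMap B (Loc (algebraMap A B ∘ f) S) (algebraMap A B a) = 0 := by
      rw [← locMap_algebraMap, ← ha, locMap_smul]
      have : locMap B f S (x S) = 0 := congrFun hx S
      rw [this, smul_zero]
    obtain ⟨m, hm⟩ := IsLocalization.Away.exists_of_eq (S := Loc (algebraMap A B ∘ f) S)
      (∏ k ∈ S, (algebraMap A B ∘ f) k) (h1.trans (map_zero _).symm)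
    have h2 : ∏ j ∈ S, (algebraMap A B ∘ f) j = algebraMap A B (∏ j ∈ S, f j) :=
      (map_prod _ _ _).symm
    rw [mul_zero, h2, ← map_pow, ← map_mul] at hm
    obtain ⟨u, hu⟩ := (IsLocalization.map_eq_zero_iff U B _).1 hm
    refine ⟨u, u.2, ?_⟩
    apply smul_isUnit_cancel f (le_refl S) (m + n)
    rw [smul_zero, smul_comm, pow_add, mul_smul, ha, Algebra.smul_def, Algebra.smul_def,
      ← map_mul, ← map_mul, hu, map_zero]
  obtain ⟨u, hu, h'⟩ := exists_uniform_submonoid U _ (by
    intro S u v hz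
    rw [mul_smul, hz, smul_zero]) h
  exact ⟨u, hu, funext h'⟩

lemma proj_eq_self (f : ι → A) {i : ℕ} {c : Cochain f} (hc : c ∈ deg f i) : proj f i c = c := by
  funext S
  by_cases h : #S = i
  · simp only [proj, if_pos h]
  · simp only [proj, if_neg h, hc S h]

lemma proj_d_mem_range (f : ι → A) (i : ℕ) (e : Cochain f) :
    proj f i (d f e) ∈ LinearMap.range (d f) := by
  cases i with
  | zero =>
    have : proj f 0 (d f e) = 0 := by
      funext S
      by_cases h : #S = 0
      · rw [Finset.card_eq_zero] at h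
        subst h
        simp [proj, d_apply]
      · simp only [proj, if_neg h, Pi.zero_apply]
    rw [this]
    exact Submodule.zero_mem _
  | succ i => exact ⟨proj f i e, d_proj f i e⟩

lemma isUnit_smul_cancel {M : Type*} [AddCommGroup M] [Module B M] {b : B} (hb : IsUnit b)
    (N : Submodule B M) {x : M} (h : b • x ∈ N) : x ∈ N := by
  obtain ⟨v, rfl⟩ := hb
  have := N.smul_mem (↑v⁻¹ : B) h
  rwa [smul_smul, Units.inv_mul, one_smul] at this

/-- Anti-nilpotency over a localization. -/
theorem AN_localization [Finite ι] (f : ι → A) (i : ℕ) :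
    AN p (frobCochain p (algebraMap A B ∘ f)) (cocycles (algebraMap A B ∘ f) i)
      (coboundaries (algebraMap A B ∘ f) i) ↔
    ANU p U (frobCochain p f) (cocycles f i) (coboundaries f i) := by
  have hunit : ∀ u ∈ U, IsUnit (algebraMap A B u) := fun u hu =>
    IsLocalization.map_units B ⟨u, hu⟩
  constructor
  · intro h N0 hB0 hZ0 hF0 x0 hx0 hFx0
    let N : Submodule B (Cochain (algebraMap A B ∘ f)) :=
      { carrier := {y | ∃ u ∈ U, ∃ z ∈ N0, lam B f z = algebraMap A B u • y}
        add_mem' := by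
          rintro y y' ⟨u, hu, z, hz, h1⟩ ⟨u', hu', z', hz', h1'⟩
          refine ⟨u * u', U.mul_mem hu hu', u' • z + u • z',
            N0.add_mem (N0.smul_mem _ hz) (N0.smul_mem _ hz'), ?_⟩
          rw [map_add, lam_smul, lam_smul, h1, h1', smul_smul, smul_smul, ← map_mul, ← map_mul,
            smul_add, mul_comm u' u]
        zero_mem' := ⟨1, U.one_mem, 0, N0.zero_mem, by rw [map_zero, smul_zero]⟩
        smul_mem' := by
          rintro b y ⟨u, hu, z, hz, h1⟩
          obtain ⟨⟨a, v⟩, hav⟩ := IsLocalization.surj U b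
          refine ⟨v * u, U.mul_mem v.2 hu, a • z, N0.smul_mem _ hz, ?_⟩
          rw [lam_smul, h1, smul_smul, smul_smul]
          congr 1
          rw [map_mul, ← hav]
          ring }
    have hNZ : N ≤ cocycles (algebraMap A B ∘ f) i := by
      rintro y ⟨u, hu, z, hz, h1⟩
      have hz' := hZ0 hz
      refine isUnit_smul_cancel (hunit u hu) _ ?_
      rw [← h1]
      refine ⟨fun S hS => ?_, ?_⟩
      · rw [lam_apply, hz'.1 S hS, map_zero]
      · show d _ _ = 0
        rw [← lam_d, show d f z = 0 from hz'.2, map_zero]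
    have hBN : coboundaries (algebraMap A B ∘ f) i ≤ N := by
      rintro _ ⟨hb, e, rfl⟩
      obtain ⟨u, hu, e0, he0⟩ := lam_surj U f e
      refine ⟨u, hu, proj f i (d f e0), hB0 ⟨proj_mem_deg f i _, proj_d_mem_range f i e0⟩, ?_⟩
      rw [lam_proj, lam_d, he0, map_smul]
      exact proj_eq_self _ ((deg _ i).smul_mem _ hb)
    have hFN : ∀ y ∈ N, frobCochain p (algebraMap A B ∘ f) y ∈ N := by
      rintro y ⟨u, hu, z, hz, h1⟩
      refine ⟨u ^ p, U.pow_mem hu p, frobCochain p f z, hF0 z hz, ?_⟩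
      rw [lam_frob, h1, map_smulₛₗ, frobenius_def, map_pow]
    have h2 : lam B f x0 ∈ N := by
      refine h N hBN hNZ hFN (lam B f x0) ⟨fun S hS => ?_, ?_⟩ ?_
      · rw [lam_apply, hx0.1 S hS, map_zero]
      · show d _ _ = 0
        rw [← lam_d, show d f x0 = 0 from hx0.2, map_zero]
      · rw [← lam_frob]
        exact ⟨1, U.one_mem, _, hFx0, by rw [map_one, one_smul]⟩
    obtain ⟨u, hu, z, hz, h3⟩ := h2
    rw [← lam_smul, ← sub_eq_zero, ← map_sub] at h3
    obtain ⟨v, hv, h4⟩ := lam_ker U f _ h3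
    refine ⟨v * u, U.mul_mem hv hu, ?_⟩
    rw [smul_sub, sub_eq_zero, smul_smul] at h4
    rw [← h4]
    exact N0.smul_mem v hz
  · intro h N hBN hNZ hFN x hx hFx
    obtain ⟨u, hu, x0, hx0⟩ := lam_surj U f x
    have hx1 : lam B f (proj f i x0) = algebraMap A B u • x := by
      rw [lam_proj, hx0]
      exact proj_eq_self _ ((deg _ i).smul_mem _ hx.1)
    have hdx : lam B f (d f (proj f i x0)) = 0 := by
      rw [lam_d, hx1, map_smul, show d _ x = 0 from hx.2, smul_zero]
    obtain ⟨v, hv, hvx⟩ := lam_ker U f _ hdx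
    let x1 : Cochain f := v • proj f i x0
    have hx1Z : x1 ∈ cocycles f i := ⟨(deg f i).smul_mem v (proj_mem_deg f i x0), by
      show d f (v • proj f i x0) = 0
      rw [map_smul, hvx]⟩
    have hlx1 : lam B f x1 = algebraMap A B (v * u) • x := by
      rw [lam_smul, hx1, smul_smul, ← map_mul]
    let N0 : Submodule A (Cochain f) :=
      { carrier := {c | c ∈ cocycles f i ∧ lam B f c ∈ N}
        add_mem' := by
          rintro a b ⟨ha, ha'⟩ ⟨hb, hb'⟩
          exact ⟨Submodule.add_mem _ ha hb, by rw [map_add]; exact N.add_mem ha' hb'⟩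
        zero_mem' := ⟨Submodule.zero_mem _, by rw [map_zero]; exact N.zero_mem⟩
        smul_mem' := by
          rintro a b ⟨hb, hb'⟩
          exact ⟨Submodule.smul_mem _ a hb, by rw [lam_smul]; exact N.smul_mem _ hb'⟩ }
    obtain ⟨w, hw, hw'⟩ := h N0
      (by
        rintro _ ⟨hb, e, rfl⟩
        refine ⟨⟨hb, d_d f e⟩, hBN ⟨fun S hS => ?_, lam B f e, (lam_d f e).symm⟩⟩
        rw [lam_apply, hb S hS, map_zero])
      (fun c hc => hc.1)
      (by
        rintro c ⟨hc, hc'⟩
        exact ⟨frobCochain_mem_cocycles p f i hc, by rw [lam_frob]; exact hFN _ hc'⟩)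
      x1 hx1Z
      ⟨frobCochain_mem_cocycles p f i hx1Z, by
        rw [lam_frob, hlx1, map_smulₛₗ]; exact N.smul_mem _ hFx⟩
    have h5 := hw'.2
    rw [lam_smul, hlx1, smul_smul, ← map_mul] at h5
    exact isUnit_smul_cancel (hunit _ (U.mul_mem hw (U.mul_mem hv hu))) N h5

end Loc

end Pool.Agent.Lib_helper39.FAN
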