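import Pool.Agent.Lib_helper39.FAN.Model2

namespace Pool.Agent.Lib_helper39.FAN

open Finset

noncomputable section

instance : CharP TT 2 := inferInstance

instance : CharP LL 2 := charP_of_injective_ringHom iT_injective 2

lemma Cub.of_injective {A : Type*} [CommRing A] (t q : A) : Function.Injective (Cub.of t q) := by
  intro a b h
  exact congrArg Cub.c0 h

instance {A : Type*} [CommRing A] (t q : A) (p : ℕ) [CharP A p] : CharP (Cub A t q) p :=
  charP_of_injective_ringHom (Cub.of_injective t q) p

instance : CharP RR 2 := inferInstance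

instance : CharP QQ 2 := inferInstance

open Classical in
/-- truncation of Laurent polynomials -/
def truncL (P : GG → Prop) : LL →+ LL where
  toFun x := AddMonoidAlgebra.ofCoeff (x.coeff.filter P)
  map_zero' := by
    have : Finsupp.filter P (0 : GG →₀ ZMod 2) = 0 := by
      ext e; simp [Finsupp.filter_apply]
    simp [this]
  map_add' a b := by simp [Finsupp.filter_add]

open Classical in
lemma coeff_truncL (P : GG → Prop) (x : LL) (e : GG) :
    (truncL P x).coeff e = if P e then x.coeff e else 0 := by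
  show (x.coeff.filter P) e = _
  rw [Finsupp.filter_apply]

/-- truncation on `Q` -/
def trunc (P : Fin 3 → GG → Prop) : QQ →+ QQ where
  toFun z := ⟨truncL (P 0) z.c0, truncL (P 1) z.c1, truncL (P 2) z.c2⟩
  map_zero' := by ext1 <;> simp
  map_add' a b := by ext1 <;> simp

open Classical in
lemma cf_trunc (P : Fin 3 → GG → Prop) (z : QQ) (i : Fin 3) (e : GG) :
    cf (trunc P z) i e = if P i e then cf z i e else 0 := by
  fin_cases i
  · exact coeff_truncL (P 0) z.c0 e
  · exact coeff_truncL (P 1) z.c1 e
  · exact coeff_truncL (P 2) z.c2 e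

/-- `j` is the first index at which `e` reaches the threshold -/
def First (j i : Fin 3) (e : GG) : Prop := kap i j ≤ e j ∧ ∀ k < j, e k < kap i k

/-- the projection onto the part with first good index `j` -/
def pj (j : Fin 3) : QQ →+ QQ := trunc (First j)

open Classical in
lemma sum_First (i : Fin 3) (e : GG) (c : ZMod 2) (h : ∃ k, kap i k ≤ e k) :
    ∑ j, (if First j i e then c else 0) = c := by
  rw [Fin.sum_univ_three]
  by_cases h0 : kap i 0 ≤ e 0
  · have f0 : First 0 i e := ⟨h0, fun k hk => absurd hk (Fin.not_lt_zero k)⟩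
    have f1 : ¬ First 1 i e := fun hh => absurd (hh.2 0 (by decide)) (not_lt.2 h0)
    have f2 : ¬ First 2 i e := fun hh => absurd (hh.2 0 (by decide)) (not_lt.2 h0)
    simp [f0, f1, f2]
  · by_cases h1 : kap i 1 ≤ e 1
    · have f0 : ¬ First 0 i e := fun hh => h0 hh.1
      have f1 : First 1 i e := ⟨h1, fun k hk => by
        have : k = 0 := by omega
        subst this; exact not_le.1 h0⟩
      have f2 : ¬ First 2 i e := fun hh => absurd (hh.2 1 (by decide)) (not_lt.2 h1)
      simp [f0, f1, f2]
    · have h2 : kap i 2 ≤ e 2 := by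
        obtain ⟨k, hk⟩ := h
        fin_cases k
        · exact absurd hk h0
        · exact absurd hk h1
        · exact hk
      have f0 : ¬ First 0 i e := fun hh => h0 hh.1
      have f1 : ¬ First 1 i e := fun hh => h1 hh.1
      have f2 : First 2 i e := ⟨h2, fun k hk => by
        have : k = 0 ∨ k = 1 := by omega
        rcases this with rfl | rfl
        · exact not_le.1 h0
        · exact not_le.1 h1⟩
      simp [f0, f1, f2]

lemma cf_sum {α : Type*} (s : Finset α) (g : α → QQ) (i : Fin 3) (e : GG) :
    cf (∑ a ∈ s, g a) i e = ∑ a ∈ s, cf (g a) i e := by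
  classical
  induction s using Finset.induction_on with
  | empty => simp [cf_zero]
  | insert a s ha ih => rw [Finset.sum_insert ha, Finset.sum_insert ha, cf_add, ih]

lemma sum_pj (z : QQ) (h : ∀ i e, cf z i e ≠ 0 → ∃ k, kap i k ≤ e k) : ∑ j, pj j z = z := by
  classical
  apply cf_ext
  intro i e
  rw [cf_sum]
  simp only [pj, cf_trunc]
  by_cases hz : cf z i e = 0
  · simp [hz]
  · exact sum_First i e _ (h i e hz)

lemma cf_pj_ne {j : Fin 3} {z : QQ} {i : Fin 3} {e : GG} (h : cf (pj j z) i e ≠ 0) :
    First j i e ∧ cf z i e ≠ 0 := by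
  classical
  unfold pj at h
  rw [cf_trunc] at h
  by_cases h1 : First j i e
  · rw [if_pos h1] at h; exact ⟨h1, h⟩
  · rw [if_neg h1] at h; exact absurd rfl h

/-- The cohomology of `R` on `s, t, h` vanishes in degrees `0, 1, 2`. -/
theorem cocycles_le_coboundaries {i : ℕ} (hi : i < 3) : cocycles ff i ≤ coboundaries ff i := by
  intro c hc
  refine mem_coboundaries_of_homotopy ff ff_isUnit jj_injective pj ?_ ?_ (by simpa using hi) hc
  · intro j S hj x hx
    rw [mem_range_toQ_iff] at hx ⊢
    intro i e he k hk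
    obtain ⟨h1, h2⟩ := cf_pj_ne he
    by_cases hkj : k = j
    · subst hkj; exact h1.1
    · exact hx i e h2 k (by simp [hkj, hk])
  · intro S hS x hx
    rw [mem_range_toQ_iff] at hx
    apply sum_pj
    intro i e he
    obtain ⟨k, hk⟩ : ∃ k, k ∉ S := by
      by_contra hcon
      push Not at hcon
      exact hS (Finset.eq_univ_iff_forall.2 hcon)
    exact ⟨k, hx i e he k hk⟩

/-- coefficientwise description of the top boundaries -/
def Good (z : QQ) : Prop := ∀ i e, (∀ k, e k < kap i k) → cf z i e = 0

lemma Good.exists {z : QQ} (h : Good z) {i : Fin 3} {e : GG} (he : cf z i e ≠ 0) :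
    ∃ k, kap i k ≤ e k := by
  by_contra hcon
  push Not at hcon
  exact he (h i e hcon)

lemma Good.pj_mem {z : QQ} (j : Fin 3) :
    pj j z ∈ Set.range (toQ ff ff_isUnit (univ.erase j)) := by
  rw [mem_range_toQ_iff]
  intro i e he k hk
  have : k = j := by simpa using hk
  subst this
  exact (cf_pj_ne he).1.1

lemma good_of_mem_range {j : Fin 3} {z : QQ}
    (h : z ∈ Set.range (toQ ff ff_isUnit (univ.erase j))) : Good z := by
  rw [mem_range_toQ_iff] at h
  intro i e he
  by_contra hcon
  exact absurd (h i e hcon j (by simp)) (not_le.2 (he j))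

lemma Good.add {z w : QQ} (hz : Good z) (hw : Good w) : Good (z + w) := by
  intro i e he
  rw [cf_add, hz i e he, hw i e he, add_zero]

lemma good_zero : Good 0 := fun i e _ => cf_zero i e

lemma good_sum {α : Type*} (s : Finset α) (g : α → QQ) (h : ∀ a ∈ s, Good (g a)) :
    Good (∑ a ∈ s, g a) := by
  intro i e he
  rw [cf_sum]
  exact Finset.sum_eq_zero fun a ha => h a ha i e he

/-- the top boundaries `R_{st} + R_{sh} + R_{th}` -/
def BB : Submodule RR QQ where
  carrier := {z | Good z}
  add_mem' h1 h2 := Good.add h1 h2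
  zero_mem' := good_zero
  smul_mem' r z hz := by
    have h1 : r • z = ∑ j, r • pj j z := by
      rw [← Finset.smul_sum, sum_pj z (fun i e he => Good.exists hz he)]
    show Good (r • z)
    rw [h1]
    refine good_sum _ _ fun j _ => good_of_mem_range (j := j) ?_
    obtain ⟨x, hx⟩ := Good.pj_mem (z := z) j
    exact ⟨r • x, by rw [map_smul, hx]⟩

lemma mem_BB {z : QQ} : z ∈ BB ↔ Good z := Iff.rfl

lemma sq_sum {α : Type*} (s : Finset α) (g : α → QQ) : (∑ a ∈ s, g a) ^ 2 = ∑ a ∈ s, g a ^ 2 :=
  sum_pow_char 2 s g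

lemma BB_sq (z : QQ) (hz : z ∈ BB) : z ^ 2 ∈ BB := by
  have h1 : z ^ 2 = ∑ j, (pj j z) ^ 2 := by
    rw [← sq_sum, sum_pj z (fun i e he => Good.exists hz he)]
  rw [h1]
  refine good_sum _ _ fun j _ => good_of_mem_range (j := j) ?_
  obtain ⟨x, hx⟩ := Good.pj_mem (z := z) j
  exact ⟨x ^ 2, by rw [map_pow, hx]⟩

end

end Pool.Agent.Lib_helper39.FAN
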